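import Pool.Agent.Lib.H12Z.Defs

/-! # H12Z, chunk A1 (S/M): algebra of the operators `dop` -/

namespace H12Z

/-- (A1a, S) PROOF. `ring_nf` / `add_right_comm`. -/
theorem dop_comm (a c a' c' : ℂ) (g : ℕ → ℂ → ℂ) :
    dop a c (dop a' c' g) = dop a' c' (dop a c g) := by
  funext n s
  simp only [dop]
  rw [add_right_comm s a' a]
  ring

/-- (A1b, S) PROOF. Induction, `dop_comm`. -/
theorem dops_dop (a c : ℂ) (L : List (ℂ × ℂ)) (g : ℕ → ℂ → ℂ) :
    dops L (dop a c g) = dop a c (dops L g) := by
  induction L generalizing g with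
  | nil => rfl
  | cons x L ih =>
    show dop x.1 x.2 (dops L (dop a c g)) = dop a c (dop x.1 x.2 (dops L g))
    rw [ih, dop_comm]

theorem a1_zero (L : List (ℂ × ℂ)) : dops L (fun _ _ => 0) = fun _ _ => 0 := by
  induction L with
  | nil => rfl
  | cons y L ih =>
    show dop y.1 y.2 (dops L fun _ _ => 0) = fun _ _ => 0
    rw [ih]
    funext n s
    simp [dop]

/-- (A1c, S/M) PROOF. Induction on `L`: if `x = (a, c)` is the head, `dops L g = dop a c (dops L' g) = dops L' (dop a c g)`
(`dops_dop`), and `dops L' 0 = 0`. -/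
theorem dops_kill {L : List (ℂ × ℂ)} {a c : ℂ} (h : (a, c) ∈ L) {g : ℕ → ℂ → ℂ}
    (hg : dop a c g = fun _ _ => 0) : dops L g = fun _ _ => 0 := by
  induction L with
  | nil => exact absurd h (List.not_mem_nil)
  | cons x L ih =>
    show dop x.1 x.2 (dops L g) = fun _ _ => 0
    rcases List.mem_cons.1 h with h | h
    · have h1 : dop x.1 x.2 (dops L g) = dops L (dop a c g) := by
        rw [← h, dops_dop]
      rw [h1, hg]
      exact a1_zero L
    · rw [ih h]
      funext n s
      simp [dop]

end H12Z
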