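import Pool.Agent.Lib.H12Z.Defs

/-! # H12Z, chunk A4 (M): bounds for the quotient -/

namespace H12Z

theorem a4_lower {w : ℂ} (h : 1 ≤ |w.re| ∨ Real.cos w.im = -1) :
    1 / 2 ≤ ‖Complex.exp w - 1‖ := by
  rcases h with h | h
  · rcases le_abs'.1 h with h | h
    · have h1 : ‖Complex.exp w‖ ≤ 1 / 2 := by
        rw [Complex.norm_exp]
        have h2 : Real.exp w.re ≤ Real.exp (-1) := Real.exp_le_exp.2 h
        have h3 := Real.exp_one_gt_d9
        have h4 : Real.exp (-1) * Real.exp 1 = 1 := by rw [← Real.exp_add]; norm_num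
        have h5 := Real.exp_pos (-1)
        nlinarith
      have h2 := norm_sub_norm_le (1 : ℂ) (Complex.exp w)
      rw [norm_one, norm_sub_rev] at h2
      linarith
    · have h1 : 2 ≤ ‖Complex.exp w‖ := by
        rw [Complex.norm_exp]
        have h2 := Real.add_one_le_exp w.re
        linarith
      have h2 := norm_sub_norm_le (Complex.exp w) 1
      rw [norm_one] at h2
      linarith
  · have h1 : (Complex.exp w - 1).re ≤ -1 := by
      rw [Complex.sub_re, Complex.exp_re, h, Complex.one_re]
      have := Real.exp_pos w.re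
      linarith
    have h2 := Complex.abs_re_le_norm (Complex.exp w - 1)
    have h3 : 1 ≤ |(Complex.exp w - 1).re| := by
      rw [le_abs']; left; exact h1
    linarith

/-- (A4a, S) PROOF. `‖exp (2 π i s)‖ = exp (-2 π s.im)`. For `s.im ≥ 1` it is at most `1/4`, for `s.im ≤ -1` at least `4`; for
`s.re = m + 1/2` the number `exp (2 π i s) = -exp (-2 π s.im)` is real and negative. -/
theorem exp_sub_one_lower {s : ℂ} (h : 1 ≤ |s.im| ∨ ∃ m : ℤ, s.re = m + 1 / 2) :
    1 / 2 ≤ ‖Complex.exp (2 * Real.pi * Complex.I * s) - 1‖ ∧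
      1 / 2 ≤ ‖1 - Complex.exp (-(2 * Real.pi * Complex.I * s))‖ := by
  have hre : (2 * Real.pi * Complex.I * s).re = -(2 * Real.pi * s.im) := by simp
  have him : (2 * Real.pi * Complex.I * s).im = 2 * Real.pi * s.re := by simp
  have hpi := Real.pi_gt_three
  have key : 1 ≤ |(2 * Real.pi * Complex.I * s).re| ∨
      Real.cos (2 * Real.pi * Complex.I * s).im = -1 := by
    rcases h with h | ⟨m, h⟩
    · left
      rw [hre, abs_neg, abs_mul, abs_of_pos (by positivity : (0 : ℝ) < 2 * Real.pi)]
      nlinarith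
    · right
      rw [him, h, show 2 * Real.pi * ((m : ℝ) + 1 / 2) = Real.pi + m * (2 * Real.pi) by ring,
        Real.cos_add_int_mul_two_pi, Real.cos_pi]
  refine ⟨a4_lower key, ?_⟩
  rw [norm_sub_rev]
  apply a4_lower
  rw [Complex.neg_re, Complex.neg_im, abs_neg, Real.cos_neg]
  exact key

end H12Z
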