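import Pool.Agent.Lib.H12Z.Defs
import Pool.Agent.Lib.H12Z.A4

/-! # H12Z, chunk A4B (M): bounds for the quotient -/

namespace H12Z

theorem a4b_point {U : Set ℂ} {F J : ℂ → ℂ}
    (h : ∀ s ∈ U, F s = J s * (Complex.exp (2 * Real.pi * Complex.I * s) - 1)) {B : ℝ}
    (hB : ∀ s ∈ U, ‖F s‖ ≤ B) {s : ℂ} (hs : s ∈ U) (hc : 1 ≤ |s.im| ∨ ∃ m : ℤ, s.re = m + 1 / 2) :
    ‖J s‖ ≤ 2 * B ∧ ‖Complex.exp (2 * Real.pi * Complex.I * s) * J s‖ ≤ 2 * B := by
  obtain ⟨h1, h2⟩ := exp_sub_one_lower hc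
  have hb := hB s hs
  constructor
  · rw [h s hs, norm_mul] at hb
    have h3 := mul_le_mul_of_nonneg_left h1 (norm_nonneg (J s))
    linarith
  · have e : Complex.exp (2 * Real.pi * Complex.I * s) * J s *
        (1 - Complex.exp (-(2 * Real.pi * Complex.I * s))) = F s := by
      rw [h s hs]
      have e2 : Complex.exp (2 * Real.pi * Complex.I * s) *
          Complex.exp (-(2 * Real.pi * Complex.I * s)) = 1 := by
        rw [← Complex.exp_add]; simp
      linear_combination (-(J s)) * e2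
    rw [← e, norm_mul] at hb
    have h3 := mul_le_mul_of_nonneg_left h2
      (norm_nonneg (Complex.exp (2 * Real.pi * Complex.I * s) * J s))
    linarith

theorem a4b_rect {U : Set ℂ} {g : ℂ → ℂ} (hg : DifferentiableOn ℂ g U) {B : ℝ} {s : ℂ}
    (hs : Metric.closedBall s 3 ⊆ U) (hz : |s.im| < 1)
    (hb : ∀ w ∈ U, (1 ≤ |w.im| ∨ ∃ m : ℤ, w.re = m + 1 / 2) → ‖g w‖ ≤ B) : ‖g s‖ ≤ B := by
  set m : ℤ := round s.re with hm
  have hre : |s.re - m| ≤ 1 / 2 := abs_sub_round s.re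
  rw [abs_le] at hre
  rw [abs_lt] at hz
  have e1 : (m : ℝ) - 1 / 2 < m + 1 / 2 := by linarith
  have e2 : (-1 : ℝ) < 1 := by norm_num
  have hcl : closure (Set.Ioo ((m : ℝ) - 1 / 2) (m + 1 / 2) ×ℂ Set.Ioo (-1 : ℝ) 1) =
      Set.Icc ((m : ℝ) - 1 / 2) (m + 1 / 2) ×ℂ Set.Icc (-1 : ℝ) 1 := by
    rw [Complex.closure_reProdIm, closure_Ioo e1.ne, closure_Ioo e2.ne]
  have hball : ∀ w : ℂ, |w.re - s.re| ≤ 1 → |w.im - s.im| ≤ 2 → w ∈ Metric.closedBall s 3 := by
    intro w h1 h2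
    rw [Metric.mem_closedBall, dist_eq_norm]
    have h5 : ‖w - s‖ ≤ |(w - s).re| + |(w - s).im| := Complex.norm_le_abs_re_add_abs_im _
    rw [Complex.sub_re, Complex.sub_im] at h5
    linarith
  have hsub : closure (Set.Ioo ((m : ℝ) - 1 / 2) (m + 1 / 2) ×ℂ Set.Ioo (-1 : ℝ) 1) ⊆ U := by
    rw [hcl]
    intro w hw
    rw [Complex.mem_reProdIm] at hw
    obtain ⟨⟨ha, hb'⟩, hc, hd⟩ := hw
    apply hs
    apply hball
    · rw [abs_le]; constructor <;> linarith
    · rw [abs_le]; constructor <;> linarith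
  have hmem : s ∈ closure (Set.Ioo ((m : ℝ) - 1 / 2) (m + 1 / 2) ×ℂ Set.Ioo (-1 : ℝ) 1) := by
    rw [hcl, Complex.mem_reProdIm]
    exact ⟨⟨by linarith, by linarith⟩, ⟨hz.1.le, hz.2.le⟩⟩
  have hbd : Bornology.IsBounded (Set.Ioo ((m : ℝ) - 1 / 2) (m + 1 / 2) ×ℂ Set.Ioo (-1 : ℝ) 1) :=
    (Metric.isBounded_Ioo _ _).reProdIm (Metric.isBounded_Ioo _ _)
  refine Complex.norm_le_of_forall_mem_frontier_norm_le hbd (hg.mono hsub).diffContOnCl ?_ hmem
  intro w hw
  have hwU : w ∈ U := hsub (frontier_subset_closure hw)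
  rw [Complex.frontier_reProdIm, closure_Ioo e1.ne, closure_Ioo e2.ne, frontier_Ioo e1, frontier_Ioo e2] at hw
  rcases hw with hw | hw
  · rw [Complex.mem_reProdIm] at hw
    obtain ⟨⟨ha, hb'⟩, hc⟩ := hw
    have hc' : w.im = -1 ∨ w.im = 1 := by simpa using hc
    apply hb w hwU
    left
    rcases hc' with hc' | hc' <;> rw [hc'] <;> norm_num
  · rw [Complex.mem_reProdIm] at hw
    obtain ⟨hc, ⟨ha, hb'⟩⟩ := hw
    have hc' : w.re = m - 1 / 2 ∨ w.re = m + 1 / 2 := by simpa using hc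
    apply hb w hwU
    right
    rcases hc' with hc' | hc'
    · exact ⟨m - 1, by rw [hc']; push_cast; ring⟩
    · exact ⟨m, hc'⟩

/-- (A4b, M) PROOF. Both functions `J` and `exp (2 π i s) J = F / (1 - exp (-2 π i s))` are analytic. If `|s.im| ≥ 1`, use
`exp_sub_one_lower` directly. Otherwise maximum principle on the rectangle `m - 1/2 ≤ re ≤ m + 1/2`, `|im| ≤ 1` with
`m = round s.re` (all its points have distance `≤ 3` from `s`; `Complex.norm_le_of_forall_mem_frontier_norm_le` as in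
`H12L/C2.lean`). -/
theorem quotient_bound {U : Set ℂ} {F J : ℂ → ℂ} (hJ : DifferentiableOn ℂ J U)
    (h : ∀ s ∈ U, F s = J s * (Complex.exp (2 * Real.pi * Complex.I * s) - 1)) {B : ℝ}
    (hB : ∀ s ∈ U, ‖F s‖ ≤ B) {s : ℂ} (hs : Metric.closedBall s 3 ⊆ U) :
    ‖J s‖ ≤ 2 * B ∧ ‖Complex.exp (2 * Real.pi * Complex.I * s) * J s‖ ≤ 2 * B := by
  rcases le_or_gt 1 |s.im| with hz | hz
  · exact a4b_point h hB (hs (Metric.mem_closedBall_self (by norm_num))) (Or.inl hz)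
  · constructor
    · exact a4b_rect hJ hs hz (fun w hw hc => (a4b_point h hB hw hc).1)
    · have hE : DifferentiableOn ℂ (fun w => Complex.exp (2 * Real.pi * Complex.I * w) * J w) U := by
        apply DifferentiableOn.mul _ hJ
        exact (Complex.differentiable_exp.comp (by fun_prop)).differentiableOn
      exact a4b_rect (g := fun w => Complex.exp (2 * Real.pi * Complex.I * w) * J w) hE hs hz
        (fun w hw hc => (a4b_point h hB hw hc).2)

end H12Z
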