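import Pool.Agent.Lib.H12Z.Defs
import Pool.Agent.Lib.H12Z.A4B

/-! # H12Z, chunk A5 (S/M): expansion of the quotient -/

namespace H12Z

theorem a5_exp_two_pi : 4 ≤ Real.exp (2 * Real.pi) := by
  have h1 := Real.add_one_le_exp (2 * Real.pi)
  have h2 := Real.pi_gt_three
  linarith

/-- the norm of the remainder of the geometric expansion -/
theorem a5_rem {x E J : ℂ} {t B : ℝ} (hx : ‖x‖ = Real.exp (-(2 * Real.pi * t))) (ht : 1 ≤ t)
    (hJ : J * (1 - x) = x * E) (hB : ‖E‖ ≤ B) (K : ℕ) :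
    ‖J - ∑ j ∈ Finset.range K, x ^ (j + 1) * E‖ ≤ 2 * B * Real.exp (-(2 * Real.pi * K) * t) := by
  have hpi := Real.pi_pos
  have h4 : ‖x‖ ≤ 1 / 4 := by
    rw [hx, Real.exp_neg]
    rw [one_div]
    refine inv_anti₀ (by norm_num) (a5_exp_two_pi.trans (Real.exp_le_exp.2 ?_))
    nlinarith
  have h34 : 3 / 4 ≤ ‖1 - x‖ := by
    have := norm_sub_norm_le (1 : ℂ) x
    rw [norm_one] at this
    linarith
  have hne : (1 - x) ≠ 0 := by
    intro h
    rw [h, norm_zero] at h34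
    linarith
  have hgeo : (∑ j ∈ Finset.range K, x ^ (j + 1) * E) * (1 - x) = x * E - x ^ (K + 1) * E := by
    rw [← Finset.sum_mul]
    have h5 : ∑ j ∈ Finset.range K, x ^ (j + 1) = (∑ j ∈ Finset.range K, x ^ j) * x := by
      rw [Finset.sum_mul]
      exact Finset.sum_congr rfl (fun j _ => pow_succ x j)
    have h6 := geom_sum_mul_neg x K
    rw [h5]
    linear_combination x * E * h6
  have hkey : (J - ∑ j ∈ Finset.range K, x ^ (j + 1) * E) * (1 - x) = x ^ (K + 1) * E := by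
    rw [sub_mul, hJ, hgeo]
    ring
  have hn := congrArg (fun z => ‖z‖) hkey
  simp only [norm_mul, norm_pow] at hn
  have hpow : ‖x‖ ^ K = Real.exp (-(2 * Real.pi * K) * t) := by
    rw [hx, ← Real.exp_nat_mul]
    congr 1
    ring
  have hB0 : 0 ≤ B := (norm_nonneg _).trans hB
  have h7 : ‖J - ∑ j ∈ Finset.range K, x ^ (j + 1) * E‖ * (3 / 4) ≤ Real.exp (-(2 * Real.pi * K) * t) * (1 / 4) * B := by
    calc ‖J - ∑ j ∈ Finset.range K, x ^ (j + 1) * E‖ * (3 / 4)
        ≤ ‖J - ∑ j ∈ Finset.range K, x ^ (j + 1) * E‖ * ‖1 - x‖ := by gcongr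
      _ = ‖x‖ ^ (K + 1) * ‖E‖ := hn
      _ = Real.exp (-(2 * Real.pi * K) * t) * ‖x‖ * ‖E‖ := by rw [pow_succ, hpow]
      _ ≤ Real.exp (-(2 * Real.pi * K) * t) * (1 / 4) * B := by gcongr
  have h8 : 0 ≤ Real.exp (-(2 * Real.pi * K) * t) * B := by positivity
  nlinarith

/-- (A5a, S/M) PROOF. `x = exp (-2 π i s)`, `‖x‖ = exp (2 π s.im) ≤ 1/4`, `J = E x / (1 - x)`, and
`x / (1 - x) = x + ... + x ^ K + x ^ (K + 1) / (1 - x)` (`geom_sum_eq` / `mul_neg_geom_sum`). -/
theorem lower_expansion {E J s : ℂ} (h : E = J * (Complex.exp (2 * Real.pi * Complex.I * s) - 1))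
    (hs : s.im ≤ -1) {B : ℝ} (hB : ‖E‖ ≤ B) (K : ℕ) :
    ‖J - ∑ j ∈ Finset.range K, Complex.exp (2 * Real.pi * Complex.I * (-((j : ℂ) + 1)) * s) * E‖ ≤
      2 * B * Real.exp (-(2 * Real.pi * K) * |s.im|) := by
  have habs : |s.im| = -s.im := abs_of_nonpos (by linarith)
  have hx : ‖Complex.exp (-(2 * Real.pi * Complex.I * s))‖ = Real.exp (-(2 * Real.pi * |s.im|)) := by
    rw [Complex.norm_exp, habs]
    congr 1
    simp
  have hJ : J * (1 - Complex.exp (-(2 * Real.pi * Complex.I * s))) =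
      Complex.exp (-(2 * Real.pi * Complex.I * s)) * E := by
    have h1 : Complex.exp (-(2 * Real.pi * Complex.I * s)) * Complex.exp (2 * Real.pi * Complex.I * s) = 1 := by
      rw [← Complex.exp_add]
      simp
    rw [h]
    linear_combination (-J) * h1
  have hmain := a5_rem hx (by rw [habs]; linarith) hJ hB K
  have hsum : ∑ j ∈ Finset.range K, Complex.exp (2 * Real.pi * Complex.I * (-((j : ℂ) + 1)) * s) * E =
      ∑ j ∈ Finset.range K, Complex.exp (-(2 * Real.pi * Complex.I * s)) ^ (j + 1) * E := by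
    refine Finset.sum_congr rfl (fun j _ => ?_)
    rw [← Complex.exp_nat_mul]
    congr 2
    push_cast
    ring
  rw [hsum]
  exact hmain

/-- (A5b, S/M) PROOF. `y = exp (2 π i s)`, `‖y‖ = exp (-2 π s.im) ≤ 1/4`, `y J = -y E / (1 - y)`. -/
theorem upper_expansion {E J s : ℂ} (h : E = J * (Complex.exp (2 * Real.pi * Complex.I * s) - 1))
    (hs : 1 ≤ s.im) {B : ℝ} (hB : ‖E‖ ≤ B) (K : ℕ) :
    ‖Complex.exp (2 * Real.pi * Complex.I * s) * J +
      ∑ j ∈ Finset.range K, Complex.exp (2 * Real.pi * Complex.I * ((j : ℂ) + 1) * s) * E‖ ≤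
      2 * B * Real.exp (-(2 * Real.pi * K) * |s.im|) := by
  have habs : |s.im| = s.im := abs_of_nonneg (by linarith)
  have hx : ‖Complex.exp (2 * Real.pi * Complex.I * s)‖ = Real.exp (-(2 * Real.pi * |s.im|)) := by
    rw [Complex.norm_exp, habs]
    congr 1
    simp
  have hJ : (Complex.exp (2 * Real.pi * Complex.I * s) * J) * (1 - Complex.exp (2 * Real.pi * Complex.I * s)) =
      Complex.exp (2 * Real.pi * Complex.I * s) * (-E) := by
    rw [h]
    ring
  have hmain := a5_rem hx (by rw [habs]; linarith) hJ (B := B) (by rw [norm_neg]; exact hB) K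
  have hsum : ∑ j ∈ Finset.range K, Complex.exp (2 * Real.pi * Complex.I * ((j : ℂ) + 1) * s) * E =
      -∑ j ∈ Finset.range K, Complex.exp (2 * Real.pi * Complex.I * s) ^ (j + 1) * (-E) := by
    rw [← Finset.sum_neg_distrib]
    refine Finset.sum_congr rfl (fun j _ => ?_)
    rw [← Complex.exp_nat_mul, mul_neg, neg_neg]
    congr 2
    push_cast
    ring
  rw [hsum, ← sub_eq_add_neg]
  exact hmain

end H12Z
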