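import Pool.Agent.Lib.H12Z.Defs

/-! # H12Z, chunk A3 (M): division by `exp (2 π i s) - 1` -/

namespace H12Z

/-- (A3, M) PROOF. As `H12L.exists_quotient` (file `H12L/C1.lean`) with `S s = exp (2 π i s) - 1` (derivative `2 π i` at the
integers; `S s = 0` iff `s` is an integer: `Complex.exp_eq_one_iff`) instead of the sine, on an open set:
`J s = F s / S s` if `S s ≠ 0`, `J m = deriv F m / (2 π i)` at integers `m`; near `m ∈ U`:
`J = dslope F m / dslope S m`. -/
theorem exists_quotient_on {U : Set ℂ} (hU : IsOpen U) {F : ℂ → ℂ} (hF : DifferentiableOn ℂ F U)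
    (h0 : ∀ m : ℤ, (m : ℂ) ∈ U → F m = 0) :
    ∃ J : ℂ → ℂ, DifferentiableOn ℂ J U ∧
      ∀ s ∈ U, F s = J s * (Complex.exp (2 * Real.pi * Complex.I * s) - 1) := by
  classical
  have hpi : (2 * Real.pi * Complex.I : ℂ) ≠ 0 := Complex.two_pi_I_ne_zero
  obtain ⟨S, hSdef⟩ : ∃ S : ℂ → ℂ, S = fun s => Complex.exp (2 * Real.pi * Complex.I * s) - 1 := ⟨_, rfl⟩
  have hSderiv : ∀ z, HasDerivAt S (Complex.exp (2 * Real.pi * Complex.I * z) * (2 * Real.pi * Complex.I)) z := by
    intro z
    rw [hSdef]
    have h1 : HasDerivAt (fun w : ℂ => (2 * Real.pi * Complex.I : ℂ) * w) (2 * Real.pi * Complex.I : ℂ) z := by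
      simpa using (hasDerivAt_id z).const_mul (2 * Real.pi * Complex.I : ℂ)
    exact (h1.cexp).sub_const 1
  have hSd : Differentiable ℂ S := fun z => (hSderiv z).differentiableAt
  have hS0 : ∀ z, S z = 0 → ∃ m : ℤ, z = m := by
    intro z hz
    rw [hSdef] at hz
    obtain ⟨k, hk⟩ := Complex.exp_eq_one_iff.1 (sub_eq_zero.1 hz)
    refine ⟨k, ?_⟩
    have h1 : (2 * Real.pi * Complex.I : ℂ) * z = (2 * Real.pi * Complex.I) * k := by rw [hk]; ring
    exact mul_left_cancel₀ hpi h1
  have hSm : ∀ m : ℤ, S m = 0 := by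
    intro m
    rw [hSdef]
    show Complex.exp (2 * Real.pi * Complex.I * m) - 1 = 0
    rw [sub_eq_zero, Complex.exp_eq_one_iff]
    exact ⟨m, by ring⟩
  have hder : ∀ m : ℤ, deriv S m ≠ 0 := by
    intro m
    rw [(hSderiv m).deriv]
    exact mul_ne_zero (Complex.exp_ne_zero _) hpi
  refine ⟨fun z => if S z = 0 then deriv F z / deriv S z else F z / S z, ?_, ?_⟩
  · intro z hzU
    have hUz : U ∈ nhds z := hU.mem_nhds hzU
    refine DifferentiableAt.differentiableWithinAt ?_
    by_cases hz : S z = 0
    · obtain ⟨m, rfl⟩ := hS0 z hz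
      have hdF : DifferentiableAt ℂ (dslope F m) m :=
        ((Complex.differentiableOn_dslope hUz).mpr hF).differentiableAt hUz
      have hdS : DifferentiableAt ℂ (dslope S m) m :=
        ((Complex.differentiableOn_dslope (Filter.univ_mem)).mpr hSd.differentiableOn).differentiableAt
          Filter.univ_mem
      have hne : dslope S m m ≠ 0 := by
        rw [dslope_same]; exact hder m
      have hev : ∀ᶠ w in nhds (m : ℂ), dslope S m w ≠ 0 := hdS.continuousAt.eventually_ne hne
      refine (hdF.div hdS hne).congr_of_eventuallyEq ?_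
      filter_upwards [hev] with w hw
      by_cases hwm : w = m
      · subst hwm
        simp only [Pi.div_apply]
        rw [if_pos hz, dslope_same, dslope_same]
      · have h1 : S w = (w - m) * dslope S m w := by
          have := sub_smul_dslope S (m : ℂ) w
          rw [hSm m, sub_zero, smul_eq_mul] at this
          exact this.symm
        have h2 : F w = (w - m) * dslope F m w := by
          have := sub_smul_dslope F (m : ℂ) w
          rw [h0 m hzU, sub_zero, smul_eq_mul] at this
          exact this.symm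
        have h3 : w - m ≠ 0 := sub_ne_zero.mpr hwm
        have h4 : S w ≠ 0 := by rw [h1]; exact mul_ne_zero h3 hw
        simp only [Pi.div_apply]
        rw [if_neg h4, h1, h2, mul_div_mul_left _ _ h3]
    · have hev : ∀ᶠ w in nhds z, S w ≠ 0 := (hSd z).continuousAt.eventually_ne hz
      refine ((hF.differentiableAt hUz).div (hSd z) hz).congr_of_eventuallyEq ?_
      filter_upwards [hev] with w hw
      simp only [Pi.div_apply]
      rw [if_neg hw]
  · intro z hzU
    have h1 : Complex.exp (2 * Real.pi * Complex.I * z) - 1 = S z := by rw [hSdef]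
    rw [h1]
    by_cases hz : S z = 0
    · obtain ⟨m, rfl⟩ := hS0 z hz
      rw [hz, h0 m hzU, mul_zero]
    · simp only []
      rw [if_neg hz, div_mul_cancel₀ _ hz]

end H12Z
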