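import Pool.Agent.Lib.H12Z.Defs
import Pool.Agent.Lib.H12Z.A1

/-! # H12Z, chunk A1B (S/M): algebra of the operators `dop` -/

namespace H12Z

/-- (A1d, S) PROOF. Induction. -/
theorem dops_add (L : List (ℂ × ℂ)) (g h : ℕ → ℂ → ℂ) :
    dops L (fun n s => g n s + h n s) = fun n s => dops L g n s + dops L h n s := by
  induction L with
  | nil => rfl
  | cons x L ih =>
    show dop x.1 x.2 (dops L fun n s => g n s + h n s) =
      fun n s => dop x.1 x.2 (dops L g) n s + dop x.1 x.2 (dops L h) n s
    rw [ih]
    funext n s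
    simp only [dop]
    ring

/-- (A1e, S) PROOF. Induction. -/
theorem dops_smul (L : List (ℂ × ℂ)) (c : ℂ) (g : ℕ → ℂ → ℂ) :
    dops L (fun n s => c * g n s) = fun n s => c * dops L g n s := by
  induction L with
  | nil => rfl
  | cons x L ih =>
    show dop x.1 x.2 (dops L fun n s => c * g n s) = fun n s => c * dop x.1 x.2 (dops L g) n s
    rw [ih]
    funext n s
    simp only [dop]
    ring

/-- (A1f, S) PROOF. Induction on the finset, `dops_add`. -/
theorem dops_sum (L : List (ℂ × ℂ)) {ι : Type} (S : Finset ι) (g : ι → ℕ → ℂ → ℂ) :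
    dops L (fun n s => ∑ i ∈ S, g i n s) = fun n s => ∑ i ∈ S, dops L (g i) n s := by
  classical
  induction S using Finset.induction_on with
  | empty =>
    simp only [Finset.sum_empty]
    exact a1_zero L
  | insert a S ha ih =>
    have h1 : (fun (n : ℕ) (s : ℂ) => ∑ i ∈ insert a S, g i n s) =
        fun n s => g a n s + ∑ i ∈ S, g i n s := by
      funext n s
      exact Finset.sum_insert ha
    rw [h1, dops_add L (g a) (fun n s => ∑ i ∈ S, g i n s), ih]
    funext n s
    show dops L (g a) n s + ∑ i ∈ S, dops L (g i) n s = ∑ i ∈ insert a S, dops L (g i) n s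
    rw [Finset.sum_insert ha]

end H12Z
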