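import Pool.Agent.Lib.H12Z.Defs
import Pool.Agent.Lib.H12Z.A1B

/-! # H12Z, chunk A1C (S/M): algebra of the operators `dop` -/

namespace H12Z

theorem a1c_aux (L : List (ℂ × ℂ)) : ∃ C A : ℝ, 0 ≤ C ∧ 0 ≤ A ∧ ∀ (n₀ : ℕ) (g : ℕ → ℂ → ℂ) (B : ℝ) (s : ℂ),
    (∀ n ≤ n₀ + L.length, ∀ w : ℂ, ‖w‖ ≤ A → ‖g n (s + w)‖ ≤ B) → ‖dops L g n₀ s‖ ≤ C * B := by
  induction L with
  | nil =>
    refine ⟨1, 0, zero_le_one, le_refl _, ?_⟩
    intro n₀ g B s h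
    have h1 := h n₀ (Nat.le_add_right _ _) 0 (by simp)
    rw [add_zero] at h1
    rw [one_mul]
    exact h1
  | cons x L ih =>
    obtain ⟨C, A, hC, hA, H⟩ := ih
    refine ⟨(1 + ‖x.2‖) * C, A + ‖x.1‖, mul_nonneg (by positivity) hC, add_nonneg hA (norm_nonneg _), ?_⟩
    intro n₀ g B s h
    have e1 : dops (x :: L) g n₀ s = dops L g (n₀ + 1) s - x.2 * dops L g n₀ (s + x.1) := rfl
    have h1 : ‖dops L g (n₀ + 1) s‖ ≤ C * B := by
      apply H (n₀ + 1) g B s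
      intro n hn w hw
      apply h n _ w (le_trans hw (le_add_of_nonneg_right (norm_nonneg _)))
      rw [List.length_cons]
      omega
    have h2 : ‖dops L g n₀ (s + x.1)‖ ≤ C * B := by
      apply H n₀ g B (s + x.1)
      intro n hn w hw
      rw [add_assoc]
      apply h n _ (x.1 + w)
      · calc ‖x.1 + w‖ ≤ ‖x.1‖ + ‖w‖ := norm_add_le _ _
          _ ≤ A + ‖x.1‖ := by linarith
      · rw [List.length_cons]
        omega
    rw [e1]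
    calc ‖dops L g (n₀ + 1) s - x.2 * dops L g n₀ (s + x.1)‖
        ≤ ‖dops L g (n₀ + 1) s‖ + ‖x.2 * dops L g n₀ (s + x.1)‖ := norm_sub_le _ _
      _ ≤ C * B + ‖x.2‖ * (C * B) := by
          rw [norm_mul]
          exact add_le_add h1 (mul_le_mul_of_nonneg_left h2 (norm_nonneg _))
      _ = (1 + ‖x.2‖) * C * B := by ring

/-- (A1g, S/M) PROOF. Induction on `L`: `‖dop a c g n s‖ ≤ ‖g (n + 1) s‖ + ‖c‖ ‖g n (s + a)‖`; `A` is the sum of the `‖a‖`, `C`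
the product of the `1 + ‖c‖`. (Prove it for all `n₀`: the values `g n (s + w)` with `n ≤ n₀ + L.length` bound
`dops L g n₀ s`.) -/
theorem dops_bound (L : List (ℂ × ℂ)) : ∃ C A : ℝ, 0 ≤ C ∧ 0 ≤ A ∧ ∀ (g : ℕ → ℂ → ℂ) (B : ℝ) (s : ℂ),
    (∀ n ≤ L.length, ∀ w : ℂ, ‖w‖ ≤ A → ‖g n (s + w)‖ ≤ B) → ‖dops L g 0 s‖ ≤ C * B := by
  obtain ⟨C, A, hC, hA, H⟩ := a1c_aux L
  refine ⟨C, A, hC, hA, ?_⟩
  intro g B s h
  apply H 0 g B s
  intro n hn w hw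
  apply h n _ w hw
  omega

end H12Z
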