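import Pool.Agent.Lib.H12Z.Defs

/-! # H12Z, chunk T1 (S/M): cones -/

namespace H12Z

/-- (T1a, S) PROOF. `s.re > 0` is implied: `0 ≤ |s.im| < ε * s.re`, `ε > 0`. -/
theorem Co_re_pos {ε R : ℝ} (hε : 0 < ε) {s : ℂ} (hs : s ∈ Co ε R) : 0 < s.re := by
  have h := (mem_Co.1 hs).1
  have h1 : 0 < ε * s.re := lt_of_le_of_lt (abs_nonneg _) h
  exact (pos_iff_pos_of_mul_pos h1).1 hε

/-- (T1b, S) -/
theorem Co_mono {ε ε' R R' : ℝ} (hε : 0 < ε) (h : ε ≤ ε') (hR : R' ≤ R) : Co ε R ⊆ Co ε' R' := by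
  intro s hs
  have hp := Co_re_pos hε hs
  obtain ⟨h1, h2⟩ := mem_Co.1 hs
  exact mem_Co.2 ⟨lt_of_lt_of_le h1 (mul_le_mul_of_nonneg_right h hp.le), lt_of_le_of_lt hR h2⟩

/-- (T1c, S) PROOF. Continuity of `re`, `im`. -/
theorem Co_isOpen (ε R : ℝ) : IsOpen (Co ε R) := by
  have h1 : IsOpen {s : ℂ | |s.im| < ε * s.re} :=
    isOpen_lt (Complex.continuous_im.abs) (continuous_const.mul Complex.continuous_re)
  have h2 : IsOpen {s : ℂ | R < s.re} := isOpen_lt continuous_const Complex.continuous_re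
  exact h1.inter h2

/-- (T1d, S) PROOF. `|t a + (1 - t) b| ≤ t |a| + (1 - t) |b|`. -/
theorem Co_convex (ε R : ℝ) : Convex ℝ (Co ε R) := by
  intro x hx y hy a b ha hb hab
  obtain ⟨hx1, hx2⟩ := mem_Co.1 hx
  obtain ⟨hy1, hy2⟩ := mem_Co.1 hy
  refine mem_Co.2 ⟨?_, ?_⟩
  · have e1 : (a • x + b • y).im = a * x.im + b * y.im := by simp
    have e2 : (a • x + b • y).re = a * x.re + b * y.re := by simp
    rw [e1, e2]
    have h1 : |a * x.im + b * y.im| ≤ a * |x.im| + b * |y.im| := by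
      refine (abs_add_le _ _).trans ?_
      rw [abs_mul, abs_mul, abs_of_nonneg ha, abs_of_nonneg hb]
    have h2 : a * |x.im| + b * |y.im| < a * (ε * x.re) + b * (ε * y.re) := by
      rcases eq_or_lt_of_le ha with h0 | h0
      · have hb1 : b = 1 := by linarith
        rw [← h0, hb1]; linarith
      · have i1 : a * |x.im| < a * (ε * x.re) := mul_lt_mul_of_pos_left hx1 h0
        have i2 : b * |y.im| ≤ b * (ε * y.re) := mul_le_mul_of_nonneg_left hy1.le hb
        linarith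
    calc |a * x.im + b * y.im| ≤ a * |x.im| + b * |y.im| := h1
      _ < a * (ε * x.re) + b * (ε * y.re) := h2
      _ = ε * (a * x.re + b * y.re) := by ring
  · have e2 : (a • x + b • y).re = a * x.re + b * y.re := by simp
    rw [e2]
    rcases eq_or_lt_of_le ha with h0 | h0
    · have hb1 : b = 1 := by linarith
      rw [← h0, hb1]; linarith
    · have i1 : a * R < a * x.re := mul_lt_mul_of_pos_left hx2 h0
      have i2 : b * R ≤ b * y.re := mul_le_mul_of_nonneg_left hy2.le hb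
      have i3 : a * R + b * R = R := by rw [← add_mul, hab, one_mul]
      linarith

/-- (T1e, S) PROOF. `‖s‖ ≤ |s.re| + |s.im|`, `|s.im| < ε s.re`. -/
theorem Co_norm_le {ε R : ℝ} (hε : 0 < ε) {s : ℂ} (hs : s ∈ Co ε R) : ‖s‖ ≤ (1 + ε) * s.re := by
  obtain ⟨h1, h2⟩ := mem_Co.1 hs
  have h3 : 0 ≤ s.re := (Co_re_pos hε hs).le
  have h4 := Complex.norm_le_abs_re_add_abs_im s
  rw [abs_of_nonneg h3] at h4
  linarith

/-- (T1g, S) PROOF. Symmetric in the imaginary part. -/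
theorem Co_conj {ε R : ℝ} {s : ℂ} (hs : s ∈ Co ε R) : (starRingEnd ℂ) s ∈ Co ε R := by
  obtain ⟨h1, h2⟩ := mem_Co.1 hs
  refine mem_Co.2 ⟨?_, ?_⟩
  · rw [Complex.conj_im, Complex.conj_re, abs_neg]; exact h1
  · rw [Complex.conj_re]; exact h2

end H12Z
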