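import Pool.Agent.Lib.H12Z.Defs
import Pool.Agent.Lib.H12Z.T1

/-! # H12Z, chunk T1B (S/M): cones -/

namespace H12Z

/-- (T1f, S/M) PROOF. `x = s.re > 0`, `ε' = min 1 (ε / 2)`, `κ = min (1 / 16) (ε / 16)`; `‖s‖ ≤ (1 + ε') x ≤ 2 x`, so
`‖w‖ ≤ 2 κ x + A`, `|im (s + w)| ≤ ε' x + 2 κ x + A`, `re (s + w) ≥ x - 2 κ x - A`. Because of `ε' ≤ ε / 2`, `2 κ ≤ ε / 8`,
`2 κ ε ≤ ε / 8` it suffices that `x ε / 4 > A (1 + ε)` and `x (7 / 8) > R + A`: `R'` is the maximum of three numbers. -/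
theorem Co_ball {ε : ℝ} (hε : 0 < ε) (R A : ℝ) :
    ∃ R' : ℝ, ∀ s ∈ Co (min 1 (ε / 2)) R', ∀ w : ℂ, ‖w‖ ≤ min (1 / 16) (ε / 16) * ‖s‖ + A →
      s + w ∈ Co ε R := by
  set ε' : ℝ := min 1 (ε / 2) with hε'
  set κ : ℝ := min (1 / 16) (ε / 16) with hκ
  have e1 : 0 < ε' := lt_min one_pos (by linarith)
  have e2 : ε' ≤ 1 := min_le_left _ _
  have e3 : ε' ≤ ε / 2 := min_le_right _ _
  have k1 : 0 < κ := lt_min (by norm_num) (by linarith)
  have k2 : κ ≤ 1 / 16 := min_le_left _ _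
  have k3 : κ ≤ ε / 16 := min_le_right _ _
  refine ⟨max (4 * (|A| * (1 + ε)) / ε) (8 / 7 * (|R| + |A|)), ?_⟩
  intro s hs w hw
  have hp := Co_re_pos e1 hs
  obtain ⟨h1, h2⟩ := mem_Co.1 hs
  have h3 : 4 * (|A| * (1 + ε)) / ε < s.re := (le_max_left _ _).trans_lt h2
  have h4 : 8 / 7 * (|R| + |A|) < s.re := (le_max_right _ _).trans_lt h2
  have h5 : 4 * (|A| * (1 + ε)) < s.re * ε := (div_lt_iff₀ hε).1 h3
  have hA : A ≤ |A| := le_abs_self A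
  have hR : R ≤ |R| := le_abs_self R
  have hn : ‖s‖ ≤ 2 * s.re := by
    have h6 := Complex.norm_le_abs_re_add_abs_im s
    rw [abs_of_pos hp] at h6
    nlinarith
  have hw2 : ‖w‖ ≤ 2 * κ * s.re + |A| := by
    have h7 : κ * ‖s‖ ≤ κ * (2 * s.re) := mul_le_mul_of_nonneg_left hn k1.le
    linarith
  have hre : -(2 * κ * s.re + |A|) ≤ w.re := by
    have := Complex.abs_re_le_norm w
    have := neg_abs_le w.re
    linarith
  have him : |w.im| ≤ 2 * κ * s.re + |A| := (Complex.abs_im_le_norm w).trans hw2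
  have k4 : κ * s.re ≤ 1 / 16 * s.re := mul_le_mul_of_nonneg_right k2 hp.le
  have k5 : κ * s.re ≤ ε / 16 * s.re := mul_le_mul_of_nonneg_right k3 hp.le
  refine mem_Co.2 ⟨?_, ?_⟩
  · rw [Complex.add_im, Complex.add_re]
    have i1 : |s.im + w.im| ≤ |s.im| + |w.im| := abs_add_le _ _
    have i2 : |s.im| < ε / 2 * s.re := h1.trans_le (mul_le_mul_of_nonneg_right e3 hp.le)
    have i3 : ε * (-(2 * κ * s.re + |A|)) ≤ ε * w.re := mul_le_mul_of_nonneg_left hre hε.le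
    have i4 : ε * (κ * s.re) ≤ ε * (1 / 16 * s.re) := mul_le_mul_of_nonneg_left k4 hε.le
    nlinarith
  · rw [Complex.add_re]
    linarith

end H12Z
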