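import Pool.Agent.Lib.H12Z.Defs
import Pool.Agent.Lib.H12Z.T1B
import Pool.Agent.Lib.H12Z.A1C

/-! # H12Z, chunk A7 (S/M): regularity of `Ts`, `EE` and `dops` -/

namespace H12Z

/-- (A7a, S/M) PROOF. `Ts T = conj ∘ T ∘ conj` is differentiable at `s` if `T` is at `conj s`
(`DifferentiableAt.conj_conj` or `HasDerivAt.conj_conj`), `Co_conj`. -/
theorem Ts_differentiableOn {ε R : ℝ} {T : ℂ → ℂ} (hT : DifferentiableOn ℂ T (Co ε R)) :
    DifferentiableOn ℂ (Ts T) (Co ε R) := by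
  intro s hs
  have h1 : (starRingEnd ℂ) s ∈ Co ε R := Co_conj hs
  have h2 : DifferentiableAt ℂ T ((starRingEnd ℂ) s) :=
    (hT _ h1).differentiableAt ((Co_isOpen ε R).mem_nhds h1)
  have h3 := h2.conj_conj
  rw [Complex.conj_conj] at h3
  exact h3.differentiableWithinAt

/-- (A7b, S) PROOF. At an integer `m`: `Ts T (m + n (conj η)) = conj (T (m + n η))`, and `Re T = 0`. -/
theorem EE_int {T : ℂ → ℂ} {η : ℂ} {n : ℕ} {m : ℤ} (h : (T (m + (n : ℤ) * η)).re = 0) :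
    EE T η n m = 0 := by
  have e1 : (m : ℂ) + (n : ℂ) * η = (m : ℂ) + ((n : ℤ) : ℂ) * η := by push_cast; ring
  have e2 : (starRingEnd ℂ) ((m : ℂ) + (n : ℂ) * (starRingEnd ℂ) η) =
      (m : ℂ) + ((n : ℤ) : ℂ) * η := by
    rw [map_add, map_mul, Complex.conj_conj]
    simp
  unfold EE Ts
  rw [e1, e2, Complex.add_conj, h]
  simp

/-- (A7c, S) PROOF. Triangle inequality, `Co_conj`. -/
theorem EE_bound {ε R B : ℝ} {T : ℂ → ℂ} (hB : ∀ s ∈ Co ε R, ‖T s‖ ≤ B) {η : ℂ} {n : ℕ} {s : ℂ}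
    (h1 : s + n * η ∈ Co ε R) (h2 : s + n * (starRingEnd ℂ) η ∈ Co ε R) :
    ‖EE T η n s‖ ≤ 2 * B := by
  have b1 := hB _ h1
  have b2 := hB _ (Co_conj h2)
  unfold EE
  refine (norm_add_le _ _).trans ?_
  have e : ‖Ts T (s + n * (starRingEnd ℂ) η)‖ = ‖T ((starRingEnd ℂ) (s + n * (starRingEnd ℂ) η))‖ := by
    unfold Ts
    exact Complex.norm_conj _
  rw [e]
  linarith

end H12Z
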