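import Pool.Agent.Lib.H12Z.Defs
import Pool.Agent.Lib.H12Z.A7

/-! # H12Z, chunk A7B (S/M): regularity of `Ts`, `EE` and `dops` -/

namespace H12Z

theorem a7b_aux (L : List (ℂ × ℂ)) : ∃ A : ℝ, 0 ≤ A ∧ ∀ (g : ℕ → ℂ → ℂ) (n₀ : ℕ) (s : ℂ),
    (∀ n, n ≤ n₀ + L.length → ∀ w : ℂ, ‖w‖ ≤ A → DifferentiableAt ℂ (g n) (s + w)) →
      DifferentiableAt ℂ (dops L g n₀) s := by
  induction L with
  | nil =>
    refine ⟨0, le_refl 0, fun g n₀ s h => ?_⟩
    have h1 := h n₀ (by simp) 0 (by simp)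
    rw [add_zero] at h1
    exact h1
  | cons x L ih =>
    obtain ⟨A, hA0, hA⟩ := ih
    refine ⟨A + ‖x.1‖, by positivity, fun g n₀ s h => ?_⟩
    have e1 : dops (x :: L) g n₀ = fun s => dops L g (n₀ + 1) s - x.2 * dops L g n₀ (s + x.1) := by
      funext s
      rfl
    rw [e1]
    have h1 : DifferentiableAt ℂ (dops L g (n₀ + 1)) s := by
      refine hA g (n₀ + 1) s fun n hn w hw => h n ?_ w ?_
      · rw [List.length_cons]
        omega
      · have := norm_nonneg x.1
        linarith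
    have h2 : DifferentiableAt ℂ (dops L g n₀) (s + x.1) := by
      refine hA g n₀ (s + x.1) fun n hn w hw => ?_
      have h3 := h n (by rw [List.length_cons]; omega) (x.1 + w) ?_
      · rwa [← add_assoc] at h3
      · have := norm_add_le x.1 w
        linarith
    have h4 : DifferentiableAt ℂ (fun s => dops L g n₀ (s + x.1)) s :=
      differentiableAt_comp_add_const.2 h2
    exact h1.sub (h4.const_mul _)

/-- (A7d, S/M) PROOF. Induction on `L` (for all `n`): `dop a c g` is differentiable on `V'` if the `g n` are differentiable on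
`V` and `V'`, `V' + a` are contained in `V`; the sets `V_A = {s | ∀ w, ‖w‖ ≤ A → s + w ∈ U}` for decreasing `A`. (Or use
differentiability at each point: `dops L g n s` is a finite combination of `g k (s + w)` with `‖w‖ ≤ A`.) -/
theorem dops_differentiableAt (L : List (ℂ × ℂ)) : ∃ A : ℝ, 0 ≤ A ∧ ∀ (g : ℕ → ℂ → ℂ) (s : ℂ),
    (∀ n ≤ L.length, ∀ w : ℂ, ‖w‖ ≤ A → DifferentiableAt ℂ (g n) (s + w)) →
      DifferentiableAt ℂ (dops L g 0) s := by
  obtain ⟨A, hA0, hA⟩ := a7b_aux L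
  refine ⟨A, hA0, fun g s h => hA g 0 s fun n hn w hw => h n ?_ w hw⟩
  rwa [zero_add] at hn

end H12Z
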