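import Pool.Agent.Lib.H12Z.Defs
import Pool.Agent.Lib.H12Z.T1B
import Pool.Agent.Lib.H12Z.A3
import Pool.Agent.Lib.H12Z.A4B
import Pool.Agent.Lib.H12Z.A7B

/-! # H12Z, chunk A8 (M): the family of quotients -/

namespace H12Z

/-- (A8, M) PROOF. For `n ≤ K` and `s ∈ Co (min 1 (ε / 2)) R'` (`Co_ball` with `A = K ‖η‖`) the points `s + n η`,
`s + n (conj η)` are in `Co ε R`: `EE T η n` is differentiable on `Co ε₁ R'`, bounded by `2 B` and zero at the integers there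
(`EE_int`). `exists_quotient_on` for every `n` (choice; `J n = 0` for `n > K`). `quotient_bound` on the smaller cone
`Co ε₂ R₂`, `ε₂ = min 1 (ε₁ / 2)` (balls of radius `3` around its points are in `Co ε₁ R'`). -/
theorem exists_family {η : ℂ} {ε R : ℝ} (hε : 0 < ε) {T : ℂ → ℂ} (hT : ImagOn η ε R T) (K : ℕ) :
    ∃ (R' B : ℝ) (J : ℕ → ℂ → ℂ), 0 ≤ B ∧
      (∀ n ≤ K, DifferentiableOn ℂ (J n) (Co (ε / 4 ⊓ 1 / 2) R')) ∧
      (∀ n ≤ K, ∀ s ∈ Co (ε / 4 ⊓ 1 / 2) R',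
        EE T η n s = J n s * (Complex.exp (2 * Real.pi * Complex.I * s) - 1)) ∧
      (∀ n ≤ K, ∀ s ∈ Co (ε / 4 ⊓ 1 / 2) R', ‖EE T η n s‖ ≤ B ∧ ‖J n s‖ ≤ B ∧
        ‖Complex.exp (2 * Real.pi * Complex.I * s) * J n s‖ ≤ B ∧
        ‖T (s + n * η)‖ ≤ B) := by
  obtain ⟨hTd, ⟨B0, hB0⟩, hTi⟩ := hT
  obtain ⟨B1, hB1⟩ : ∃ B1 : ℝ, B1 = max B0 0 := ⟨_, rfl⟩
  have hB1' : 0 ≤ B1 := by rw [hB1]; exact le_max_right _ _
  have hTB : ∀ s ∈ Co ε R, ‖T s‖ ≤ B1 := fun s hs => (hB0 s hs).trans (by rw [hB1]; exact le_max_left _ _)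
  obtain ⟨R1, hR1⟩ := Co_ball hε R ((K : ℝ) * ‖η‖)
  obtain ⟨ε1, hε1⟩ : ∃ ε1 : ℝ, ε1 = min 1 (ε / 2) := ⟨_, rfl⟩
  have hε1p : 0 < ε1 := by rw [hε1]; exact lt_min one_pos (by linarith)
  rw [← hε1] at hR1
  have hm : 0 ≤ min (1 / 16) (ε / 16) := le_min (by norm_num) (by linarith)
  have hin : ∀ n ≤ K, ∀ s ∈ Co ε1 R1, ∀ w : ℂ, ‖w‖ = ‖η‖ → s + n * w ∈ Co ε R := by
    intro n hn s hs w hw
    refine hR1 s hs _ ?_
    rw [norm_mul, hw, Complex.norm_natCast]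
    have h1 : (n : ℝ) * ‖η‖ ≤ (K : ℝ) * ‖η‖ := by
      refine mul_le_mul_of_nonneg_right ?_ (norm_nonneg _)
      exact_mod_cast hn
    have h2 : 0 ≤ min (1 / 16) (ε / 16) * ‖s‖ := mul_nonneg hm (norm_nonneg _)
    linarith
  have hη : ‖(starRingEnd ℂ) η‖ = ‖η‖ := Complex.norm_conj η
  have hEd : ∀ n ≤ K, DifferentiableOn ℂ (EE T η n) (Co ε1 R1) := by
    intro n hn s hs
    have h1 : DifferentiableAt ℂ T (s + n * η) :=
      (hTd _ (hin n hn s hs η rfl)).differentiableAt ((Co_isOpen ε R).mem_nhds (hin n hn s hs η rfl))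
    have h2 : DifferentiableAt ℂ (Ts T) (s + n * (starRingEnd ℂ) η) :=
      (Ts_differentiableOn hTd _ (hin n hn s hs _ hη)).differentiableAt
        ((Co_isOpen ε R).mem_nhds (hin n hn s hs _ hη))
    have h3 : DifferentiableAt ℂ (fun z : ℂ => T (z + n * η)) s :=
      DifferentiableAt.comp (g := T) s h1 (by fun_prop)
    have h4 : DifferentiableAt ℂ (fun z : ℂ => Ts T (z + n * (starRingEnd ℂ) η)) s :=
      DifferentiableAt.comp (g := Ts T) s h2 (by fun_prop)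
    exact (h3.add h4).differentiableWithinAt
  have hEB : ∀ n ≤ K, ∀ s ∈ Co ε1 R1, ‖EE T η n s‖ ≤ 2 * B1 := fun n hn s hs =>
    EE_bound hTB (hin n hn s hs η rfl) (hin n hn s hs _ hη)
  have hE0 : ∀ n ≤ K, ∀ m : ℤ, (m : ℂ) ∈ Co ε1 R1 → EE T η n m = 0 := by
    intro n hn m hmm
    refine EE_int (hTi m n ?_)
    have := hin n hn _ hmm η rfl
    push_cast
    exact this
  have hex : ∀ n : ℕ, ∃ J : ℂ → ℂ, n ≤ K → DifferentiableOn ℂ J (Co ε1 R1) ∧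
      ∀ s ∈ Co ε1 R1, EE T η n s = J s * (Complex.exp (2 * Real.pi * Complex.I * s) - 1) := by
    intro n
    by_cases hn : n ≤ K
    · obtain ⟨J, hJ1, hJ2⟩ := exists_quotient_on (Co_isOpen ε1 R1) (hEd n hn) (hE0 n hn)
      exact ⟨J, fun _ => ⟨hJ1, hJ2⟩⟩
    · exact ⟨fun _ => 0, fun h => absurd h hn⟩
  choose J hJ using hex
  obtain ⟨R2, hR2⟩ := Co_ball hε1p R1 3
  have he2 : min 1 (ε1 / 2) = ε / 4 ⊓ 1 / 2 := by
    rw [hε1]
    show min 1 (min 1 (ε / 2) / 2) = min (ε / 4) (1 / 2)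
    rcases le_total 1 (ε / 2) with h | h
    · rw [min_eq_left h, min_eq_right (by norm_num), min_eq_right (by linarith)]
    · rw [min_eq_right h, min_eq_right (by linarith), min_eq_left (by linarith)]
      ring
  rw [he2] at hR2
  have hm1 : 0 ≤ min (1 / 16) (ε1 / 16) := le_min (by norm_num) (by linarith)
  have hball : ∀ s ∈ Co (ε / 4 ⊓ 1 / 2) R2, Metric.closedBall s 3 ⊆ Co ε1 R1 := by
    intro s hs z hz
    rw [Metric.mem_closedBall, dist_eq_norm] at hz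
    have h1 := hR2 s hs (z - s) (by
      have h2 : 0 ≤ min (1 / 16) (ε1 / 16) * ‖s‖ := mul_nonneg hm1 (norm_nonneg _)
      linarith)
    rwa [add_sub_cancel] at h1
  have hsub : Co (ε / 4 ⊓ 1 / 2) R2 ⊆ Co ε1 R1 := fun s hs =>
    hball s hs (Metric.mem_closedBall_self (by norm_num))
  refine ⟨R2, 4 * B1, J, by linarith, fun n hn => (hJ n hn).1.mono hsub,
    fun n hn s hs => (hJ n hn).2 s (hsub hs), fun n hn s hs => ?_⟩
  obtain ⟨h1, h2⟩ := quotient_bound (hJ n hn).1 (hJ n hn).2 (hEB n hn) (hball s hs)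
  have h3 := hEB n hn s (hsub hs)
  have h4 := hTB _ (hin n hn s (hsub hs) η rfl)
  exact ⟨by linarith, by linarith, by linarith, by linarith⟩

end H12Z
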