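import Pool.Agent.Lib.H12Z.Defs
import Pool.Agent.Lib.H12Z.A1C

/-! # H12Z, chunk A2 (S/M): modes and one-variable operators -/

namespace H12Z

/-- (A2a, S) PROOF. `exp (2 π i j s) T (s + (n + 1) a) = exp (-2 π i j a) exp (2 π i j (s + a)) T (s + a + n a)`. -/
theorem dop_mode (T : ℂ → ℂ) (a j : ℂ) :
    dop a (Complex.exp (-2 * Real.pi * Complex.I * j * a))
      (fun (n : ℕ) s => Complex.exp (2 * Real.pi * Complex.I * j * s) * T (s + n * a)) =
      fun _ _ => 0 := by
  funext n s
  unfold dop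
  have h : Complex.exp (2 * Real.pi * Complex.I * j * s) =
      Complex.exp (-2 * Real.pi * Complex.I * j * a) *
        Complex.exp (2 * Real.pi * Complex.I * j * (s + a)) := by
    rw [← Complex.exp_add]
    congr 1
    ring
  have h2 : s + ((n + 1 : ℕ) : ℂ) * a = s + a + (n : ℂ) * a := by
    push_cast
    ring
  simp only [h2]
  rw [h]
  ring

/-- (A2b, S) PROOF. `g (s + (n + 1) η) - c g (s + η + n η)`. -/
theorem dop_same (g : ℂ → ℂ) (η c : ℂ) :
    dop η c (fun (n : ℕ) s => g (s + n * η)) =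
      fun (n : ℕ) s => (fun s => (1 - c) * g (s + η)) (s + n * η) := by
  funext n s
  unfold dop
  have h2 : s + ((n + 1 : ℕ) : ℂ) * η = s + (n : ℂ) * η + η := by
    push_cast
    ring
  have h3 : s + η + (n : ℂ) * η = s + (n : ℂ) * η + η := by
    ring
  simp only [h2, h3]
  ring

/-- (A2c, S) PROOF. `g (s + (n + 1) η) - c g (s + η' + n η)`, and `s + n η + η' + (η - η') = s + (n + 1) η`. -/
theorem dop_other (g : ℂ → ℂ) (η η' c : ℂ) :
    dop η' c (fun (n : ℕ) s => g (s + n * η)) =
      fun (n : ℕ) s => (sh (η - η') c (fun s => g (s + η'))) (s + n * η) := by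
  funext n s
  unfold dop sh
  have h2 : s + ((n + 1 : ℕ) : ℂ) * η = s + (n : ℂ) * η + (η - η') + η' := by
    push_cast
    ring
  have h3 : s + η' + (n : ℂ) * η = s + (n : ℂ) * η + η' := by
    ring
  simp only [h2, h3]

end H12Z
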