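import Pool.Agent.Lib.H12Z.Defs
import Pool.Agent.Lib.H12Z.A2

/-! # H12Z, chunk A2B (S/M): modes and one-variable operators -/

namespace H12Z

theorem a2b_dops_cons (x : ℂ × ℂ) (L : List (ℂ × ℂ)) (g : ℕ → ℂ → ℂ) :
    dops (x :: L) g = dop x.1 x.2 (dops L g) := rfl

theorem a2b_ops_cons (Q w : ℂ) (ws : List ℂ) (g : ℂ → ℂ) : ops Q (w :: ws) g = sh Q w (ops Q ws g) := rfl

theorem a2b_ops_shift (Q a : ℂ) (ws : List ℂ) (g : ℂ → ℂ) :
    (fun s => ops Q ws g (s + a)) = ops Q ws (fun s => g (s + a)) := by
  induction ws with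
  | nil => rfl
  | cons w ws ih =>
    rw [a2b_ops_cons, a2b_ops_cons, ← ih]
    funext s
    show ops Q ws g (s + a + Q) - w * ops Q ws g (s + a) = ops Q ws g (s + Q + a) - w * ops Q ws g (s + a)
    rw [add_right_comm]

/-- (A2d, S/M) PROOF. Induction on `cs` with `dop_same`, on the shifted functions. -/
theorem dops_same (g : ℂ → ℂ) (η : ℂ) (cs : List ℂ) :
    dops (cs.map fun c => (η, c)) (fun (n : ℕ) s => g (s + n * η)) =
      fun (n : ℕ) s => (fun s => (cs.map fun c => 1 - c).prod * g (s + cs.length * η)) (s + n * η) := by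
  induction cs with
  | nil =>
    funext n s
    simp [dops]
  | cons c cs ih =>
    rw [List.map_cons, a2b_dops_cons, ih]
    show dop η c (fun (n : ℕ) s => (fun s => (cs.map fun c => 1 - c).prod * g (s + cs.length * η)) (s + n * η)) = _
    rw [dop_same (fun s => (cs.map fun c => 1 - c).prod * g (s + cs.length * η)) η c]
    funext n s
    show (1 - c) * ((cs.map fun c => 1 - c).prod * g (s + n * η + η + cs.length * η)) =
      ((c :: cs).map fun c => 1 - c).prod * g (s + n * η + (c :: cs).length * η)
    rw [List.map_cons, List.prod_cons, List.length_cons, mul_assoc]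
    have h : s + n * η + η + cs.length * η = s + n * η + ((cs.length + 1 : ℕ) : ℂ) * η := by
      push_cast
      ring
    rw [h]

/-- (A2e, S/M) PROOF. Induction on `cs` with `dop_other`; `sh` commutes with shifts. -/
theorem dops_other (g : ℂ → ℂ) (η η' : ℂ) (cs : List ℂ) :
    dops (cs.map fun c => (η', c)) (fun (n : ℕ) s => g (s + n * η)) =
      fun (n : ℕ) s => (ops (η - η') cs (fun s => g (s + cs.length * η'))) (s + n * η) := by
  induction cs with
  | nil =>
    funext n s
    simp [dops, ops]
  | cons c cs ih =>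
    rw [List.map_cons, a2b_dops_cons, ih]
    show dop η' c (fun (n : ℕ) s => (ops (η - η') cs (fun s => g (s + cs.length * η'))) (s + n * η)) = _
    rw [dop_other (ops (η - η') cs (fun s => g (s + cs.length * η'))) η η' c]
    rw [a2b_ops_shift (η - η') η' cs (fun s => g (s + cs.length * η'))]
    have h : (fun s : ℂ => g (s + η' + cs.length * η')) = fun s => g (s + ((c :: cs).length : ℕ) * η') := by
      funext s
      rw [List.length_cons]
      have h1 : s + η' + cs.length * η' = s + ((cs.length + 1 : ℕ) : ℂ) * η' := by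
        push_cast
        ring
      rw [h1]
    rw [a2b_ops_cons]
    rw [← h]

end H12Z
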