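import Pool.Agent.Lib.H12Z.Defs
import Pool.Agent.Lib.H12Z.A2B
import Pool.Agent.Lib.H12Z.A5

/-! # H12Z, chunk A9 (M): the operator `dops` on the expansions

`L = (nonzero nodes for η) ++ (all nodes for conj η)`. -/

namespace H12Z

/-- the list of all pairs `(η, exp (-2 π i j η))`, `0 < |j| ≤ K`, and `(conj η, exp (-2 π i j (conj η)))`, `|j| ≤ K` -/
noncomputable def LK (η : ℂ) (K : ℕ) : List (ℂ × ℂ) :=
  ((List.range K).map fun i =>
    (η, Complex.exp (-2 * Real.pi * Complex.I * ((i : ℂ) + 1) * η))) ++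
  ((List.range K).map fun i =>
    (η, Complex.exp (-2 * Real.pi * Complex.I * (-((i : ℂ) + 1)) * η))) ++
  ((nodes ((starRingEnd ℂ) η) K).map fun c => ((starRingEnd ℂ) η, c))

theorem a9_append (L L' : List (ℂ × ℂ)) (g : ℕ → ℂ → ℂ) :
    dops (L ++ L') g = dops L (dops L' g) := by
  unfold dops
  rw [List.foldr_append]

theorem a9_mem {n i : ℕ} (hi : i < n) :
    (i : ℂ) ∈ (do
      let a ← List.range n
      pure (a : ℂ) : List ℂ) := by
  simp only [List.bind_eq_flatMap, List.pure_def, List.mem_flatMap, List.mem_range,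
    List.mem_singleton]
  exact ⟨i, hi, rfl⟩

theorem a9_mem_conv {n : ℕ} {x : ℂ}
    (hx : x ∈ (do
      let a ← List.range n
      pure (a : ℂ) : List ℂ)) : ∃ i : ℕ, x = i := by
  simp only [List.bind_eq_flatMap, List.pure_def, List.mem_flatMap, List.mem_range,
    List.mem_singleton] at hx
  obtain ⟨i, -, h⟩ := hx
  exact ⟨i, h⟩

theorem a9_third (η : ℂ) (K : ℕ) {i : ℕ} (hi : i < 2 * K + 1) {j : ℂ} (hj : (i : ℂ) - K = j) :
    ((starRingEnd ℂ) η, Complex.exp (-2 * Real.pi * Complex.I * j * (starRingEnd ℂ) η)) ∈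
      LK η K := by
  unfold LK nodes
  refine List.mem_append.2 (Or.inr ?_)
  refine List.mem_map.2 ⟨Complex.exp (-2 * Real.pi * Complex.I * j * (starRingEnd ℂ) η), ?_, rfl⟩
  refine List.mem_map.2 ⟨(i : ℂ), a9_mem hi, ?_⟩
  rw [hj]

theorem a9_two (T : ℂ → ℂ) (η : ℂ) (K : ℕ) (j : ℂ)
    (h1 : (η, Complex.exp (-2 * Real.pi * Complex.I * j * η)) ∈ LK η K)
    (h2 : ((starRingEnd ℂ) η, Complex.exp (-2 * Real.pi * Complex.I * j * (starRingEnd ℂ) η)) ∈
      LK η K) :
    dops (LK η K) (fun n s => Complex.exp (2 * Real.pi * Complex.I * j * s) * EE T η n s) =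
      fun _ _ => 0 := by
  have h3 : (fun (n : ℕ) (s : ℂ) => Complex.exp (2 * Real.pi * Complex.I * j * s) * EE T η n s) =
      fun (n : ℕ) (s : ℂ) =>
        (fun (n : ℕ) (s : ℂ) => Complex.exp (2 * Real.pi * Complex.I * j * s) * T (s + n * η)) n s +
        (fun (n : ℕ) (s : ℂ) => Complex.exp (2 * Real.pi * Complex.I * j * s) *
          Ts T (s + n * (starRingEnd ℂ) η)) n s := by
    funext n s
    simp only [EE]
    ring
  rw [h3, dops_add, dops_kill h1 (dop_mode T η j),
    dops_kill h2 (dop_mode (Ts T) ((starRingEnd ℂ) η) j)]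
  funext n s
  simp

theorem a9_shift (Q : ℂ) (ws : List ℂ) (T : ℂ → ℂ) (a : ℂ) :
    ops Q ws (fun s => T (s + a)) = fun s => ops Q ws T (s + a) := by
  induction ws with
  | nil => rfl
  | cons w ws ih =>
    have h1 : ops Q (w :: ws) (fun s => T (s + a)) = sh Q w (ops Q ws (fun s => T (s + a))) := rfl
    have h2 : ops Q (w :: ws) T = sh Q w (ops Q ws T) := rfl
    rw [h1, h2, ih]
    funext s
    simp only [sh]
    rw [add_right_comm]

theorem a9_ne {η : ℂ} (hη : η.im ≠ 0) {r : ℝ} (hr : r ≠ 0) :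
    Complex.exp (-2 * Real.pi * Complex.I * (r : ℂ) * η) ≠ 1 := by
  intro h
  have h1 : ‖Complex.exp (-2 * Real.pi * Complex.I * (r : ℂ) * η)‖ = 1 := by rw [h]; simp
  rw [Complex.norm_exp, Real.exp_eq_one_iff] at h1
  have h2 : (-2 * Real.pi * Complex.I * (r : ℂ) * η).re = 2 * Real.pi * r * η.im := by
    simp [Complex.mul_re, Complex.mul_im]
  rw [h2] at h1
  have h3 : 2 * Real.pi * r * η.im ≠ 0 :=
    mul_ne_zero (mul_ne_zero (mul_ne_zero two_ne_zero Real.pi_ne_zero) hr) hη
  exact h3 h1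

/-- (A9a, S/M) PROOF. The mode `exp (2 π i j s) EE T η n s` is a sum of `exp (2 π i j s) T (s + n η)` and
`exp (2 π i j s) Ts T (s + n (conj η))`; `dop_mode`, `dops_kill` (the pairs with `j ≠ 0`, `|j| ≤ K` are in `LK`; for
`conj η` the node is element number `i = j + K` of the list), `dops_add`. -/
theorem kill_mode (T : ℂ → ℂ) (η : ℂ) (K : ℕ) {i : ℕ} (hi : i < K) :
    (dops (LK η K) (fun n s => Complex.exp (2 * Real.pi * Complex.I * ((i : ℂ) + 1) * s) * EE T η n s) =
      fun _ _ => 0) ∧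
    (dops (LK η K) (fun n s => Complex.exp (2 * Real.pi * Complex.I * (-((i : ℂ) + 1)) * s) *
      EE T η n s) = fun _ _ => 0) := by
  constructor
  · refine a9_two T η K ((i : ℂ) + 1) ?_ ?_
    · unfold LK
      exact List.mem_append.2 (Or.inl (List.mem_append.2 (Or.inl
        (List.mem_map.2 ⟨(i : ℂ), a9_mem hi, rfl⟩))))
    · refine a9_third η K (i := i + 1 + K) (by omega) ?_
      push_cast
      ring
  · refine a9_two T η K (-((i : ℂ) + 1)) ?_ ?_
    · unfold LK
      exact List.mem_append.2 (Or.inl (List.mem_append.2 (Or.inr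
        (List.mem_map.2 ⟨(i : ℂ), a9_mem hi, rfl⟩))))
    · refine a9_third η K (i := K - (i + 1)) (by omega) ?_
      rw [Nat.cast_sub (by omega : i + 1 ≤ K)]
      push_cast
      ring

/-- (A9b, S/M) PROOF. `EE = T + Ts T`; `Ts T (s + n (conj η))` is killed by the node with `j = 0`; for `T (s + n η)`:
`dops_same` for the first two blocks, `dops_other` for the last (`dops (L ++ L') g = dops L (dops L' g)`:
`List.foldr_append`). The constant `∏ (1 - exp (-2 π i j η))` is not zero because `exp (-2 π i j η) ≠ 1`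
(`η.im ≠ 0`, the norm is not `1`). -/
theorem dops_EE (T : ℂ → ℂ) {η : ℂ} (hη : η.im ≠ 0) (K : ℕ) : ∃ (c : ℂ) (a : ℂ), c ≠ 0 ∧
    ∀ s, dops (LK η K) (EE T η) 0 s =
      c * ops (η - (starRingEnd ℂ) η) (nodes ((starRingEnd ℂ) η) K) T (s + a) := by
  set cs : List ℂ :=
    ((List.range K).map fun i => Complex.exp (-2 * Real.pi * Complex.I * ((i : ℂ) + 1) * η)) ++
    ((List.range K).map fun i => Complex.exp (-2 * Real.pi * Complex.I * (-((i : ℂ) + 1)) * η))
    with hcs
  set ns : List ℂ := nodes ((starRingEnd ℂ) η) K with hns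
  have hL : LK η K = (cs.map fun c => (η, c)) ++ (ns.map fun c => ((starRingEnd ℂ) η, c)) := by
    rw [hcs, List.map_append, List.map_map, List.map_map]
    rfl
  have h1 : ∀ n s, dops (LK η K) (EE T η) n s =
      dops (LK η K) (fun (n : ℕ) s => T (s + n * η)) n s := by
    intro n s
    have h2 : EE T η = fun (n : ℕ) (s : ℂ) => (fun (n : ℕ) (s : ℂ) => T (s + n * η)) n s +
        (fun (n : ℕ) (s : ℂ) => Ts T (s + n * (starRingEnd ℂ) η)) n s := by
      funext n s
      rfl
    have h3 : dops (LK η K) (fun (n : ℕ) (s : ℂ) => Ts T (s + n * (starRingEnd ℂ) η)) =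
        fun _ _ => 0 := by
      have h4 := a9_third η K (i := K) (j := 0) (by omega) (by ring)
      refine dops_kill h4 ?_
      have h5 := dop_mode (Ts T) ((starRingEnd ℂ) η) 0
      have h6 : (fun (n : ℕ) (s : ℂ) => Complex.exp (2 * Real.pi * Complex.I * 0 * s) *
          Ts T (s + n * (starRingEnd ℂ) η)) =
          fun (n : ℕ) (s : ℂ) => Ts T (s + n * (starRingEnd ℂ) η) := by
        funext n s
        simp
      rw [h6] at h5
      exact h5
    rw [h2, dops_add, h3]
    simp
  refine ⟨(cs.map fun c => 1 - c).prod, cs.length * η + ns.length * (starRingEnd ℂ) η, ?_, ?_⟩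
  · refine List.prod_ne_zero ?_
    intro h
    obtain ⟨c, hc, hc0⟩ := List.mem_map.1 h
    rw [hcs] at hc
    rcases List.mem_append.1 hc with hc | hc
    · obtain ⟨x, hx, hi⟩ := List.mem_map.1 hc
      obtain ⟨i, rfl⟩ := a9_mem_conv hx
      refine a9_ne hη (r := (i : ℝ) + 1) (by positivity) ?_
      have h7 : c = 1 := by linear_combination -hc0
      rw [← h7, ← hi]
      push_cast
      rfl
    · obtain ⟨x, hx, hi⟩ := List.mem_map.1 hc
      obtain ⟨i, rfl⟩ := a9_mem_conv hx
      refine a9_ne hη (r := -((i : ℝ) + 1)) (neg_ne_zero.2 (by positivity)) ?_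
      have h7 : c = 1 := by linear_combination -hc0
      rw [← h7, ← hi]
      push_cast
      rfl
  · intro s
    rw [h1, hL, a9_append, dops_other, dops_same, a9_shift]
    simp only [Nat.cast_zero, zero_mul, add_zero]
    rw [add_assoc]

end H12Z
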