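import Pool.Agent.Lib.H12Z.Defs
import Pool.Agent.Lib.H12Z.A5
import Pool.Agent.Lib.H12Z.A8
import Pool.Agent.Lib.H12Z.A9

/-! # H12Z, chunk A10 (M): the two parts -/

namespace H12Z

theorem a10_sub (L : List (ℂ × ℂ)) (g h : ℕ → ℂ → ℂ) (n : ℕ) (s : ℂ) :
    dops L (fun n s => g n s - h n s) n s = dops L g n s - dops L h n s := by
  have h1 : (fun (n : ℕ) (s : ℂ) => g n s - h n s) = fun n s => g n s + (-1) * h n s := by
    funext n s
    ring
  rw [h1, dops_add L g (fun n s => (-1) * h n s)]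
  show dops L g n s + dops L (fun n s => (-1) * h n s) n s = _
  rw [dops_smul L (-1) h]
  ring

theorem a10_two (L : List (ℂ × ℂ)) (J E : ℕ → ℂ → ℂ) (K : ℕ) (m : ℕ → ℂ → ℂ)
    (hk : ∀ i < K, dops L (fun n s => m i s * E n s) = fun _ _ => 0) (s : ℂ) :
    dops L J 0 s = dops L (fun n s => J n s - ∑ j ∈ Finset.range K, m j s * E n s) 0 s := by
  rw [a10_sub L J (fun n s => ∑ j ∈ Finset.range K, m j s * E n s) 0 s,
    dops_sum L (Finset.range K) (fun j n s => m j s * E n s)]
  have h2 : ∑ i ∈ Finset.range K, dops L (fun n s => m i s * E n s) 0 s = 0 := by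
    apply Finset.sum_eq_zero
    intro i hi
    rw [hk i (Finset.mem_range.mp hi)]
  show _ = dops L J 0 s - ∑ i ∈ Finset.range K, dops L (fun n s => m i s * E n s) 0 s
  rw [h2, sub_zero]

theorem a10_exp {K A x y : ℝ} (hK : 0 ≤ K) (h : x - A ≤ y) :
    Real.exp (-(2 * Real.pi * K) * y) ≤
      Real.exp (2 * Real.pi * K * (A + 1)) * Real.exp (-(2 * Real.pi * K) * x) := by
  rw [← Real.exp_add]
  apply Real.exp_le_exp.mpr
  have h1 : 0 ≤ 2 * Real.pi * K := by positivity
  nlinarith [mul_le_mul_of_nonneg_left h h1]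

/-- (A10, M) PROOF. `R₁`, `B`, `J` from `exists_family` for `(LK η K).length` instead of `K`; `A` the maximum of the constants of
`dops_bound (LK η K)` and `dops_differentiableAt (LK η K)`. For `s ∈ Co (ε / 8 ⊓ 1 / 4) R'` all `s + w`, `‖w‖ ≤ A`, are in
`Co (ε / 4 ⊓ 1 / 2) R₁` (`Co_ball`, `Co_mono`). `Φ₁ = dops (LK η K) J 0` and
`Φ₂ = dops (LK η K) (fun n s => exp (2 π i s) * J n s) 0`; both are bounded by `C_L B` and differentiable. If
`s.im ≤ -(A + 1)`: `J n = g n + ∑ i < K, exp (2 π i (-(i + 1)) s) EE n s` with `‖g n (s + w)‖ ≤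
2 B exp (-2 π K (|s.im| - A))` (`lower_expansion`); the modes are killed (`dops_sum`, `kill_mode`), so
`‖Φ₁ s‖ ≤ C_L 2 B exp (2 π K A) exp (-2 π K |s.im|)`. If `s.im > -(A + 1)` the factor `exp (2 π K (A + 1))` in `C` is enough.
The same for `Φ₂` with `upper_expansion`. The identity: `EE n s = exp (2 π i s) J n s - J n s` near `s`, and `dops` is local
(`dops_bound` for the difference with `B = 0`), `dops_add`, `dops_smul`. -/
theorem exists_two {η : ℂ} {ε R : ℝ} (hε : 0 < ε) {T : ℂ → ℂ} (hT : ImagOn η ε R T) (K : ℕ) :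
    ∃ (R' C : ℝ) (Φ₁ Φ₂ : ℂ → ℂ), 0 ≤ C ∧ DifferentiableOn ℂ Φ₁ (Co (ε / 8 ⊓ 1 / 4) R') ∧
      DifferentiableOn ℂ Φ₂ (Co (ε / 8 ⊓ 1 / 4) R') ∧
      (∀ s ∈ Co (ε / 8 ⊓ 1 / 4) R', ‖Φ₁ s‖ ≤ C * Real.exp (-(2 * Real.pi * K) * max 0 (-s.im))) ∧
      (∀ s ∈ Co (ε / 8 ⊓ 1 / 4) R', ‖Φ₂ s‖ ≤ C * Real.exp (-(2 * Real.pi * K) * max 0 s.im)) ∧
      ∀ s ∈ Co (ε / 8 ⊓ 1 / 4) R', dops (LK η K) (EE T η) 0 s = Φ₂ s - Φ₁ s := by
  have hlen : 0 < ε / 4 ⊓ (1 / 2 : ℝ) := by
    apply lt_min
    · linarith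
    · norm_num
  have hlen2 : 0 < ε / 8 ⊓ (1 / 4 : ℝ) := by
    apply lt_min
    · linarith
    · norm_num
  obtain ⟨R₁, B, J, hB0, hJd, hJe, hJb⟩ := exists_family hε hT (LK η K).length
  obtain ⟨C1, A1, hC1, hA1, hbd⟩ := dops_bound (LK η K)
  obtain ⟨A2, hA2, hdf⟩ := dops_differentiableAt (LK η K)
  obtain ⟨R', hR'⟩ := Co_ball hlen R₁ (max A1 A2)
  have hA : 0 ≤ max A1 A2 := le_max_of_le_left hA1
  have hmem : ∀ s ∈ Co (ε / 8 ⊓ 1 / 4) R', ∀ w : ℂ, ‖w‖ ≤ max A1 A2 →
      s + w ∈ Co (ε / 4 ⊓ 1 / 2) R₁ := by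
    intro s hs w hw
    apply hR' s
    · refine Co_mono hlen2 ?_ le_rfl hs
      have h1 : ε / 8 ⊓ (1 / 4 : ℝ) ≤ ε / 8 := min_le_left _ _
      have h2 : ε / 8 ⊓ (1 / 4 : ℝ) ≤ 1 / 4 := min_le_right _ _
      apply le_min
      · linarith
      · rw [le_div_iff₀ (by norm_num : (0 : ℝ) < 2)]
        apply le_min
        · linarith
        · linarith
    · have h3 : 0 ≤ min (1 / 16) ((ε / 4 ⊓ (1 / 2 : ℝ)) / 16) * ‖s‖ := by
        apply mul_nonneg
        · apply le_min
          · norm_num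
          · linarith
        · exact norm_nonneg s
      linarith
  have hm1 : ∀ s ∈ Co (ε / 8 ⊓ 1 / 4) R', ∀ w : ℂ, ‖w‖ ≤ A1 →
      s + w ∈ Co (ε / 4 ⊓ 1 / 2) R₁ := fun s hs w hw =>
    hmem s hs w (hw.trans (le_max_left _ _))
  have hm2 : ∀ s ∈ Co (ε / 8 ⊓ 1 / 4) R', ∀ w : ℂ, ‖w‖ ≤ A2 →
      s + w ∈ Co (ε / 4 ⊓ 1 / 2) R₁ := fun s hs w hw =>
    hmem s hs w (hw.trans (le_max_right _ _))
  have hdJ : ∀ n ≤ (LK η K).length, ∀ z ∈ Co (ε / 4 ⊓ 1 / 2) R₁, DifferentiableAt ℂ (J n) z :=
    fun n hn z hz => (hJd n hn).differentiableAt ((Co_isOpen _ _).mem_nhds hz)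
  have hK0 : (0 : ℝ) ≤ (K : ℝ) := Nat.cast_nonneg K
  have hE1 : Real.exp (-(2 * Real.pi * K) * (max A1 A2 + 1)) *
      Real.exp (2 * Real.pi * K * (max A1 A2 + 1)) = 1 := by
    rw [← Real.exp_add]
    have : -(2 * Real.pi * K) * (max A1 A2 + 1) + 2 * Real.pi * K * (max A1 A2 + 1) = 0 := by ring
    rw [this, Real.exp_zero]
  refine ⟨R', C1 * (2 * B) * Real.exp (2 * Real.pi * K * (max A1 A2 + 1)),
    dops (LK η K) J 0,
    dops (LK η K) (fun n s => Complex.exp (2 * Real.pi * Complex.I * s) * J n s) 0,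
    by positivity, ?_, ?_, ?_, ?_, ?_⟩
  · intro s hs
    apply DifferentiableAt.differentiableWithinAt
    apply hdf
    intro n hn w hw
    exact hdJ n hn _ (hm2 s hs w hw)
  · intro s hs
    apply DifferentiableAt.differentiableWithinAt
    apply hdf
    intro n hn w hw
    apply DifferentiableAt.mul
    · fun_prop
    · exact hdJ n hn _ (hm2 s hs w hw)
  · intro s hs
    by_cases him : s.im ≤ -(max A1 A2 + 1)
    · rw [a10_two (LK η K) J (EE T η) K
        (fun i s => Complex.exp (2 * Real.pi * Complex.I * (-((i : ℂ) + 1)) * s))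
        (fun i hi => (kill_mode T η K hi).2) s]
      have h1 : ∀ n ≤ (LK η K).length, ∀ w : ℂ, ‖w‖ ≤ A1 →
          ‖(fun (n : ℕ) (s : ℂ) => J n s - ∑ j ∈ Finset.range K,
            Complex.exp (2 * Real.pi * Complex.I * (-((j : ℂ) + 1)) * s) * EE T η n s) n (s + w)‖ ≤
          2 * B * (Real.exp (2 * Real.pi * K * (max A1 A2 + 1)) *
            Real.exp (-(2 * Real.pi * K) * max 0 (-s.im))) := by
        intro n hn w hw
        have hz := hm1 s hs w hw
        have hwim : |w.im| ≤ max A1 A2 :=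
          (Complex.abs_im_le_norm w).trans (hw.trans (le_max_left _ _))
        have hw2 := abs_le.mp hwim
        have h3 := lower_expansion (hJe n hn _ hz)
          (by rw [Complex.add_im]; linarith) (hJb n hn _ hz).1 K
        refine h3.trans ?_
        apply mul_le_mul_of_nonneg_left _ (by positivity)
        apply a10_exp hK0
        have h4 : max 0 (-s.im) = -s.im := max_eq_right (by linarith)
        rw [h4]
        have h5 : -(s + w).im ≤ |(s + w).im| := neg_le_abs _
        rw [Complex.add_im] at h5 ⊢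
        linarith
      refine (hbd _ _ s h1).trans (le_of_eq ?_)
      ring
    · have h1 : ∀ n ≤ (LK η K).length, ∀ w : ℂ, ‖w‖ ≤ A1 → ‖J n (s + w)‖ ≤ B :=
        fun n hn w hw => (hJb n hn _ (hm1 s hs w hw)).2.1
      refine (hbd _ _ s h1).trans ?_
      have h2 : Real.exp (-(2 * Real.pi * K) * (max A1 A2 + 1)) ≤
          Real.exp (-(2 * Real.pi * K) * max 0 (-s.im)) := by
        apply Real.exp_le_exp.mpr
        have h3 : max 0 (-s.im) ≤ max A1 A2 + 1 := by
          apply max_le
          · linarith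
          · push Not at him
            linarith
        have h4 : 0 ≤ 2 * Real.pi * (K : ℝ) := by positivity
        nlinarith [mul_le_mul_of_nonneg_left h3 h4]
      calc C1 * B ≤ C1 * (2 * B) := by
            apply mul_le_mul_of_nonneg_left _ hC1
            linarith
        _ = C1 * (2 * B) * Real.exp (2 * Real.pi * K * (max A1 A2 + 1)) *
            Real.exp (-(2 * Real.pi * K) * (max A1 A2 + 1)) := by
            rw [mul_assoc (C1 * (2 * B)), mul_comm (Real.exp (2 * Real.pi * K * (max A1 A2 + 1))),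
              hE1, mul_one]
        _ ≤ _ := by
            apply mul_le_mul_of_nonneg_left h2
            positivity
  · intro s hs
    by_cases him : max A1 A2 + 1 ≤ s.im
    · rw [a10_two (LK η K) (fun n s => Complex.exp (2 * Real.pi * Complex.I * s) * J n s)
        (fun n s => -EE T η n s) K
        (fun i s => Complex.exp (2 * Real.pi * Complex.I * ((i : ℂ) + 1) * s))
        (fun i hi => by
          have h0 := (kill_mode T η K hi).1
          have h1 : (fun (n : ℕ) (s : ℂ) => Complex.exp (2 * Real.pi * Complex.I * ((i : ℂ) + 1) * s) *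
              -EE T η n s) = fun n s => (-1) *
              (Complex.exp (2 * Real.pi * Complex.I * ((i : ℂ) + 1) * s) * EE T η n s) := by
            funext n s
            ring
          rw [h1, dops_smul (LK η K) (-1) (fun (n : ℕ) (s : ℂ) =>
            Complex.exp (2 * Real.pi * Complex.I * ((i : ℂ) + 1) * s) * EE T η n s), h0]
          funext n s
          ring) s]
      have h1 : ∀ n ≤ (LK η K).length, ∀ w : ℂ, ‖w‖ ≤ A1 →
          ‖(fun (n : ℕ) (s : ℂ) => Complex.exp (2 * Real.pi * Complex.I * s) * J n s -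
            ∑ j ∈ Finset.range K,
            Complex.exp (2 * Real.pi * Complex.I * ((j : ℂ) + 1) * s) * -EE T η n s) n (s + w)‖ ≤
          2 * B * (Real.exp (2 * Real.pi * K * (max A1 A2 + 1)) *
            Real.exp (-(2 * Real.pi * K) * max 0 s.im)) := by
        intro n hn w hw
        have hz := hm1 s hs w hw
        have hwim : |w.im| ≤ max A1 A2 :=
          (Complex.abs_im_le_norm w).trans (hw.trans (le_max_left _ _))
        have hw2 := abs_le.mp hwim
        have h3 := upper_expansion (hJe n hn _ hz)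
          (by rw [Complex.add_im]; linarith) (hJb n hn _ hz).1 K
        have h6 : (fun (n : ℕ) (s : ℂ) => Complex.exp (2 * Real.pi * Complex.I * s) * J n s -
            ∑ j ∈ Finset.range K,
            Complex.exp (2 * Real.pi * Complex.I * ((j : ℂ) + 1) * s) * -EE T η n s) n (s + w) =
            Complex.exp (2 * Real.pi * Complex.I * (s + w)) * J n (s + w) +
            ∑ j ∈ Finset.range K,
            Complex.exp (2 * Real.pi * Complex.I * ((j : ℂ) + 1) * (s + w)) * EE T η n (s + w) := by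
          show Complex.exp (2 * Real.pi * Complex.I * (s + w)) * J n (s + w) -
            ∑ j ∈ Finset.range K,
            Complex.exp (2 * Real.pi * Complex.I * ((j : ℂ) + 1) * (s + w)) * -EE T η n (s + w) = _
          simp only [mul_neg, Finset.sum_neg_distrib, sub_neg_eq_add]
        rw [h6]
        refine h3.trans ?_
        apply mul_le_mul_of_nonneg_left _ (by positivity)
        apply a10_exp hK0
        have h4 : max 0 s.im = s.im := max_eq_right (by linarith)
        rw [h4]
        have h5 : (s + w).im ≤ |(s + w).im| := le_abs_self _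
        rw [Complex.add_im] at h5 ⊢
        linarith
      refine (hbd _ _ s h1).trans (le_of_eq ?_)
      ring
    · have h1 : ∀ n ≤ (LK η K).length, ∀ w : ℂ, ‖w‖ ≤ A1 →
          ‖(fun (n : ℕ) (s : ℂ) => Complex.exp (2 * Real.pi * Complex.I * s) * J n s) n (s + w)‖ ≤ B :=
        fun n hn w hw => (hJb n hn _ (hm1 s hs w hw)).2.2.1
      refine (hbd _ _ s h1).trans ?_
      have h2 : Real.exp (-(2 * Real.pi * K) * (max A1 A2 + 1)) ≤
          Real.exp (-(2 * Real.pi * K) * max 0 s.im) := by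
        apply Real.exp_le_exp.mpr
        have h3 : max 0 s.im ≤ max A1 A2 + 1 := by
          apply max_le
          · linarith
          · push Not at him
            linarith
        have h4 : 0 ≤ 2 * Real.pi * (K : ℝ) := by positivity
        nlinarith [mul_le_mul_of_nonneg_left h3 h4]
      calc C1 * B ≤ C1 * (2 * B) := by
            apply mul_le_mul_of_nonneg_left _ hC1
            linarith
        _ = C1 * (2 * B) * Real.exp (2 * Real.pi * K * (max A1 A2 + 1)) *
            Real.exp (-(2 * Real.pi * K) * (max A1 A2 + 1)) := by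
            rw [mul_assoc (C1 * (2 * B)), mul_comm (Real.exp (2 * Real.pi * K * (max A1 A2 + 1))),
              hE1, mul_one]
        _ ≤ _ := by
            apply mul_le_mul_of_nonneg_left h2
            positivity
  · intro s hs
    rw [← a10_sub]
    have h1 : ∀ n ≤ (LK η K).length, ∀ w : ℂ, ‖w‖ ≤ A1 →
        ‖(fun (n : ℕ) (s : ℂ) => EE T η n s -
          (Complex.exp (2 * Real.pi * Complex.I * s) * J n s - J n s)) n (s + w)‖ ≤ 0 := by
      intro n hn w hw
      have hz := hJe n hn _ (hm1 s hs w hw)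
      have h2 : (fun (n : ℕ) (s : ℂ) => EE T η n s -
          (Complex.exp (2 * Real.pi * Complex.I * s) * J n s - J n s)) n (s + w) = 0 := by
        show EE T η n (s + w) -
          (Complex.exp (2 * Real.pi * Complex.I * (s + w)) * J n (s + w) - J n (s + w)) = 0
        rw [hz]
        ring
      rw [h2, norm_zero]
    have h3 := hbd (fun (n : ℕ) (s : ℂ) => EE T η n s -
      (Complex.exp (2 * Real.pi * Complex.I * s) * J n s - J n s)) 0 s h1
    rw [mul_zero] at h3
    have h4 := norm_le_zero_iff.mp h3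
    rw [a10_sub (LK η K) (EE T η)
      (fun n s => Complex.exp (2 * Real.pi * Complex.I * s) * J n s - J n s)] at h4
    exact sub_eq_zero.mp h4

end H12Z
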