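import Pool.Agent.Lib.H12Z.Defs

/-! # H12Z, chunk A6 (M): the lemma on four rotated points -/

namespace H12Z

theorem a6_mem {s₀ w u : ℂ} {r : ℝ} (hu : ‖u‖ = 1) (hw : w ∈ Metric.closedBall (0 : ℂ) r) :
    s₀ + u * w ∈ Metric.closedBall s₀ r := by
  rw [Metric.mem_closedBall, dist_zero_right] at hw
  rw [Metric.mem_closedBall, dist_eq_norm]
  simpa [hu] using hw

theorem a6_max {x y σ t : ℝ} (hσ : σ = 1 ∨ σ = -1) :
    |x| + |y| - 4 * |t| ≤ max 0 (σ * (t + y)) + max 0 (σ * (t + x)) + max 0 (σ * (t - y)) + max 0 (σ * (t - x)) := by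
  have ht1 := neg_abs_le t
  have ht2 := le_abs_self t
  rcases hσ with rfl | rfl
  · rcases abs_cases x with ⟨hx, hx'⟩ | ⟨hx, hx'⟩ <;> rcases abs_cases y with ⟨hy, hy'⟩ | ⟨hy, hy'⟩ <;>
    rw [hx, hy] <;>
    nlinarith [le_max_left 0 (1 * (t + y)), le_max_right 0 (1 * (t + y)), le_max_left 0 (1 * (t + x)),
      le_max_right 0 (1 * (t + x)), le_max_left 0 (1 * (t - y)), le_max_right 0 (1 * (t - y)),
      le_max_left 0 (1 * (t - x)), le_max_right 0 (1 * (t - x)), abs_nonneg t]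
  · rcases abs_cases x with ⟨hx, hx'⟩ | ⟨hx, hx'⟩ <;> rcases abs_cases y with ⟨hy, hy'⟩ | ⟨hy, hy'⟩ <;>
    rw [hx, hy] <;>
    nlinarith [le_max_left 0 (-1 * (t + y)), le_max_right 0 (-1 * (t + y)), le_max_left 0 (-1 * (t + x)),
      le_max_right 0 (-1 * (t + x)), le_max_left 0 (-1 * (t - y)), le_max_right 0 (-1 * (t - y)),
      le_max_left 0 (-1 * (t - x)), le_max_right 0 (-1 * (t - x)), abs_nonneg t]

/-- (A6a, S/M) PROOF. `P w = F (s₀ + w) F (s₀ + i w) F (s₀ - w) F (s₀ - i w)`, maximum principle on `closedBall 0 r`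
(`Complex.norm_le_of_forall_mem_frontier_norm_le`). For `‖w‖ = r` the product of the four bounds is
`C ^ 4 exp (-A Σ)`, `Σ` the sum of the four numbers `max 0 (σ im (s₀ + i ^ k w)) ≥ σ im (i ^ k w) ⊔ 0 - |s₀.im|`, so
`Σ ≥ |w.re| + |w.im| - 4 |s₀.im| ≥ r - r / 2`. So `‖F s₀‖ ^ 4 ≤ C ^ 4 exp (-A r / 2)`. -/
theorem four_points {F : ℂ → ℂ} {s₀ : ℂ} {r C A σ : ℝ} (hr : 0 < r) (hC : 0 ≤ C) (hA : 0 ≤ A)
    (hσ : σ = 1 ∨ σ = -1) (h0 : |s₀.im| ≤ r / 8) {U : Set ℂ} (hU : IsOpen U)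
    (hs : Metric.closedBall s₀ r ⊆ U) (hF : DifferentiableOn ℂ F U)
    (hb : ∀ s ∈ Metric.closedBall s₀ r, ‖F s‖ ≤ C * Real.exp (-A * max 0 (σ * s.im))) :
    ‖F s₀‖ ≤ C * Real.exp (-(A * r / 8)) := by
  have hI : ‖Complex.I‖ = 1 := Complex.norm_I
  have hdiff : ∀ u : ℂ, ‖u‖ = 1 → DiffContOnCl ℂ (fun w => F (s₀ + u * w)) (Metric.ball 0 r) := by
    intro u hu
    have h1 : ∀ w ∈ Metric.closedBall (0 : ℂ) r, DifferentiableAt ℂ (fun w => F (s₀ + u * w)) w := by
      intro w hw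
      have h2 : DifferentiableAt ℂ F (s₀ + u * w) := (hF _ (hs (a6_mem hu hw))).differentiableAt
        (hU.mem_nhds (hs (a6_mem hu hw)))
      exact h2.comp w (by fun_prop)
    refine ⟨fun w hw => (h1 w (Metric.ball_subset_closedBall hw)).differentiableWithinAt, ?_⟩
    intro w hw
    exact (h1 w (Metric.closure_ball_subset_closedBall hw)).continuousAt.continuousWithinAt
  have hP : DiffContOnCl ℂ (fun w => F (s₀ + 1 * w) * F (s₀ + Complex.I * w) * F (s₀ + (-1) * w) *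
      F (s₀ + (-Complex.I) * w)) (Metric.ball 0 r) := by
    have d1 := hdiff 1 (by simp)
    have d2 := hdiff Complex.I hI
    have d3 := hdiff (-1) (by simp)
    have d4 := hdiff (-Complex.I) (by simp)
    exact ⟨((d1.differentiableOn.mul d2.differentiableOn).mul d3.differentiableOn).mul d4.differentiableOn,
      ((d1.continuousOn.mul d2.continuousOn).mul d3.continuousOn).mul d4.continuousOn⟩
  have hmax := Complex.norm_le_of_forall_mem_frontier_norm_le (C := C ^ 4 * Real.exp (-(A * r / 2)))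
    Metric.isBounded_ball hP ?_ (z := 0) (subset_closure (Metric.mem_ball_self hr))
  · simp only [mul_zero, add_zero, norm_mul] at hmax
    have h4 : ‖F s₀‖ ^ 4 ≤ (C * Real.exp (-(A * r / 8))) ^ 4 := by
      rw [mul_pow, ← Real.exp_nat_mul]
      refine le_trans (le_of_eq (by ring)) (hmax.trans (le_of_eq ?_))
      congr 2
      push_cast
      ring
    exact le_of_pow_le_pow_left₀ (by norm_num) (by positivity) h4
  · intro w hw
    rw [frontier_ball _ hr.ne', mem_sphere_zero_iff_norm] at hw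
    have hw' : w ∈ Metric.closedBall (0 : ℂ) r := by
      rw [Metric.mem_closedBall, dist_zero_right]
      exact hw.le
    have b1 := hb _ (a6_mem (s₀ := s₀) (u := 1) (by simp) hw')
    have b2 := hb _ (a6_mem (s₀ := s₀) (u := Complex.I) hI hw')
    have b3 := hb _ (a6_mem (s₀ := s₀) (u := -1) (by simp) hw')
    have b4 := hb _ (a6_mem (s₀ := s₀) (u := -Complex.I) (by simp) hw')
    have him1 : (s₀ + 1 * w).im = s₀.im + w.im := by simp
    have him2 : (s₀ + Complex.I * w).im = s₀.im + w.re := by simp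
    have him3 : (s₀ + (-1) * w).im = s₀.im - w.im := by simp [sub_eq_add_neg]
    have him4 : (s₀ + (-Complex.I) * w).im = s₀.im - w.re := by simp [sub_eq_add_neg]
    rw [him1] at b1
    rw [him2] at b2
    rw [him3] at b3
    rw [him4] at b4
    simp only [norm_mul]
    have hprod : ‖F (s₀ + 1 * w)‖ * ‖F (s₀ + Complex.I * w)‖ * ‖F (s₀ + (-1) * w)‖ * ‖F (s₀ + (-Complex.I) * w)‖ ≤
        (C * Real.exp (-A * max 0 (σ * (s₀.im + w.im)))) * (C * Real.exp (-A * max 0 (σ * (s₀.im + w.re)))) *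
        (C * Real.exp (-A * max 0 (σ * (s₀.im - w.im)))) * (C * Real.exp (-A * max 0 (σ * (s₀.im - w.re)))) := by
      gcongr
    refine hprod.trans ?_
    have hrew : (C * Real.exp (-A * max 0 (σ * (s₀.im + w.im)))) * (C * Real.exp (-A * max 0 (σ * (s₀.im + w.re)))) *
        (C * Real.exp (-A * max 0 (σ * (s₀.im - w.im)))) * (C * Real.exp (-A * max 0 (σ * (s₀.im - w.re)))) =
        C ^ 4 * Real.exp (-A * (max 0 (σ * (s₀.im + w.im)) + max 0 (σ * (s₀.im + w.re)) +
          max 0 (σ * (s₀.im - w.im)) + max 0 (σ * (s₀.im - w.re)))) := by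
      have : -A * (max 0 (σ * (s₀.im + w.im)) + max 0 (σ * (s₀.im + w.re)) +
          max 0 (σ * (s₀.im - w.im)) + max 0 (σ * (s₀.im - w.re))) = -A * max 0 (σ * (s₀.im + w.im)) +
          -A * max 0 (σ * (s₀.im + w.re)) + -A * max 0 (σ * (s₀.im - w.im)) + -A * max 0 (σ * (s₀.im - w.re)) := by ring
      rw [this, Real.exp_add, Real.exp_add, Real.exp_add]
      ring
    rw [hrew]
    refine mul_le_mul_of_nonneg_left (Real.exp_le_exp.2 ?_) (by positivity)
    have hm := a6_max (x := w.re) (y := w.im) (t := s₀.im) hσ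
    have hn : r ≤ |w.re| + |w.im| := by
      rw [← hw]
      exact Complex.norm_le_abs_re_add_abs_im w
    nlinarith
end H12Z
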