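import Pool.Agent.Lib.H12Z.Defs
import Pool.Agent.Lib.H12Z.T1B

/-! # H12Z, chunk T2 (S/M): calculus of `Tiny` -/

namespace H12Z

/-- two tiny functions on a common cone -/
theorem t2_common {N M : ℝ} {g h : ℂ → ℂ} (hg : Tiny N g) (hh : Tiny M h) :
    ∃ ε > 0, ∃ R C D : ℝ, 0 ≤ C ∧ 0 ≤ D ∧ (∀ s ∈ Co ε R, ‖g s‖ ≤ C * Real.exp (-N * ‖s‖)) ∧
      ∀ s ∈ Co ε R, ‖h s‖ ≤ D * Real.exp (-M * ‖s‖) := by
  obtain ⟨e1, he1, R1, C1, h1⟩ := hg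
  obtain ⟨e2, he2, R2, C2, h2⟩ := hh
  have he : 0 < min e1 e2 := lt_min he1 he2
  refine ⟨min e1 e2, he, max R1 R2, |C1|, |C2|, abs_nonneg _, abs_nonneg _, ?_, ?_⟩
  · intro s hs
    have hs1 : s ∈ Co e1 R1 := Co_mono he (min_le_left _ _) (le_max_left _ _) hs
    exact (h1 s hs1).trans (mul_le_mul_of_nonneg_right (le_abs_self _) (Real.exp_pos _).le)
  · intro s hs
    have hs2 : s ∈ Co e2 R2 := Co_mono he (min_le_right _ _) (le_max_right _ _) hs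
    exact (h2 s hs2).trans (mul_le_mul_of_nonneg_right (le_abs_self _) (Real.exp_pos _).le)

/-- (T2a, S) PROOF. Intersection of the two cones: minimum of the `ε`, maximum of the `R` (`Co_mono`). The constants can be
replaced by their absolute values. -/
theorem Tiny.add {N : ℝ} {g h : ℂ → ℂ} (hg : Tiny N g) (hh : Tiny N h) :
    Tiny N (fun s => g s + h s) := by
  obtain ⟨ε, hε, R, C, D, _, _, h1, h2⟩ := t2_common hg hh
  refine ⟨ε, hε, R, C + D, fun s hs => ?_⟩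
  calc ‖g s + h s‖ ≤ ‖g s‖ + ‖h s‖ := norm_add_le _ _
    _ ≤ C * Real.exp (-N * ‖s‖) + D * Real.exp (-N * ‖s‖) := add_le_add (h1 s hs) (h2 s hs)
    _ = (C + D) * Real.exp (-N * ‖s‖) := by ring

/-- (T2b, S) PROOF. Multiply the bounds. -/
theorem Tiny.mul {N M : ℝ} {g h : ℂ → ℂ} (hg : Tiny N g) (hh : Tiny M h) :
    Tiny (N + M) (fun s => g s * h s) := by
  obtain ⟨ε, hε, R, C, D, hC, hD, h1, h2⟩ := t2_common hg hh
  refine ⟨ε, hε, R, C * D, fun s hs => ?_⟩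
  calc ‖g s * h s‖ = ‖g s‖ * ‖h s‖ := norm_mul _ _
    _ ≤ (C * Real.exp (-N * ‖s‖)) * (D * Real.exp (-M * ‖s‖)) :=
        mul_le_mul (h1 s hs) (h2 s hs) (norm_nonneg _) (mul_nonneg hC (Real.exp_pos _).le)
    _ = C * D * (Real.exp (-N * ‖s‖) * Real.exp (-M * ‖s‖)) := by ring
    _ = C * D * Real.exp (-(N + M) * ‖s‖) := by
        rw [← Real.exp_add]
        ring_nf

/-- (T2c, S) -/
theorem Tiny.const_mul {N : ℝ} {g : ℂ → ℂ} (hg : Tiny N g) (c : ℂ) : Tiny N (fun s => c * g s) := by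
  obtain ⟨ε, hε, R, C, h1⟩ := hg
  refine ⟨ε, hε, R, ‖c‖ * C, fun s hs => ?_⟩
  rw [norm_mul, mul_assoc]
  exact mul_le_mul_of_nonneg_left (h1 s hs) (norm_nonneg _)

/-- (T2d, S) PROOF. `-N ‖s‖ ≤ -N' ‖s‖`. -/
theorem Tiny.mono {N N' : ℝ} (h : N' ≤ N) {g : ℂ → ℂ} (hg : Tiny N g) : Tiny N' g := by
  obtain ⟨ε, hε, R, C, h1⟩ := hg
  refine ⟨ε, hε, R, |C|, fun s hs => ?_⟩
  have hle : Real.exp (-N * ‖s‖) ≤ Real.exp (-N' * ‖s‖) := by
    apply Real.exp_le_exp.2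
    nlinarith [norm_nonneg s]
  calc ‖g s‖ ≤ C * Real.exp (-N * ‖s‖) := h1 s hs
    _ ≤ |C| * Real.exp (-N * ‖s‖) := mul_le_mul_of_nonneg_right (le_abs_self _) (Real.exp_pos _).le
    _ ≤ |C| * Real.exp (-N' * ‖s‖) := mul_le_mul_of_nonneg_left hle (abs_nonneg _)

/-- (T2e, S) -/
theorem Tiny.zero (N : ℝ) : Tiny N (fun _ => 0) := by
  refine ⟨1, one_pos, 0, 0, fun s _ => ?_⟩
  simp

/-- (T2f, S) PROOF. Bounded. -/
theorem Tiny.const (c : ℂ) : Tiny 0 (fun _ => c) := by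
  refine ⟨1, one_pos, 0, ‖c‖, fun s _ => ?_⟩
  simp

end H12Z
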