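import Pool.Agent.Lib.H12Z.Defs
import Pool.Agent.Lib.H12Z.T2

/-! # H12Z, chunk T2B (S/M): calculus of `Tiny` -/

namespace H12Z

/-- (T2g, S) PROOF. Induction on the finset. -/
theorem Tiny.sum {ι : Type} {N : ℝ} (S : Finset ι) {g : ι → ℂ → ℂ} (hg : ∀ i ∈ S, Tiny N (g i)) :
    Tiny N (fun s => ∑ i ∈ S, g i s) := by
  classical
  revert hg
  refine Finset.induction_on S ?_ ?_
  · intro _
    simpa using Tiny.zero N
  · intro a S ha ih hg
    have h1 : Tiny N (g a) := hg a (Finset.mem_insert_self a S)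
    have h2 : Tiny N (fun s => ∑ i ∈ S, g i s) := ih fun i hi => hg i (Finset.mem_insert_of_mem hi)
    have h3 := Tiny.add h1 h2
    have e : (fun s => ∑ i ∈ insert a S, g i s) = fun s => g a s + ∑ i ∈ S, g i s := by
      funext s
      rw [Finset.sum_insert ha]
    rw [e]
    exact h3

/-- (T2h, S/M) PROOF. `Co_ball` with `A = ‖a‖`; `‖s + a‖ ≥ ‖s‖ - ‖a‖`. -/
theorem Tiny.shift {N : ℝ} (hN : 0 ≤ N) {g : ℂ → ℂ} (hg : Tiny N g) (a : ℂ) :
    Tiny N (fun s => g (s + a)) := by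
  obtain ⟨ε, hε, R, C, hC⟩ := hg
  obtain ⟨R', hR'⟩ := Co_ball hε R ‖a‖
  refine ⟨min 1 (ε / 2), lt_min one_pos (by linarith), R', |C| * Real.exp (N * ‖a‖), ?_⟩
  intro s hs
  have hk : (0 : ℝ) ≤ min (1 / 16) (ε / 16) * ‖s‖ :=
    mul_nonneg (le_min (by norm_num) (by linarith)) (norm_nonneg _)
  have h1 : s + a ∈ Co ε R := hR' s hs a (by linarith)
  have h2 := hC _ h1
  have h3 : ‖s‖ - ‖a‖ ≤ ‖s + a‖ := by
    have := norm_sub_le (s + a) a
    rw [add_sub_cancel_right] at this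
    linarith
  have h4 : -N * ‖s + a‖ ≤ N * ‖a‖ + -N * ‖s‖ := by
    have := mul_le_mul_of_nonneg_left h3 hN
    linarith
  calc ‖g (s + a)‖ ≤ C * Real.exp (-N * ‖s + a‖) := h2
    _ ≤ |C| * Real.exp (-N * ‖s + a‖) :=
        mul_le_mul_of_nonneg_right (le_abs_self C) (Real.exp_pos _).le
    _ ≤ |C| * Real.exp (N * ‖a‖ + -N * ‖s‖) :=
        mul_le_mul_of_nonneg_left (Real.exp_le_exp.2 h4) (abs_nonneg _)
    _ = |C| * Real.exp (N * ‖a‖) * Real.exp (-N * ‖s‖) := by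
        rw [Real.exp_add, mul_assoc]

/-- (T2i, S) PROOF. Two truncated cones intersect in a truncated cone. -/
theorem Tiny.congr {N : ℝ} {g h : ℂ → ℂ} (hg : Tiny N g) {ε R : ℝ} (hε : 0 < ε)
    (h1 : ∀ s ∈ Co ε R, h s = g s) : Tiny N h := by
  obtain ⟨ε₁, hε₁, R₁, C, hC⟩ := hg
  refine ⟨min ε ε₁, lt_min hε hε₁, max R R₁, C, ?_⟩
  intro s hs
  have m1 : s ∈ Co ε R := Co_mono (lt_min hε hε₁) (min_le_left _ _) (le_max_left _ _) hs
  have m2 : s ∈ Co ε₁ R₁ := Co_mono (lt_min hε hε₁) (min_le_right _ _) (le_max_right _ _) hs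
  rw [h1 s m1]
  exact hC s m2

/-- (T2j, S) PROOF. `Tiny.shift`, `Tiny.const_mul`, `Tiny.add`. -/
theorem Tiny.sh {N : ℝ} (hN : 0 ≤ N) {g : ℂ → ℂ} (hg : Tiny N g) (Q w : ℂ) : Tiny N (sh Q w g) := by
  have h1 := Tiny.add (Tiny.shift hN hg Q) (Tiny.const_mul hg (-w))
  have e : H12Z.sh Q w g = fun s => g (s + Q) + -w * g s := by
    funext s
    unfold H12Z.sh
    ring
  rw [e]
  exact h1

/-- (T2k, S) PROOF. `Tiny.mul` with a bounded function: `N + 0`. -/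
theorem Tiny.mul_bdd {N : ℝ} {g h : ℂ → ℂ} (hg : Tiny N g) (hh : Tiny 0 h) :
    Tiny N (fun s => g s * h s) := by
  have h1 := Tiny.mul hg hh
  rw [add_zero] at h1
  exact h1

end H12Z
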