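import Pool.Agent.Lib.H12Z.Defs
import Pool.Agent.Lib.H12Z.T2B
import Pool.Agent.Lib.H12Z.A6
import Pool.Agent.Lib.H12Z.A10

/-! # H12Z, chunk A11 (M): `T` is almost annihilated -/

namespace H12Z

/-- (A11, M) PROOF. `ε₃ = ε / 8 ⊓ 1 / 4`, `r₀ = min (1 / 16) (ε₃ / 16)`, `κ = π r₀ / 4`. For `s₀` in the cone
`Co (min (min 1 (ε₃ / 2)) (r₀ / 8)) R''` (so `|s₀.im| ≤ r₀ ‖s₀‖ / 8`) the ball of radius `r = r₀ ‖s₀‖` is in `Co ε₃ R'`
(`Co_ball` with `A = 0`); `four_points` for `Φ₁` (`σ = -1`) and `Φ₂` (`σ = 1`) with `A = 2 π K`: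
`‖Φ s₀‖ ≤ C exp (-(2 π K r₀ ‖s₀‖ / 8))`. `dops_EE` and `Tiny.shift` by `-a`. -/
theorem ann_T {η : ℂ} (hη : η.im ≠ 0) {ε R : ℝ} (hε : 0 < ε) {T : ℂ → ℂ} (hT : ImagOn η ε R T) :
    ∃ κ > 0, ∀ K : ℕ, Tiny (κ * K)
      (ops (η - (starRingEnd ℂ) η) (nodes ((starRingEnd ℂ) η) K) T) := by
  obtain ⟨e3, he3⟩ : ∃ e3 : ℝ, e3 = ε / 8 ⊓ 1 / 4 := ⟨_, rfl⟩
  have h3 : 0 < e3 := by
    rw [he3]
    exact lt_min (by linarith) (by norm_num)
  obtain ⟨r0, hr0⟩ : ∃ r0 : ℝ, r0 = min (1 / 16) (e3 / 16) := ⟨_, rfl⟩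
  have h0 : 0 < r0 := by
    rw [hr0]
    exact lt_min (by norm_num) (by linarith)
  refine ⟨Real.pi * r0 / 4, by positivity, fun K => ?_⟩
  obtain ⟨R', C, P1, P2, hC, hd1, hd2, hb1, hb2, hid⟩ := exists_two hε hT K
  rw [← he3] at hd1 hd2 hb1 hb2 hid
  obtain ⟨R2, hR2⟩ := Co_ball h3 R' 0
  rw [← hr0] at hR2
  have hpos : 0 < min (min 1 (e3 / 2)) (r0 / 8) :=
    lt_min (lt_min one_pos (by linarith)) (by linarith)
  have hK : (0 : ℝ) ≤ 2 * Real.pi * K := by positivity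
  have key : ∀ (P : ℂ → ℂ) (σ : ℝ), (σ = 1 ∨ σ = -1) → DifferentiableOn ℂ P (Co e3 R') →
      (∀ s ∈ Co e3 R', ‖P s‖ ≤ C * Real.exp (-(2 * Real.pi * K) * max 0 (σ * s.im))) →
      Tiny (Real.pi * r0 / 4 * K) P := by
    intro P σ hσ hd hb
    refine ⟨min (min 1 (e3 / 2)) (r0 / 8), hpos, R2, C, fun s hs => ?_⟩
    have hre : 0 < s.re := Co_re_pos hpos hs
    have hn : s.re ≤ ‖s‖ := (le_abs_self _).trans (Complex.abs_re_le_norm s)
    have hs0 : 0 < ‖s‖ := lt_of_lt_of_le hre hn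
    have hr : 0 < r0 * ‖s‖ := mul_pos h0 hs0
    have him : |s.im| ≤ r0 * ‖s‖ / 8 := by
      have h1 : |s.im| < min (min 1 (e3 / 2)) (r0 / 8) * s.re := (mem_Co.1 hs).1
      have h2 : min (min 1 (e3 / 2)) (r0 / 8) * s.re ≤ r0 / 8 * ‖s‖ :=
        mul_le_mul (min_le_right _ _) hn hre.le (by linarith)
      linarith
    have hball : Metric.closedBall s (r0 * ‖s‖) ⊆ Co e3 R' := by
      intro z hz
      have h1 : s ∈ Co (min 1 (e3 / 2)) R2 := Co_mono hpos (min_le_left _ _) le_rfl hs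
      have h2 := hR2 s h1 (z - s) (by
        rw [Metric.mem_closedBall, dist_eq_norm] at hz
        linarith)
      rwa [add_sub_cancel] at h2
    have h4 := four_points hr hC hK hσ him (Co_isOpen e3 R') hball hd
      (fun z hz => hb z (hball hz))
    refine h4.trans (le_of_eq ?_)
    congr 2
    ring
  have t1 : Tiny (Real.pi * r0 / 4 * K) P1 := by
    refine key P1 (-1) (Or.inr rfl) hd1 fun s hs => ?_
    have := hb1 s hs
    rwa [neg_one_mul]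
  have t2 : Tiny (Real.pi * r0 / 4 * K) P2 := by
    refine key P2 1 (Or.inl rfl) hd2 fun s hs => ?_
    have := hb2 s hs
    rwa [one_mul]
  obtain ⟨c, a, hc, hca⟩ := dops_EE T hη K
  have t3 := (Tiny.add t2 (Tiny.const_mul t1 (-1))).const_mul c⁻¹
  have t4 : Tiny (Real.pi * r0 / 4 * K)
      (fun s => ops (η - (starRingEnd ℂ) η) (nodes ((starRingEnd ℂ) η) K) T (s + a)) := by
    refine Tiny.congr t3 h3 (R := R') fun s hs => ?_
    have h5 := hca s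
    rw [hid s hs] at h5
    have h6 : P2 s + -1 * P1 s =
        c * ops (η - (starRingEnd ℂ) η) (nodes ((starRingEnd ℂ) η) K) T (s + a) := by
      rw [← h5]
      ring
    show ops (η - (starRingEnd ℂ) η) (nodes ((starRingEnd ℂ) η) K) T (s + a) =
      c⁻¹ * (P2 s + -1 * P1 s)
    rw [h6, inv_mul_cancel_left₀ hc]
  have t5 := Tiny.shift (by positivity) t4 (-a)
  simp only [neg_add_cancel_right] at t5
  exact t5

end H12Z
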