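import Pool.Agent.Lib.H12Z.Defs
import Pool.Agent.Lib.H12Z.T2B

/-! # H12Z, chunk D1 (S/M): sums in the class `Dec` -/

namespace H12Z

/-- (D1a, S) PROOF. The empty index type. -/
theorem Dec.of_tiny {Q : ℂ} {N : ℝ} {g : ℂ → ℂ} (hg : Tiny N g) : Dec Q N g := by
  refine ⟨Empty, inferInstance, fun i => i.elim, fun i => i.elim, fun i => i.elim, fun i => i.elim, fun i => i.elim, ?_⟩
  simpa using hg

/-- (D1b, S/M) PROOF. Index type `ι ⊕ ι'`, `Sum.elim`, `Fintype.sum_sum_type`. -/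
theorem Dec.add {Q : ℂ} {N : ℝ} {g h : ℂ → ℂ} (hg : Dec Q N g) (hh : Dec Q N h) :
    Dec Q N (fun s => g s + h s) := by
  obtain ⟨ι, hι, w, G, h1, h2, h3, h4⟩ := hg
  obtain ⟨κ, hκ, w', G', k1, k2, k3, k4⟩ := hh
  refine ⟨ι ⊕ κ, inferInstance, Sum.elim w w', Sum.elim G G', ?_, ?_, ?_, ?_⟩
  · rintro (i | i)
    · exact h1 i
    · exact k1 i
  · rintro (i | i)
    · exact h2 i
    · exact k2 i
  · rintro (i | i)
    · exact h3 i
    · exact k3 i
  · have h5 := Tiny.add h4 k4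
    have h6 : (fun s => g s + h s - ∑ i, Sum.elim G G' i s) =
        (fun s => (g s - ∑ i, G i s) + (h s - ∑ i, G' i s)) := by
      funext s
      rw [Fintype.sum_sum_type]
      simp only [Sum.elim_inl, Sum.elim_inr]
      ring
    rw [h6]
    exact h5

/-- (D1c, S) PROOF. Induction on the finset. -/
theorem Dec.sum {Q : ℂ} {N : ℝ} {ι : Type} (S : Finset ι) {g : ι → ℂ → ℂ}
    (hg : ∀ i ∈ S, Dec Q N (g i)) : Dec Q N (fun s => ∑ i ∈ S, g i s) := by
  classical
  induction S using Finset.induction_on with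
  | empty =>
    apply Dec.of_tiny
    simp only [Finset.sum_empty]
    exact ⟨1, one_pos, 0, 0, fun s _ => by simp⟩
  | insert a S ha ih =>
    have h1 := Dec.add (hg a (Finset.mem_insert_self a S)) (ih fun i hi => hg i (Finset.mem_insert_of_mem hi))
    have h2 : (fun s => ∑ i ∈ insert a S, g i s) = (fun s => g a s + ∑ i ∈ S, g i s) := by
      funext s
      rw [Finset.sum_insert ha]
    rw [h2]
    exact h1

/-- (D1d, S) PROOF. Change the last clause by a tiny function (`Tiny.congr` or `Tiny.add`). -/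
theorem Dec.congr {Q : ℂ} {N : ℝ} {g h : ℂ → ℂ} (hg : Dec Q N g) (h1 : Tiny N (fun s => h s - g s)) :
    Dec Q N h := by
  obtain ⟨ι, hι, w, G, k1, k2, k3, k4⟩ := hg
  refine ⟨ι, hι, w, G, k1, k2, k3, ?_⟩
  have h5 := Tiny.add k4 h1
  have h6 : (fun s => h s - ∑ i, G i s) = (fun s => (g s - ∑ i, G i s) + (h s - g s)) := by
    funext s
    ring
  rw [h6]
  exact h5

/-- (D1e, S) PROOF. All pieces are bounded and the rest is `Tiny N`, hence `Tiny 0`. -/
theorem Dec.bdd {Q : ℂ} {N : ℝ} (hN : 0 ≤ N) {g : ℂ → ℂ} (hg : Dec Q N g) : Tiny 0 g := by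
  obtain ⟨ι, hι, w, G, k1, k2, k3, k4⟩ := hg
  have h1 : Tiny 0 (fun s => ∑ i ∈ Finset.univ, G i s) := Tiny.sum Finset.univ fun i _ => k2 i
  have h2 : Tiny 0 (fun s => g s - ∑ i, G i s) := by
    obtain ⟨ε, hε, R, C, hC⟩ := k4
    refine ⟨ε, hε, R, |C|, fun s hs => ?_⟩
    refine (hC s hs).trans ?_
    have h3 : Real.exp (-N * ‖s‖) ≤ Real.exp (-0 * ‖s‖) := by
      apply Real.exp_le_exp.mpr
      have := mul_nonneg hN (norm_nonneg s)
      linarith
    calc C * Real.exp (-N * ‖s‖) ≤ |C| * Real.exp (-N * ‖s‖) :=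
          mul_le_mul_of_nonneg_right (le_abs_self C) (Real.exp_pos _).le
      _ ≤ |C| * Real.exp (-0 * ‖s‖) := mul_le_mul_of_nonneg_left h3 (abs_nonneg C)
  have h5 := Tiny.add h2 h1
  have h6 : g = (fun s => (g s - ∑ i, G i s) + ∑ i ∈ Finset.univ, G i s) := by
    funext s
    ring
  rw [h6]
  exact h5

end H12Z
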