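import Pool.Agent.Lib.H12Z.Defs
import Pool.Agent.Lib.H12Z.D1

/-! # H12Z, chunk D4 (M): the operators `ops` annihilate `Dec` -/

namespace H12Z

/-- (D4a, S) PROOF. `ring`. -/
theorem sh_comm (Q w w' : ℂ) (g : ℂ → ℂ) : sh Q w (sh Q w' g) = sh Q w' (sh Q w g) := by
  funext z
  simp only [sh]
  ring

/-- (D4b, S) PROOF. Induction, `sh_comm`. -/
theorem ops_sh (Q w : ℂ) (ws : List ℂ) (g : ℂ → ℂ) : ops Q ws (sh Q w g) = sh Q w (ops Q ws g) := by
  induction ws with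
  | nil => rfl
  | cons a ws ih =>
    have h1 : ∀ g : ℂ → ℂ, ops Q (a :: ws) g = sh Q a (ops Q ws g) := fun _ => rfl
    rw [h1, h1, ih, sh_comm]

/-- (D4c, S) PROOF. Induction on `ws`, `Tiny.sh`. -/
theorem Tiny.ops {N : ℝ} (hN : 0 ≤ N) (Q : ℂ) (ws : List ℂ) {g : ℂ → ℂ} (hg : Tiny N g) :
    Tiny N (ops Q ws g) := by
  induction ws with
  | nil => exact hg
  | cons a ws ih => exact Tiny.sh hN ih Q a

/-- (D4d, S) PROOF. Induction on `ws`. -/
theorem ops_sum (Q : ℂ) (ws : List ℂ) {ι : Type} (S : Finset ι) (g : ι → ℂ → ℂ) (h : ℂ → ℂ) (s : ℂ) :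
    ops Q ws (fun s => h s + ∑ i ∈ S, g i s) s = ops Q ws h s + ∑ i ∈ S, ops Q ws (g i) s := by
  induction ws generalizing s with
  | nil => rfl
  | cons a ws ih =>
    have h1 : ∀ (g : ℂ → ℂ) (s : ℂ), H12Z.ops Q (a :: ws) g s = H12Z.ops Q ws g (s + Q) - a * H12Z.ops Q ws g s :=
      fun _ _ => rfl
    simp only [h1]
    rw [ih, ih, Finset.sum_sub_distrib, ← Finset.mul_sum]
    ring

/-- (D4e, S/M) PROOF. If `w ∈ ws`, then `ops Q ws g = ops Q (ws.erase w) (sh Q w g)` (induction, `ops_sh`). -/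
theorem ops_mem (Q : ℂ) {ws : List ℂ} {w : ℂ} (hw : w ∈ ws) (g : ℂ → ℂ) :
    ops Q ws g = ops Q (ws.erase w) (sh Q w g) := by
  induction ws with
  | nil => simp at hw
  | cons a ws ih =>
    have h1 : ∀ (g : ℂ → ℂ) (l : List ℂ), H12Z.ops Q (a :: l) g = sh Q a (H12Z.ops Q l g) := fun _ _ => rfl
    by_cases haw : a = w
    · subst haw
      rw [List.erase_cons_head, h1, ops_sh]
    · have h2 : w ∈ ws := by
        rcases List.mem_cons.1 hw with h | h
        · exact absurd h.symm haw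
        · exact h
      rw [List.erase_cons_tail (by simpa using haw), h1, h1, ih h2]

end H12Z
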