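import Pool.Agent.Lib.H12Z.Defs
import Pool.Agent.Lib.H12Z.D4

/-! # H12Z, chunk D4B (M): the operators `ops` annihilate `Dec` -/

namespace H12Z

/-- (D4f, S/M) PROOF. `ws = (Finset.univ.image w).toList` (nodup, all elements are some `w i`). `ops_sum`, `ops_mem`,
`Tiny.ops`. -/
theorem Dec.exists_ops {Q : ℂ} {N : ℝ} (hN : 0 ≤ N) {g : ℂ → ℂ} (hg : Dec Q N g) :
    ∃ ws : List ℂ, ws.Nodup ∧ (∀ w ∈ ws, w ≠ 0) ∧ Tiny N (ops Q ws g) := by
  classical
  obtain ⟨ι, hι, w, G, hw, hG, hsh, hr⟩ := hg
  refine ⟨(Finset.univ.image w).toList, Finset.nodup_toList _, ?_, ?_⟩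
  · intro x hx
    rw [Finset.mem_toList, Finset.mem_image] at hx
    obtain ⟨i, -, rfl⟩ := hx
    exact hw i
  · have key : ∀ s, ops Q (Finset.univ.image w).toList g s =
        ops Q (Finset.univ.image w).toList (fun s => g s - ∑ i, G i s) s +
          ∑ i, ops Q (Finset.univ.image w).toList (G i) s := by
      intro s
      rw [← ops_sum]
      congr 1
      funext t
      simp
    have h1 : Tiny N (fun s => ops Q (Finset.univ.image w).toList (fun s => g s - ∑ i, G i s) s +
          ∑ i, ops Q (Finset.univ.image w).toList (G i) s) := by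
      refine Tiny.add (Tiny.ops hN Q _ hr) (Tiny.sum _ fun i _ => ?_)
      have hi : w i ∈ (Finset.univ.image w).toList := by
        rw [Finset.mem_toList]
        exact Finset.mem_image_of_mem _ (Finset.mem_univ i)
      rw [ops_mem Q hi]
      exact Tiny.ops hN Q _ (hsh i)
    have h2 : ops Q (Finset.univ.image w).toList g = (fun s =>
        ops Q (Finset.univ.image w).toList (fun s => g s - ∑ i, G i s) s +
          ∑ i, ops Q (Finset.univ.image w).toList (G i) s) := funext key
    rw [h2]
    exact h1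

end H12Z
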