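import Pool.Agent.Lib.H12Z.Defs
import Pool.Agent.Lib.H12Z.D4B

/-! # H12Z, chunk D5 (M): the converse, decomposition of functions annihilated by `ops` -/

namespace H12Z

/-- (D5a, M) PROOF. Induction on `ws`, for all `g`. For `[]`: `G` is irrelevant, `g` is tiny. For `w₁ :: ws`:
`g' = sh Q w₁ g` is bounded and `ops Q ws g' = ops Q (w₁ :: ws) g` (`ops_sh`), so there are `G w` for `w ∈ ws`. Let
`F w = G w / (w - w₁)` for `w ∈ ws` (`w ≠ w₁` by nodup) and `F w₁ = g - ∑_{w ∈ ws} F w`. Then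
`sh Q w (F w) = sh Q w (G w) / (w - w₁)` is tiny, `sh Q w₁ (F w) = F w (s + Q) - w₁ F w s = sh Q w (F w) + (w - w₁) F w`, so
`sh Q w₁ (F w₁) = g' - ∑ (w - w₁) F w - ∑ sh Q w (F w) = (g' - ∑ G w) - ∑ sh Q w (F w)` is tiny. -/
theorem exists_pieces {Q : ℂ} {N : ℝ} (hN : 0 ≤ N) (ws : List ℂ) (hws : ws.Nodup) (g : ℂ → ℂ)
    (hg : Tiny 0 g) (h : Tiny N (ops Q ws g)) :
    ∃ G : ℂ → ℂ → ℂ, (∀ w ∈ ws, Tiny 0 (G w)) ∧ (∀ w ∈ ws, Tiny N (sh Q w (G w))) ∧
      Tiny N (fun s => g s - (ws.map fun w => G w s).sum) := by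
  classical
  induction ws generalizing g with
  | nil =>
    refine ⟨fun _ _ => 0, by simp, by simp, ?_⟩
    have h1 : Tiny N g := h
    refine h1.congr (ε := 1) (R := 0) one_pos ?_
    intro s _
    simp
  | cons w₁ ws ih =>
    rw [List.nodup_cons] at hws
    obtain ⟨hw1, hws⟩ := hws
    have hg' : Tiny 0 (sh Q w₁ g) := Tiny.sh le_rfl hg Q w₁
    have h' : Tiny N (ops Q ws (sh Q w₁ g)) := by
      rw [ops_sh]
      exact h
    obtain ⟨G, hG0, hGN, hGs⟩ := ih hws (sh Q w₁ g) hg' h'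
    have hne : ∀ w ∈ ws, w ≠ w₁ := fun w hw e => hw1 (e ▸ hw)
    have hne' : ∀ w ∈ ws.toFinset, w - w₁ ≠ 0 := fun w hw =>
      sub_ne_zero.2 (hne w (List.mem_toFinset.1 hw))
    refine ⟨fun w s => if w = w₁ then g s - ∑ w ∈ ws.toFinset, (w - w₁)⁻¹ * G w s
      else (w - w₁)⁻¹ * G w s, ?_, ?_, ?_⟩
    · intro w hw
      rcases List.mem_cons.1 hw with rfl | hw
      · simp only [if_true]
        have h1 : Tiny 0 (fun s => (-1 : ℂ) * ∑ v ∈ ws.toFinset, (v - w)⁻¹ * G v s) :=
          Tiny.const_mul (Tiny.sum _ fun v hv => Tiny.const_mul (hG0 v (List.mem_toFinset.1 hv)) _) _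
        refine (hg.add h1).congr (ε := 1) (R := 0) one_pos ?_
        intro s _
        ring
      · have e := hne w hw
        simp only [e, if_false]
        exact Tiny.const_mul (hG0 w hw) _
    · intro w hw
      rcases List.mem_cons.1 hw with rfl | hw
      · have h1 : Tiny N (fun s => (-1 : ℂ) * ∑ v ∈ ws.toFinset, (v - w)⁻¹ * sh Q v (G v) s) :=
          Tiny.const_mul (Tiny.sum _ fun v hv => Tiny.const_mul (hGN v (List.mem_toFinset.1 hv)) _) _
        refine (hGs.add h1).congr (ε := 1) (R := 0) one_pos ?_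
        intro s _
        simp only [sh, if_true]
        rw [← List.sum_toFinset (fun v => G v s) hws]
        have h2 : ∑ v ∈ ws.toFinset, G v s = ∑ v ∈ ws.toFinset, (v - w)⁻¹ * ((v - w) * G v s) := by
          refine Finset.sum_congr rfl fun v hv => ?_
          rw [← mul_assoc, inv_mul_cancel₀ (hne' v hv), one_mul]
        rw [h2]
        have h3 : ∀ a b : ℂ, a - ∑ v ∈ ws.toFinset, (v - w)⁻¹ * G v (s + Q) -
            w * (b - ∑ v ∈ ws.toFinset, (v - w)⁻¹ * G v s) =
            a - w * b - ∑ v ∈ ws.toFinset, ((v - w)⁻¹ * G v (s + Q) - w * ((v - w)⁻¹ * G v s)) := by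
          intro a b
          rw [Finset.sum_sub_distrib, ← Finset.mul_sum]
          ring
        rw [h3]
        have h4 : ∑ v ∈ ws.toFinset, ((v - w)⁻¹ * G v (s + Q) - w * ((v - w)⁻¹ * G v s)) =
            ∑ v ∈ ws.toFinset, (v - w)⁻¹ * ((v - w) * G v s) +
              ∑ v ∈ ws.toFinset, (v - w)⁻¹ * (G v (s + Q) - v * G v s) := by
          rw [← Finset.sum_add_distrib]
          refine Finset.sum_congr rfl fun v hv => ?_
          ring
        rw [h4]
        ring
      · have e := hne w hw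
        simp only [e, if_false]
        refine (Tiny.const_mul (hGN w hw) (w - w₁)⁻¹).congr (ε := 1) (R := 0) one_pos ?_
        intro s _
        simp only [sh]
        ring
    · refine (Tiny.zero N).congr (ε := 1) (R := 0) one_pos ?_
      intro s _
      have h1 : (ws.map fun w => if w = w₁ then g s - ∑ w ∈ ws.toFinset, (w - w₁)⁻¹ * G w s
          else (w - w₁)⁻¹ * G w s) = ws.map fun w => (w - w₁)⁻¹ * G w s := by
        refine List.map_congr_left fun w hw => ?_
        rw [if_neg (hne w hw)]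
      rw [List.map_cons, List.sum_cons]
      beta_reduce
      rw [if_pos rfl, h1, ← List.sum_toFinset _ hws]
      ring

end H12Z
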