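import Pool.Agent.Lib.H12Z.Defs
import Pool.Agent.Lib.H12Z.D5

/-! # H12Z, chunk D5B (M): the converse, decomposition of functions annihilated by `ops` -/

namespace H12Z

/-- (D5b, S) PROOF. `exists_pieces`, index type `Fin ws.length` (`ws.get`), `List.sum_ofFn` or `Fin.sum_univ_get`. -/
theorem Dec.of_ops {Q : ℂ} {N : ℝ} (hN : 0 ≤ N) {ws : List ℂ} (hws : ws.Nodup)
    (h0 : ∀ w ∈ ws, w ≠ 0) {g : ℂ → ℂ} (hg : Tiny 0 g) (h : Tiny N (ops Q ws g)) : Dec Q N g := by
  obtain ⟨G, h1, h2, h3⟩ := exists_pieces hN ws hws g hg h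
  refine ⟨Fin ws.length, inferInstance, fun i => ws.get i, fun i => G (ws.get i),
    fun i => h0 _ (List.get_mem ws i), fun i => h1 _ (List.get_mem ws i),
    fun i => h2 _ (List.get_mem ws i), ?_⟩
  have h4 : (fun s => g s - ∑ i, G (ws.get i) s) = (fun s => g s - (ws.map fun w => G w s).sum) := by
    funext s
    congr 1
    exact Fin.sum_univ_fun_getElem ws (fun w => G w s)
  rw [h4]
  exact h3

end H12Z
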