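import Pool.Agent.Lib.H12Z.Defs
import Pool.Agent.Lib.H12Z.D5B
import Pool.Agent.Lib.H12Z.A11

/-! # H12Z, chunk A12 (S/M): `T` is in the class `Dec` -/

namespace H12Z

/-- (A12a, S/M) PROOF. `List.nodup_range.map` (or `List.Nodup.map_on`): the norm of element number `i` is
`exp (2 π (i - K) a.im)`, injective in `i`. -/
theorem nodes_nodup {a : ℂ} (ha : a.im ≠ 0) (K : ℕ) : (nodes a K).Nodup := by
  have h0 : nodes a K = (List.range (2 * K + 1)).map (fun i : ℕ =>
      Complex.exp (-2 * Real.pi * Complex.I * ((i : ℂ) - K) * a)) := by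
    simp only [nodes, List.pure_def, List.bind_eq_flatMap, List.map_flatMap, List.map_cons,
      List.map_nil]
    exact List.flatMap_pure_eq_map _ _
  rw [h0]
  refine List.Nodup.map_on ?_ List.nodup_range
  intro i _ j _ h
  have h1 : ∀ m : ℕ, ‖Complex.exp (-2 * Real.pi * Complex.I * ((m : ℂ) - K) * a)‖ =
      Real.exp (2 * Real.pi * ((m : ℝ) - K) * a.im) := by
    intro m
    rw [Complex.norm_exp]
    congr 1
    simp [Complex.mul_re, Complex.mul_im]
  have h2 := congrArg norm h
  rw [h1, h1] at h2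
  have h3 := Real.exp_injective h2
  have h4 : (2 * Real.pi * a.im) ≠ 0 := by
    have := Real.pi_ne_zero
    positivity
  have h5 : (2 * Real.pi * a.im) * ((i : ℝ) - j) = 0 := by linarith
  have h6 : (i : ℝ) - j = 0 := by
    rcases mul_eq_zero.1 h5 with h | h
    · exact absurd h h4
    · exact h
  exact_mod_cast sub_eq_zero.1 h6

end H12Z
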