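import Pool.Agent.Lib.H12Z.Defs
import Pool.Agent.Lib.H12Z.A12

/-! # H12Z, chunk A12B (S/M): `T` is in the class `Dec` -/

namespace H12Z

/-- (A12b, S) PROOF. `ann_T`, `K` with `κ K ≥ N`, `Tiny.mono`, `Dec.of_ops`, `nodes_nodup`, `Complex.exp_ne_zero`. -/
theorem dec_T {η : ℂ} (hη : η.im ≠ 0) {ε R : ℝ} (hε : 0 < ε) {T : ℂ → ℂ} (hT : ImagOn η ε R T)
    {N : ℝ} (hN : 0 ≤ N) : Dec (η - (starRingEnd ℂ) η) N T := by
  obtain ⟨κ, hκ, h⟩ := ann_T hη hε hT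
  obtain ⟨K, hK⟩ := exists_nat_ge (N / κ)
  have hK' : N ≤ κ * K := by
    rw [div_le_iff₀ hκ] at hK
    linarith [mul_comm (K : ℝ) κ]
  have him : ((starRingEnd ℂ) η).im ≠ 0 := by
    rw [Complex.conj_im]
    exact neg_ne_zero.mpr hη
  have h0 : Tiny 0 T := by
    obtain ⟨B, hB⟩ := hT.2.1
    refine ⟨ε, hε, R, B, fun s hs => ?_⟩
    simpa using hB s hs
  refine Dec.of_ops hN (nodes_nodup him K) ?_ h0 ((h K).mono hK')
  intro w hw
  unfold nodes at hw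
  rw [List.mem_map] at hw
  obtain ⟨i, _, rfl⟩ := hw
  exact Complex.exp_ne_zero _

end H12Z
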