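import Pool.Agent.Lib.H12Z.Defs

/-! # H12Z, chunk C1 (M): exact decomposition -/

namespace H12Z

theorem c1_sh_comm (Q w w' : ℂ) (g : ℂ → ℂ) : sh Q w (sh Q w' g) = sh Q w' (sh Q w g) := by
  funext z
  unfold sh
  ring

theorem c1_ops_comm (Q w : ℂ) (ws : List ℂ) (g : ℂ → ℂ) : ops Q ws (sh Q w g) = sh Q w (ops Q ws g) := by
  induction ws with
  | nil => rfl
  | cons v ws ih =>
    have h1 : ops Q (v :: ws) (sh Q w g) = sh Q v (ops Q ws (sh Q w g)) := rfl
    have h2 : ops Q (v :: ws) g = sh Q v (ops Q ws g) := rfl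
    rw [h1, h2, ih, c1_sh_comm]

theorem c1_sum_mem (𝒮 : Submodule ℂ (ℂ → ℂ)) (ws : List ℂ) (F : ℂ → ℂ → ℂ) (h : ∀ w ∈ ws, F w ∈ 𝒮) :
    (fun z => (ws.map fun w => F w z).sum) ∈ 𝒮 := by
  induction ws with
  | nil => exact 𝒮.zero_mem
  | cons v ws ih =>
    have h1 : (fun z => ((v :: ws).map fun w => F w z).sum) = F v + fun z => (ws.map fun w => F w z).sum := by
      funext z
      simp
    rw [h1]
    exact 𝒮.add_mem (h v List.mem_cons_self) (ih fun w hw => h w (List.mem_cons_of_mem _ hw))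

/-- (C1, M) PROOF. Induction on `ws`, for all `g`. For `w₁ :: ws`: `g' = sh Q w₁ g ∈ 𝒮` and `ops Q ws g' = 0` (`sh` and `ops`
commute, `ring`), so `g' = ∑ G w`. `F w = G w / (w - w₁)` for `w ∈ ws`, `F w₁ = g - ∑_{w ∈ ws} F w`:
`sh Q w₁ (F w) = G w` for `w ∈ ws`, so `sh Q w₁ (F w₁) = g' - ∑ G w = 0`. -/
theorem exact_pieces {Q : ℂ} (ws : List ℂ) (hws : ws.Nodup) (𝒮 : Submodule ℂ (ℂ → ℂ))
    (h𝒮 : ∀ g ∈ 𝒮, (fun z => g (z + Q)) ∈ 𝒮) (g : ℂ → ℂ) (hg : g ∈ 𝒮)
    (h : ∀ z, ops Q ws g z = 0) :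
    ∃ G : ℂ → ℂ → ℂ, (∀ w ∈ ws, G w ∈ 𝒮 ∧ ∀ z, G w (z + Q) = w * G w z) ∧
      ∀ z, g z = (ws.map fun w => G w z).sum := by
  induction ws generalizing g with
  | nil =>
    refine ⟨fun _ _ => 0, fun w hw => absurd hw List.not_mem_nil, fun z => ?_⟩
    have h1 := h z
    have h2 : ops Q [] g z = g z := rfl
    rw [h2] at h1
    rw [h1]
    rfl
  | cons w₁ ws ih =>
    obtain ⟨hn, hnd⟩ := List.nodup_cons.mp hws
    have hg' : sh Q w₁ g ∈ 𝒮 := by
      have h1 : sh Q w₁ g = (fun z => g (z + Q)) - w₁ • g := by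
        funext z
        rfl
      rw [h1]
      exact 𝒮.sub_mem (h𝒮 g hg) (𝒮.smul_mem _ hg)
    have h' : ∀ z, ops Q ws (sh Q w₁ g) z = 0 := by
      intro z
      rw [c1_ops_comm]
      exact h z
    obtain ⟨G, hG, hs⟩ := ih hnd (sh Q w₁ g) hg' h'
    have hne : ∀ w ∈ ws, w ≠ w₁ := by
      rintro w hw rfl
      exact hn hw
    -- the pieces
    let F : ℂ → ℂ → ℂ := fun w z => (w - w₁)⁻¹ * G w z
    have hF : ∀ w ∈ ws, F w ∈ 𝒮 := fun w hw => 𝒮.smul_mem (w - w₁)⁻¹ (hG w hw).1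
    let S : ℂ → ℂ := fun z => (ws.map fun w => F w z).sum
    have hS : S ∈ 𝒮 := c1_sum_mem 𝒮 ws F hF
    classical
    refine ⟨fun w => if w = w₁ then g - S else F w, ?_, ?_⟩
    · intro w hw
      rcases List.mem_cons.mp hw with rfl | hw
      · simp only [if_true]
        refine ⟨𝒮.sub_mem hg hS, fun z => ?_⟩
        have h1 : S (z + Q) = w * S z + sh Q w g z := by
          have h2 : S (z + Q) = (ws.map fun v => w * F v z + G v z).sum := by
            show (ws.map fun v => F v (z + Q)).sum = _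
            congr 1
            refine List.map_congr_left fun v hv => ?_
            have h3 := sub_ne_zero.mpr (hne v hv)
            show (v - w)⁻¹ * G v (z + Q) = w * ((v - w)⁻¹ * G v z) + G v z
            rw [(hG v hv).2 z]
            field_simp
            ring
          rw [h2, List.sum_map_add, List.sum_map_mul_left, ← hs z]
        have h4 : sh Q w g z = g (z + Q) - w * g z := rfl
        show g (z + Q) - S (z + Q) = w * (g z - S z)
        rw [h1, h4]
        ring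
      · have h1 : w ≠ w₁ := hne w hw
        simp only [if_neg h1]
        refine ⟨hF w hw, fun z => ?_⟩
        show (w - w₁)⁻¹ * G w (z + Q) = w * ((w - w₁)⁻¹ * G w z)
        rw [(hG w hw).2 z]
        ring
    · intro z
      rw [List.map_cons, List.sum_cons]
      simp only [if_true]
      have h1 : (ws.map fun w => (if w = w₁ then g - S else F w) z) = ws.map fun w => F w z := by
        refine List.map_congr_left fun w hw => ?_
        rw [if_neg (hne w hw)]
      rw [h1]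
      show g z = (g z - S z) + S z
      ring

end H12Z
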