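import Pool.Agent.Lib.H12Z.Defs

/-! # H12Z, chunk C2 (S/M): Liouville -/

namespace H12Z

theorem c2_int {Q : ℂ} {G : ℂ → ℂ} (h1 : ∀ z, ‖G (z + Q)‖ = ‖G z‖) (m : ℤ) (z : ℂ) :
    ‖G (z + m * Q)‖ = ‖G z‖ := by
  have hn : ∀ (n : ℕ) (z : ℂ), ‖G (z + n * Q)‖ = ‖G z‖ := by
    intro n
    induction n with
    | zero => intro z; simp
    | succ n ih =>
      intro z
      rw [← ih z, ← h1 (z + n * Q)]
      have e : z + ((n + 1 : ℕ) : ℂ) * Q = z + n * Q + Q := by push_cast; ring
      rw [e]
  obtain ⟨n, h | h⟩ := m.eq_nat_or_neg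
  · subst h
    have := hn n z
    rwa [show ((n : ℤ) : ℂ) = (n : ℂ) from by norm_cast]
  · subst h
    have h2 := hn n (z + ((-(n : ℤ) : ℤ) : ℂ) * Q)
    have e : z + ((-(n : ℤ) : ℤ) : ℂ) * Q + n * Q = z := by push_cast; ring
    rw [e] at h2
    exact h2.symm

/-- (C2a, S/M) PROOF. Every `z` is `x Q + y P` with real `x`, `y` (Cramer); `‖G z‖ = ‖G (fract x Q + fract y P)‖` (periodicity of
the norm by integers), bounded by the maximum of `‖G‖` on a compact ball; `Differentiable.apply_eq_apply_of_bounded`. -/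
theorem const_of_periodic {Q P : ℂ} (hQP : Q.re * P.im - Q.im * P.re ≠ 0) {G : ℂ → ℂ}
    (hG : Differentiable ℂ G) (h1 : ∀ z, ‖G (z + Q)‖ = ‖G z‖) (h2 : ∀ z, ‖G (z + P)‖ = ‖G z‖) :
    ∃ c : ℂ, ∀ z, G z = c := by
  set d := Q.re * P.im - Q.im * P.re with hd
  obtain ⟨B, hB⟩ := (isCompact_closedBall (0 : ℂ) (‖Q‖ + ‖P‖)).exists_bound_of_continuousOn
    hG.continuous.continuousOn
  have hb : ∀ z, ‖G z‖ ≤ B := by
    intro z
    set x : ℝ := (z.re * P.im - z.im * P.re) / d with hx
    set y : ℝ := (Q.re * z.im - Q.im * z.re) / d with hy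
    have hxd : x * d = z.re * P.im - z.im * P.re := by rw [hx]; field_simp
    have hyd : y * d = Q.re * z.im - Q.im * z.re := by rw [hy]; field_simp
    have hz : z = (x : ℂ) * Q + (y : ℂ) * P := by
      apply Complex.ext
      · have h3 : (z.re - (x * Q.re + y * P.re)) * d = 0 := by
          linear_combination (-Q.re) * hxd - P.re * hyd + z.re * hd
        have h4 : z.re - (x * Q.re + y * P.re) = 0 := by
          rcases mul_eq_zero.1 h3 with h | h
          · exact h
          · exact absurd h hQP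
        simp only [Complex.add_re, Complex.mul_re, Complex.ofReal_re, Complex.ofReal_im, zero_mul,
          sub_zero]
        linarith
      · have h3 : (z.im - (x * Q.im + y * P.im)) * d = 0 := by
          linear_combination (-Q.im) * hxd - P.im * hyd + z.im * hd
        have h4 : z.im - (x * Q.im + y * P.im) = 0 := by
          rcases mul_eq_zero.1 h3 with h | h
          · exact h
          · exact absurd h hQP
        simp only [Complex.add_im, Complex.mul_im, Complex.ofReal_re, Complex.ofReal_im, zero_mul,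
          add_zero]
        linarith
    have hz2 : z = ((Int.fract x : ℝ) : ℂ) * Q + ((Int.fract y : ℝ) : ℂ) * P + (⌊x⌋ : ℂ) * Q +
        (⌊y⌋ : ℂ) * P := by
      have ex : (x : ℂ) = (⌊x⌋ : ℂ) + ((Int.fract x : ℝ) : ℂ) := by
        rw [← Complex.ofReal_intCast, ← Complex.ofReal_add, Int.floor_add_fract]
      have ey : (y : ℂ) = (⌊y⌋ : ℂ) + ((Int.fract y : ℝ) : ℂ) := by
        rw [← Complex.ofReal_intCast, ← Complex.ofReal_add, Int.floor_add_fract]
      calc z = (x : ℂ) * Q + (y : ℂ) * P := hz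
        _ = ((⌊x⌋ : ℂ) + ((Int.fract x : ℝ) : ℂ)) * Q +
            ((⌊y⌋ : ℂ) + ((Int.fract y : ℝ) : ℂ)) * P := by rw [← ex, ← ey]
        _ = _ := by ring
    rw [hz2, c2_int h2, c2_int h1]
    apply hB
    rw [mem_closedBall_zero_iff]
    refine (norm_add_le _ _).trans (add_le_add ?_ ?_)
    · rw [norm_mul, Complex.norm_real, Real.norm_of_nonneg (Int.fract_nonneg x)]
      exact mul_le_of_le_one_left (norm_nonneg _) (Int.fract_lt_one x).le
    · rw [norm_mul, Complex.norm_real, Real.norm_of_nonneg (Int.fract_nonneg y)]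
      exact mul_le_of_le_one_left (norm_nonneg _) (Int.fract_lt_one y).le
  have hbd : Bornology.IsBounded (Set.range G) := by
    rw [isBounded_iff_forall_norm_le]
    refine ⟨B, ?_⟩
    rintro _ ⟨z, rfl⟩
    exact hb z
  exact ⟨G 0, fun z => hG.apply_eq_apply_of_bounded hbd z 0⟩

end H12Z
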