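import Pool.Agent.Lib.H12Z.Defs
import Pool.Agent.Lib.H12Z.C2

/-! # H12Z, chunk C2B (S/M): Liouville -/

namespace H12Z

theorem c2b_kappa {Q P : ℂ} (hQP : Q.re * P.im - Q.im * P.re ≠ 0) (L1 L2 : ℝ) :
    ∃ κ : ℂ, (κ * Q).re = L1 ∧ (κ * P).re = L2 := by
  refine ⟨⟨(L1 * P.im - L2 * Q.im) / (Q.re * P.im - Q.im * P.re),
    (L1 * P.re - L2 * Q.re) / (Q.re * P.im - Q.im * P.re)⟩, ?_, ?_⟩
  · rw [Complex.mul_re]
    show (L1 * P.im - L2 * Q.im) / (Q.re * P.im - Q.im * P.re) * Q.re -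
      (L1 * P.re - L2 * Q.re) / (Q.re * P.im - Q.im * P.re) * Q.im = L1
    rw [div_mul_eq_mul_div, div_mul_eq_mul_div, ← sub_div, div_eq_iff hQP]
    ring
  · rw [Complex.mul_re]
    show (L1 * P.im - L2 * Q.im) / (Q.re * P.im - Q.im * P.re) * P.re -
      (L1 * P.re - L2 * Q.re) / (Q.re * P.im - Q.im * P.re) * P.im = L2
    rw [div_mul_eq_mul_div, div_mul_eq_mul_div, ← sub_div, div_eq_iff hQP]
    ring

theorem c2b_norm {κ Q w : ℂ} (hw : w ≠ 0) (hκ : (κ * Q).re = Real.log ‖w‖) {F : ℂ → ℂ}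
    (h1 : ∀ z, F (z + Q) = w * F z) (z : ℂ) :
    ‖F (z + Q) * Complex.exp (-(κ * (z + Q)))‖ = ‖F z * Complex.exp (-(κ * z))‖ := by
  rw [h1, norm_mul, norm_mul, norm_mul, Complex.norm_exp, Complex.norm_exp]
  have h2 : (-(κ * (z + Q))).re = (-(κ * z)).re - Real.log ‖w‖ := by
    rw [mul_add, neg_add, Complex.add_re, Complex.neg_re (κ * Q), hκ]
    ring
  rw [h2, Real.exp_sub, Real.exp_log (norm_pos_iff.mpr hw)]
  have h3 : ‖w‖ ≠ 0 := norm_ne_zero_iff.mpr hw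
  field_simp

/-- (C2b, S/M) PROOF. There is `κ` with `(κ * Q).re = log ‖w‖`, `(κ * P).re = log ‖w'‖` (a linear system with the determinant
`± (Q.re P.im - Q.im P.re)`). `G z = F z exp (-κ z)` and `const_of_periodic`. -/
theorem quasi {Q P : ℂ} (hQP : Q.re * P.im - Q.im * P.re ≠ 0) {w w' : ℂ} (hw : w ≠ 0)
    (hw' : w' ≠ 0) {F : ℂ → ℂ} (hF : Differentiable ℂ F) (h1 : ∀ z, F (z + Q) = w * F z)
    (h2 : ∀ z, F (z + P) = w' * F z) : ∃ c κ : ℂ, ∀ z, F z = c * Complex.exp (κ * z) := by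
  obtain ⟨κ, hκ1, hκ2⟩ := c2b_kappa hQP (Real.log ‖w‖) (Real.log ‖w'‖)
  have hG : Differentiable ℂ (fun z => F z * Complex.exp (-(κ * z))) :=
    hF.mul ((differentiable_id.const_mul κ).neg.cexp)
  obtain ⟨c, hc⟩ := const_of_periodic hQP hG (fun z => c2b_norm hw hκ1 h1 z) (fun z => c2b_norm hw' hκ2 h2 z)
  refine ⟨c, κ, fun z => ?_⟩
  rw [← hc z, mul_assoc, ← Complex.exp_add, neg_add_cancel, Complex.exp_zero, mul_one]

end H12Z
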