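import Pool.Agent.Lib.H12Z.Defs
import Pool.Agent.Lib.H12Z.C1
import Pool.Agent.Lib.H12Z.C2B

/-! # H12Z, chunk C3 (M): functions annihilated in two directions are exponential sums -/

namespace H12Z

open H12G

/-- (C3a, S) PROOF. If `F z = ∑ over a list`, each term an exponential: `n` the length. Or closure of the set of exponential sums
under addition: `Fin (n + m)`, `Fin.addCases`, `Fin.sum_univ_add`. Induction on the list. -/
theorem ex_list_sum {ws : List ℂ} {G : ℂ → ℂ → ℂ}
    (h : ∀ w ∈ ws, ∃ (n : ℕ) (c ζ : Fin n → ℂ), ∀ z, G w z = ex c ζ z) :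
    ∃ (n : ℕ) (c ζ : Fin n → ℂ), ∀ z, (ws.map fun w => G w z).sum = ex c ζ z := by
  induction ws with
  | nil =>
    refine ⟨0, fun i => i.elim0, fun i => i.elim0, fun z => ?_⟩
    simp [ex]
  | cons w ws ih =>
    obtain ⟨n, c, ζ, h1⟩ := h w List.mem_cons_self
    obtain ⟨m, c', ζ', h2⟩ := ih fun v hv => h v (List.mem_cons_of_mem _ hv)
    refine ⟨n + m, Fin.append c c', Fin.append ζ ζ', fun z => ?_⟩
    rw [List.map_cons, List.sum_cons, h1, h2]
    unfold ex
    rw [Fin.sum_univ_add]
    simp only [Fin.append_left, Fin.append_right]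

end H12Z
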