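import Pool.Agent.Lib.H12Z.Defs
import Pool.Agent.Lib.H12Z.C3

/-! # H12Z, chunk C3B (M): functions annihilated in two directions are exponential sums -/

namespace H12Z

open H12G

theorem c3b_add (Q : ℂ) (ws : List ℂ) (g h : ℂ → ℂ) :
    ops Q ws (g + h) = ops Q ws g + ops Q ws h := by
  induction ws with
  | nil => rfl
  | cons w ws ih =>
    have e : ∀ f : ℂ → ℂ, ops Q (w :: ws) f = sh Q w (ops Q ws f) := fun f => rfl
    rw [e, e, e, ih]
    funext z
    simp only [sh, Pi.add_apply]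
    ring

theorem c3b_smul (Q : ℂ) (ws : List ℂ) (c : ℂ) (g : ℂ → ℂ) :
    ops Q ws (c • g) = c • ops Q ws g := by
  induction ws with
  | nil => rfl
  | cons w ws ih =>
    have e : ∀ f : ℂ → ℂ, ops Q (w :: ws) f = sh Q w (ops Q ws f) := fun f => rfl
    rw [e, e, ih]
    funext z
    simp only [sh, Pi.smul_apply, smul_eq_mul]
    ring

theorem c3b_zero (Q : ℂ) (ws : List ℂ) : ops Q ws (0 : ℂ → ℂ) = 0 := by
  have h := c3b_smul Q ws 0 0
  simpa using h

theorem c3b_shift (P Q : ℂ) (ws : List ℂ) (g : ℂ → ℂ) :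
    ops P ws (fun z => g (z + Q)) = fun z => ops P ws g (z + Q) := by
  induction ws with
  | nil => rfl
  | cons w ws ih =>
    have e : ∀ f : ℂ → ℂ, ops P (w :: ws) f = sh P w (ops P ws f) := fun f => rfl
    rw [e, e, ih]
    funext z
    simp only [sh]
    rw [add_right_comm]

/-- entire functions annihilated by `ops P ws` -/
def c3bS (P : ℂ) (ws : List ℂ) : Submodule ℂ (ℂ → ℂ) where
  carrier := {g | Differentiable ℂ g ∧ ∀ z, ops P ws g z = 0}
  zero_mem' := by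
    refine ⟨differentiable_const 0, fun z => ?_⟩
    rw [c3b_zero]
    rfl
  add_mem' := by
    rintro a b ⟨ha, ha'⟩ ⟨hb, hb'⟩
    refine ⟨ha.add hb, fun z => ?_⟩
    rw [c3b_add, Pi.add_apply, ha', hb', add_zero]
  smul_mem' := by
    rintro c a ⟨ha, ha'⟩
    refine ⟨ha.const_smul c, fun z => ?_⟩
    rw [c3b_smul, Pi.smul_apply, ha', smul_zero]

/-- entire quasi-periodic functions -/
def c3bT (Q w : ℂ) : Submodule ℂ (ℂ → ℂ) where
  carrier := {g | Differentiable ℂ g ∧ ∀ z, g (z + Q) = w * g z}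
  zero_mem' := by
    refine ⟨differentiable_const 0, fun z => ?_⟩
    simp
  add_mem' := by
    rintro a b ⟨ha, ha'⟩ ⟨hb, hb'⟩
    refine ⟨ha.add hb, fun z => ?_⟩
    rw [Pi.add_apply, Pi.add_apply, ha', hb']
    ring
  smul_mem' := by
    rintro c a ⟨ha, ha'⟩
    refine ⟨ha.const_smul c, fun z => ?_⟩
    rw [Pi.smul_apply, Pi.smul_apply, ha', smul_eq_mul, smul_eq_mul]
    ring

/-- (C3b, M) PROOF. `exact_pieces` for `Q`, `ws` and the submodule of entire `g` with `ops P ws' g = 0` (stable under shifts: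
`ops` commutes with shifts). For every piece `G w`: `exact_pieces` for `P`, `ws'` and the submodule of entire `g` with
`g (z + Q) = w g z` for all `z`. `quasi` for the pieces; `ex_list_sum` twice. -/
theorem exp_of_ops {Q P : ℂ} (hQP : Q.re * P.im - Q.im * P.re ≠ 0) {ws ws' : List ℂ}
    (hws : ws.Nodup) (hws' : ws'.Nodup) (h0 : ∀ w ∈ ws, w ≠ 0) (h0' : ∀ w ∈ ws', w ≠ 0)
    {F : ℂ → ℂ} (hF : Differentiable ℂ F) (h1 : ∀ z, ops Q ws F z = 0)
    (h2 : ∀ z, ops P ws' F z = 0) : ∃ (n : ℕ) (c ζ : Fin n → ℂ), ∀ z, F z = ex c ζ z := by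
  have hshift : ∀ (a : ℂ) (g : ℂ → ℂ), Differentiable ℂ g → Differentiable ℂ (fun z => g (z + a)) :=
    fun a g hg => hg.comp (differentiable_id.add_const a)
  obtain ⟨G, hG, hGs⟩ := exact_pieces ws hws (c3bS P ws') (by
    rintro g ⟨hg, hg'⟩
    refine ⟨hshift Q g hg, fun z => ?_⟩
    rw [c3b_shift]
    exact hg' _) F ⟨hF, h2⟩ h1
  have key : ∀ w ∈ ws, ∃ (n : ℕ) (c ζ : Fin n → ℂ), ∀ z, G w z = ex c ζ z := by
    intro w hw
    obtain ⟨⟨hGd, hGP⟩, hGQ⟩ := hG w hw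
    obtain ⟨G', hG', hGs'⟩ := exact_pieces ws' hws' (c3bT Q w) (by
      rintro g ⟨hg, hg'⟩
      refine ⟨hshift P g hg, fun z => ?_⟩
      show g (z + Q + P) = w * g (z + P)
      rw [add_right_comm, hg']) (G w) ⟨hGd, hGQ⟩ hGP
    obtain ⟨n, c, ζ, hn⟩ := ex_list_sum (ws := ws') (G := G') (by
      intro w' hw'
      obtain ⟨⟨hd, hq⟩, hp⟩ := hG' w' hw'
      obtain ⟨c, κ, hc⟩ := quasi hQP (h0 w hw) (h0' w' hw') hd hq hp
      refine ⟨1, fun _ => c, fun _ => κ, fun z => ?_⟩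
      rw [hc z]
      simp [ex])
    exact ⟨n, c, ζ, fun z => by rw [hGs' z, hn z]⟩
  obtain ⟨n, c, ζ, hn⟩ := ex_list_sum (ws := ws) (G := G) key
  exact ⟨n, c, ζ, fun z => by rw [hGs z, hn z]⟩

end H12Z
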