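import Pool.Agent.Lib.H12Z.Defs

/-! # H12Z, chunk C4 (S/M): change of scale -/

namespace H12Z

/-- (C4a, S/M) PROOF. Induction on `ws`:
`ops Q ws (fun s => F (p s) exp (-b p s)) s = exp (-b p s) exp (-b p Q) ^ ws.length * ops (p Q) (ws.map (· * exp (b p Q))) F (p s)`. -/
theorem ops_scale_eq {p b Q : ℂ} (ws : List ℂ) (F : ℂ → ℂ) (s : ℂ) :
    ops Q ws (fun s => F (p * s) * Complex.exp (-b * p * s)) s =
      Complex.exp (-b * p * s) * Complex.exp (-b * p * Q) ^ ws.length *
        ops (p * Q) (ws.map (· * Complex.exp (b * p * Q))) F (p * s) := by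
  induction ws generalizing s with
  | nil =>
    show F (p * s) * Complex.exp (-b * p * s) =
      Complex.exp (-b * p * s) * Complex.exp (-b * p * Q) ^ 0 * F (p * s)
    rw [pow_zero]
    ring
  | cons w ws ih =>
    show ops Q ws (fun s => F (p * s) * Complex.exp (-b * p * s)) (s + Q) -
        w * ops Q ws (fun s => F (p * s) * Complex.exp (-b * p * s)) s =
      Complex.exp (-b * p * s) * Complex.exp (-b * p * Q) ^ (ws.length + 1) *
        (ops (p * Q) (ws.map (· * Complex.exp (b * p * Q))) F (p * s + p * Q) -
          w * Complex.exp (b * p * Q) *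
            ops (p * Q) (ws.map (· * Complex.exp (b * p * Q))) F (p * s))
    have h1 : Complex.exp (-b * p * (s + Q)) =
        Complex.exp (-b * p * s) * Complex.exp (-b * p * Q) := by
      rw [← Complex.exp_add, mul_add]
    have h2 : Complex.exp (-b * p * Q) * Complex.exp (b * p * Q) = 1 := by
      rw [← Complex.exp_add]
      have h0 : -b * p * Q + b * p * Q = 0 := by ring
      rw [h0, Complex.exp_zero]
    rw [ih, ih, h1, mul_add p s Q, pow_succ]
    linear_combination (w * Complex.exp (-b * p * s) * Complex.exp (-b * p * Q) ^ ws.length *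
      ops (p * Q) (ws.map (· * Complex.exp (b * p * Q))) F (p * s)) * h2

end H12Z
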