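import Pool.Agent.Lib.H12Z.Defs
import Pool.Agent.Lib.H12Z.C4

/-! # H12Z, chunk C4B (S/M): change of scale -/

namespace H12Z

/-- (C4b, S) PROOF. `ops_scale_eq`; multiplication by a nonzero number is injective (`List.Nodup.map`). -/
theorem ops_scale {p b Q : ℂ} (hp : p ≠ 0) {ws : List ℂ} (hws : ws.Nodup) (h0 : ∀ w ∈ ws, w ≠ 0)
    {F : ℂ → ℂ} (h : ∀ s, ops Q ws (fun s => F (p * s) * Complex.exp (-b * p * s)) s = 0) :
    ∃ ws' : List ℂ, ws'.Nodup ∧ (∀ w ∈ ws', w ≠ 0) ∧ ∀ z, ops (p * Q) ws' F z = 0 := by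
  refine ⟨ws.map (· * Complex.exp (b * p * Q)), ?_, ?_, ?_⟩
  · exact hws.map (mul_left_injective₀ (Complex.exp_ne_zero _))
  · intro w hw
    obtain ⟨v, hv, rfl⟩ := List.mem_map.1 hw
    exact mul_ne_zero (h0 v hv) (Complex.exp_ne_zero _)
  · intro z
    have h1 := h (z / p)
    rw [ops_scale_eq] at h1
    have h2 : p * (z / p) = z := by field_simp
    rw [h2] at h1
    rcases mul_eq_zero.1 h1 with h3 | h3
    · exact absurd h3 (mul_ne_zero (Complex.exp_ne_zero _) (pow_ne_zero _ (Complex.exp_ne_zero _)))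
    · exact h3

end H12Z
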