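import Pool.Agent.Lib.H12Z.Defs
import Pool.Agent.Lib.H12Z.D1

/-! # H12Z, chunk D2 (M): products in the class `Dec` -/

namespace H12Z

/-- (D2a, M) PROOF. Index type `ι × ι'`, factors `w i * w' j`, pieces `G i * G' j`.
`sh Q (w w') (G G') = (sh Q w G) * G' (· + Q) + w * G * (sh Q w' G')` (`ring`), a sum of products of tiny and bounded
functions. `g h - ∑ ∑ G i G' j = (g - ∑ G i) h + (∑ G i) (h - ∑ G' j)` (`Finset.sum_mul_sum`,
`Fintype.sum_prod_type`). -/
theorem Dec.mul {Q : ℂ} {N : ℝ} (hN : 0 ≤ N) {g h : ℂ → ℂ} (hg : Dec Q N g) (hh : Dec Q N h) :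
    Dec Q N (fun s => g s * h s) := by
  have hhb : Tiny 0 h := Dec.bdd hN hh
  obtain ⟨ι, hι, w, G, h1, h2, h3, h4⟩ := hg
  obtain ⟨κ, hκ, w', G', k1, k2, k3, k4⟩ := hh
  refine ⟨ι × κ, inferInstance, fun x => w x.1 * w' x.2, fun x s => G x.1 s * G' x.2 s, ?_, ?_, ?_, ?_⟩
  · intro x
    exact mul_ne_zero (h1 _) (k1 _)
  · intro x
    have h5 := Tiny.mul (h2 x.1) (k2 x.2)
    simpa using h5
  · intro x
    have h5 : Tiny N (fun z => sh Q (w x.1) (G x.1) z * G' x.2 (z + Q)) :=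
      Tiny.mul_bdd (h3 x.1) (Tiny.shift le_rfl (k2 x.2) Q)
    have h6 : Tiny N (fun z => sh Q (w' x.2) (G' x.2) z * (w x.1 * G x.1 z)) :=
      Tiny.mul_bdd (k3 x.2) (Tiny.const_mul (h2 x.1) (w x.1))
    have h7 := Tiny.add h5 h6
    have h8 : sh Q (w x.1 * w' x.2) (fun s => G x.1 s * G' x.2 s) =
        (fun s => sh Q (w x.1) (G x.1) s * G' x.2 (s + Q) + sh Q (w' x.2) (G' x.2) s * (w x.1 * G x.1 s)) := by
      funext s
      simp only [sh]
      ring
    rw [h8]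
    exact h7
  · have h5 : Tiny N (fun s => (g s - ∑ i, G i s) * h s) := Tiny.mul_bdd h4 hhb
    have h6 : Tiny 0 (fun s => ∑ i ∈ Finset.univ, G i s) := Tiny.sum Finset.univ fun i _ => h2 i
    have h7 : Tiny N (fun s => (h s - ∑ i, G' i s) * ∑ i ∈ Finset.univ, G i s) := Tiny.mul_bdd k4 h6
    have h8 := Tiny.add h5 h7
    have h9 : (fun s => g s * h s - ∑ x : ι × κ, G x.1 s * G' x.2 s) =
        (fun s => (g s - ∑ i, G i s) * h s + (h s - ∑ i, G' i s) * ∑ i ∈ Finset.univ, G i s) := by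
      funext s
      rw [Fintype.sum_prod_type]
      have h10 : ∑ i, ∑ j, G i s * G' j s = (∑ i, G i s) * ∑ j, G' j s := by
        rw [Finset.sum_mul_sum]
      simp only at h10 ⊢
      rw [h10]
      ring
    rw [h9]
    exact h8

end H12Z
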