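import Pool.Agent.Lib.H12Z.Defs
import Pool.Agent.Lib.H12Z.D2

/-! # H12Z, chunk D2B (M): products in the class `Dec` -/

namespace H12Z

theorem d2b_zero (N : ℝ) {g : ℂ → ℂ} (hg : ∀ s, g s = 0) : Tiny N g := by
  refine ⟨1, one_pos, 0, 0, fun s _ => ?_⟩
  rw [hg, norm_zero, zero_mul]

theorem d2b_bd {ξ : ℂ} (hξ : ξ.re < 0 ∨ ξ = 0) (c : ℂ) : Tiny 0 (fun s => c * Complex.exp (ξ * s)) := by
  rcases hξ with hξ | rfl
  · have h1 : 0 < |ξ.im| + 1 := by positivity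
    refine ⟨-ξ.re / (|ξ.im| + 1), div_pos (neg_pos.2 hξ) h1, 0, ‖c‖, fun s hs => ?_⟩
    obtain ⟨h2, h3⟩ := hs
    rw [neg_zero, zero_mul, Real.exp_zero, mul_one, norm_mul]
    refine mul_le_of_le_one_right (norm_nonneg c) ?_
    rw [Complex.norm_exp, Real.exp_le_one_iff, Complex.mul_re]
    have h4 : (|ξ.im| + 1) * |s.im| ≤ -ξ.re * s.re := by
      have h5 : (|ξ.im| + 1) * |s.im| ≤ (|ξ.im| + 1) * (-ξ.re / (|ξ.im| + 1) * s.re) :=
        mul_le_mul_of_nonneg_left h2.le h1.le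
      have h6 : (|ξ.im| + 1) * (-ξ.re / (|ξ.im| + 1) * s.re) = -ξ.re * s.re := by
        rw [← mul_assoc, mul_div_cancel₀ _ h1.ne']
      rw [h6] at h5
      exact h5
    have h7 : -(ξ.im * s.im) ≤ |ξ.im| * |s.im| := by
      rw [← abs_mul]
      exact neg_le_abs _
    have h8 : 0 ≤ |s.im| := abs_nonneg _
    nlinarith
  · refine ⟨1, one_pos, 0, ‖c‖, fun s _ => ?_⟩
    show ‖c * Complex.exp (0 * s)‖ ≤ ‖c‖ * Real.exp (-0 * ‖s‖)
    rw [zero_mul, Complex.exp_zero, mul_one, neg_zero, zero_mul, Real.exp_zero, mul_one]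

/-- (D2b, S) PROOF. One piece, `w = exp (ξ Q)`, `sh Q w = 0`. If `ξ.re < 0`, then `|exp (ξ s)| = exp (ξ.re s.re - ξ.im s.im)`
is at most `1` on `Co ε 0` with `ε |ξ.im| ≤ -ξ.re`. -/
theorem Dec.exp {Q : ℂ} {N : ℝ} {ξ : ℂ} (hξ : ξ.re < 0 ∨ ξ = 0) (c : ℂ) :
    Dec Q N (fun s => c * Complex.exp (ξ * s)) := by
  refine ⟨Unit, inferInstance, fun _ => Complex.exp (ξ * Q), fun _ s => c * Complex.exp (ξ * s),
    fun _ => Complex.exp_ne_zero _, fun _ => d2b_bd hξ c, fun _ => d2b_zero N fun s => ?_,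
    d2b_zero N fun s => ?_⟩
  · show c * Complex.exp (ξ * (s + Q)) - Complex.exp (ξ * Q) * (c * Complex.exp (ξ * s)) = 0
    rw [mul_add, Complex.exp_add]
    ring
  · rw [Fintype.sum_unique, sub_self]

/-- (D2c, S) PROOF. Induction, `Dec.mul`; `g ^ 0 = 1 = 1 * exp (0 * s)`. -/
theorem Dec.pow {Q : ℂ} {N : ℝ} (hN : 0 ≤ N) {g : ℂ → ℂ} (hg : Dec Q N g) (k : ℕ) :
    Dec Q N (fun s => g s ^ k) := by
  induction k with
  | zero =>
    have h := Dec.exp (Q := Q) (N := N) (ξ := 0) (Or.inr rfl) 1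
    have h1 : (fun s => g s ^ 0) = fun s : ℂ => (1 : ℂ) * Complex.exp (0 * s) := by
      funext s
      rw [pow_zero, zero_mul, Complex.exp_zero, mul_one]
    rw [h1]
    exact h
  | succ k ih =>
    have h1 : (fun s => g s ^ (k + 1)) = fun s => g s ^ k * g s := by
      funext s
      rw [pow_succ]
    rw [h1]
    exact Dec.mul hN ih hg

end H12Z
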