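import Pool.Agent.Lib.H12Z.Defs
import Pool.Agent.Lib.H12Z.D2B

/-! # H12Z, chunk D3 (M): exponentials of functions in the class `Dec` -/

namespace H12Z

/-- (D3, M) PROOF. `T = O (exp (-κ ‖s‖))`; let `K ≥ 1` with `K κ ≥ N`. For `‖T‖ ≤ B`:
`‖exp T - ∑ k < K, T ^ k / k!‖ ≤ ‖T‖ ^ K * exp B` (`Complex.norm_exp_sub_sum_le_norm_mul_exp` or a similar lemma), which
is `Tiny (K κ)`, hence `Tiny N`. `Dec.pow`, `Dec.sum`, `Dec.congr`. -/
theorem Dec.exp_comp {Q : ℂ} {N κ : ℝ} (hN : 0 ≤ N) (hκ : 0 < κ) {T : ℂ → ℂ} (hT : Dec Q N T)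
    (hT1 : Tiny κ T) : Dec Q N (fun s => Complex.exp (T s)) := by
  obtain ⟨K, hK⟩ := exists_nat_ge (N / κ)
  have hK' : N ≤ (K : ℝ) * κ := (div_le_iff₀ hκ).1 hK
  have hsum : Dec Q N (fun s => ∑ k ∈ Finset.range K, T s ^ k / (k.factorial : ℂ)) := by
    refine Dec.sum (Finset.range K) (g := fun k s => T s ^ k / (k.factorial : ℂ)) ?_
    intro k _
    have h1 := Dec.mul hN (Dec.pow hN hT k)
      (Dec.exp (Q := Q) (N := N) (ξ := 0) (Or.inr rfl) (1 / (k.factorial : ℂ)))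
    have h2 : (fun s => T s ^ k * (1 / (k.factorial : ℂ) * Complex.exp (0 * s))) =
        (fun s => T s ^ k / (k.factorial : ℂ)) := by
      funext s
      rw [zero_mul, Complex.exp_zero, mul_one, mul_one_div]
    rw [h2] at h1
    exact h1
  refine Dec.congr hsum ?_
  obtain ⟨ε, hε, R, C, hC⟩ := hT1
  refine ⟨ε, hε, R, |C| ^ K * Real.exp |C|, ?_⟩
  intro s hs
  have h1 : ‖T s‖ ≤ |C| * Real.exp (-κ * ‖s‖) :=
    (hC s hs).trans (mul_le_mul_of_nonneg_right (le_abs_self C) (Real.exp_pos _).le)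
  have h2 : Real.exp (-κ * ‖s‖) ≤ 1 := by
    rw [Real.exp_le_one_iff]
    have := mul_nonneg hκ.le (norm_nonneg s)
    linarith
  have h3 : ‖T s‖ ≤ |C| := h1.trans (by
    have := mul_le_mul_of_nonneg_left h2 (abs_nonneg C)
    linarith)
  have h4 := Complex.norm_exp_sub_sum_le_norm_mul_exp (T s) K
  refine h4.trans ?_
  have h5 : ‖T s‖ ^ K ≤ |C| ^ K * Real.exp (-N * ‖s‖) := by
    calc ‖T s‖ ^ K ≤ (|C| * Real.exp (-κ * ‖s‖)) ^ K := pow_le_pow_left₀ (norm_nonneg _) h1 K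
      _ = |C| ^ K * Real.exp ((K : ℝ) * (-κ * ‖s‖)) := by rw [mul_pow, ← Real.exp_nat_mul]
      _ ≤ |C| ^ K * Real.exp (-N * ‖s‖) := by
        refine mul_le_mul_of_nonneg_left (Real.exp_le_exp.2 ?_) (pow_nonneg (abs_nonneg C) K)
        have := mul_le_mul_of_nonneg_right hK' (norm_nonneg s)
        nlinarith
  have h6 : Real.exp ‖T s‖ ≤ Real.exp |C| := Real.exp_le_exp.2 h3
  calc ‖T s‖ ^ K * Real.exp ‖T s‖ ≤ (|C| ^ K * Real.exp (-N * ‖s‖)) * Real.exp |C| :=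
        mul_le_mul h5 h6 (Real.exp_pos _).le
          (mul_nonneg (pow_nonneg (abs_nonneg C) K) (Real.exp_pos _).le)
    _ = |C| ^ K * Real.exp |C| * Real.exp (-N * ‖s‖) := by ring

end H12Z
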