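import Pool.Agent.Lib.H12Z.Defs
import Pool.Agent.Lib.H12L.C4

/-! # H12Z, chunk D6 (M): entire functions of exponential type with strong decay on a ray -/

namespace H12Z

open H12L

theorem d6_ray {G : ℂ → ℂ} {C τ N : ℝ} (hτ : 0 ≤ τ) (hN : τ < N)
    (hb : ∀ z, ‖G z‖ ≤ C * Real.exp (τ * ‖z‖)) (ht : Tiny N G) :
    ∃ D : ℝ, C ≤ D ∧ ∀ x : ℝ, 0 ≤ x → ‖G x‖ ≤ D * Real.exp (-N * x) := by
  obtain ⟨ε, hε, R, C₁, h⟩ := ht
  have hC0 : 0 ≤ C := nonneg_of_mul_nonneg_left ((norm_nonneg _).trans (hb 0)) (Real.exp_pos _)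
  have hN0 : 0 < N := lt_of_le_of_lt hτ hN
  obtain ⟨R₀, hR₀⟩ : ∃ R₀ : ℝ, R₀ = max R 0 := ⟨_, rfl⟩
  have hR0 : 0 ≤ R₀ := hR₀ ▸ le_max_right _ _
  have hR1 : R ≤ R₀ := hR₀ ▸ le_max_left _ _
  refine ⟨max (max |C₁| (C * Real.exp ((τ + N) * R₀))) C, le_max_right _ _, fun x hx => ?_⟩
  have hnx : ‖(x : ℂ)‖ = x := by
    rw [Complex.norm_real, Real.norm_eq_abs, abs_of_nonneg hx]
  rcases lt_or_ge R₀ x with h1 | h1
  · have h2 : (x : ℂ) ∈ Co ε R := by
      rw [mem_Co, Complex.ofReal_im, Complex.ofReal_re, abs_zero]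
      exact ⟨mul_pos hε (lt_of_le_of_lt hR0 h1), lt_of_le_of_lt hR1 h1⟩
    have h3 := h x h2
    rw [hnx] at h3
    refine h3.trans (mul_le_mul_of_nonneg_right ?_ (Real.exp_pos _).le)
    exact (le_abs_self _).trans ((le_max_left _ _).trans (le_max_left _ _))
  · have h3 := hb x
    rw [hnx] at h3
    have h4 : C * Real.exp (τ * x) ≤ C * Real.exp ((τ + N) * R₀) * Real.exp (-N * x) := by
      rw [mul_assoc, ← Real.exp_add]
      refine mul_le_mul_of_nonneg_left (Real.exp_le_exp.2 ?_) hC0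
      nlinarith
    refine h3.trans (h4.trans (mul_le_mul_of_nonneg_right ?_ (Real.exp_pos _).le))
    exact (le_max_right _ _).trans (le_max_left _ _)

/-- (D6, M) PROOF. `σ = (N + τ) / 2`, `η = (N - τ) / 2 > 0`. On the positive real axis `‖G x‖ ≤ C' exp (-N x)` (for `x > R` by
`Tiny`, where the points `x > max R 0` are in the cone and `‖x‖ = x`; for `0 ≤ x ≤ R` by the bound of `G`, enlarging the
constant). `G₃ z = G (i z) * exp (σ i z)`. For real `x`: `‖G₃ x‖ ≤ C exp (τ |x|)`. For `z = i y`: `i z = -y` and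
`‖G₃ (i y)‖ = ‖G (-y)‖ exp (-σ y) ≤ C'' exp (-η |y|)`: for `y < 0` by the decay, `-N |y| + σ |y| = -η |y|`, for `y > 0`
`τ y - σ y = -η y`. `quadrants` (`H12L/C3.lean`, with `M = τ + σ`), then `zero_of_decay` (`H12L/C4.lean`): `G₃ = 0`. -/
theorem zero_of_tiny {G : ℂ → ℂ} (hG : Differentiable ℂ G) {C τ N : ℝ} (hτ : 0 ≤ τ)
    (hN : τ < N) (hb : ∀ z, ‖G z‖ ≤ C * Real.exp (τ * ‖z‖)) (ht : Tiny N G) (z : ℂ) : G z = 0 := by
  obtain ⟨D, hCD, hD⟩ := d6_ray hτ hN hb ht
  have hC0 : 0 ≤ C := nonneg_of_mul_nonneg_left ((norm_nonneg _).trans (hb 0)) (Real.exp_pos _)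
  have hD0 : 0 ≤ D := hC0.trans hCD
  obtain ⟨σ, hσ⟩ : ∃ σ : ℝ, σ = (N + τ) / 2 := ⟨_, rfl⟩
  obtain ⟨η, hη⟩ : ∃ η : ℝ, η = (N - τ) / 2 := ⟨_, rfl⟩
  have hη0 : 0 < η := by linarith
  have hσ0 : 0 ≤ σ := by linarith
  obtain ⟨G₃, hG₃⟩ : ∃ G₃ : ℂ → ℂ, ∀ w, G₃ w = G (Complex.I * w) * Complex.exp (σ * Complex.I * w) :=
    ⟨fun w => G (Complex.I * w) * Complex.exp (σ * Complex.I * w), fun w => rfl⟩
  have hdiff : Differentiable ℂ G₃ := by
    have h1 : G₃ = fun w => G (Complex.I * w) * Complex.exp (σ * Complex.I * w) := funext hG₃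
    rw [h1]
    have h2 : Differentiable ℂ fun w : ℂ => Complex.I * w := by fun_prop
    have h3 : Differentiable ℂ fun w : ℂ => Complex.exp (σ * Complex.I * w) := by fun_prop
    exact (hG.comp h2).mul h3
  have hnI : ∀ w : ℂ, ‖Complex.I * w‖ = ‖w‖ := fun w => by
    rw [norm_mul, Complex.norm_I, one_mul]
  have hexp : ∀ w, ‖G₃ w‖ ≤ C * Real.exp ((τ + σ) * ‖w‖) := by
    intro w
    rw [hG₃, norm_mul, Complex.norm_exp]
    have h1 := hb (Complex.I * w)
    rw [hnI] at h1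
    have h2 : (σ * Complex.I * w).re ≤ σ * ‖w‖ := by
      have h3 : (σ * Complex.I * w).re = -(σ * w.im) := by
        rw [mul_assoc, Complex.re_ofReal_mul, Complex.I_mul_re]
        ring
      rw [h3]
      have h4 := (neg_le_abs w.im).trans (Complex.abs_im_le_norm w)
      nlinarith
    rw [add_mul, Real.exp_add, ← mul_assoc]
    exact mul_le_mul h1 (Real.exp_le_exp.2 h2) (Real.exp_pos _).le
      (mul_nonneg hC0 (Real.exp_pos _).le)
  have hre : ∀ x : ℝ, ‖G₃ x‖ ≤ D * Real.exp (τ * |x|) := by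
    intro x
    rw [hG₃, norm_mul, Complex.norm_exp]
    have h1 := hb (Complex.I * x)
    rw [hnI, Complex.norm_real, Real.norm_eq_abs] at h1
    have h3 : (σ * Complex.I * (x : ℂ)).re = 0 := by
      rw [mul_assoc, Complex.re_ofReal_mul, Complex.I_mul_re, Complex.ofReal_im]
      ring
    rw [h3, Real.exp_zero, mul_one]
    exact h1.trans (mul_le_mul_of_nonneg_right hCD (Real.exp_pos _).le)
  have him : ∀ y : ℝ, ‖G₃ (y * Complex.I)‖ ≤ D * Real.exp (-η * |y|) := by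
    intro y
    have e1 : Complex.I * (y * Complex.I) = ((-y : ℝ) : ℂ) := by
      rw [mul_left_comm, Complex.I_mul_I]
      push_cast
      ring
    have e2 : (σ * Complex.I * (y * Complex.I)).re = -(σ * y) := by
      rw [mul_assoc, e1, Complex.re_ofReal_mul, Complex.ofReal_re]
      ring
    rw [hG₃, norm_mul, Complex.norm_exp, e1, e2]
    rcases le_or_gt y 0 with hy | hy
    · have h1 := hD (-y) (by linarith)
      rw [abs_of_nonpos hy]
      have h2 : D * Real.exp (-N * -y) * Real.exp (-(σ * y)) = D * Real.exp (-η * -y) := by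
        rw [mul_assoc, ← Real.exp_add]
        congr 2
        rw [hσ, hη]
        ring
      rw [← h2]
      exact mul_le_mul_of_nonneg_right h1 (Real.exp_pos _).le
    · have h1 := hb ((-y : ℝ) : ℂ)
      rw [Complex.norm_real, Real.norm_eq_abs, abs_neg, abs_of_pos hy] at h1
      rw [abs_of_pos hy]
      have h2 : C * Real.exp (τ * y) * Real.exp (-(σ * y)) = C * Real.exp (-η * y) := by
        rw [mul_assoc, ← Real.exp_add]
        congr 2
        rw [hσ, hη]
        ring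
      refine (mul_le_mul_of_nonneg_right h1 (Real.exp_pos _).le).trans ?_
      rw [h2]
      exact mul_le_mul_of_nonneg_right hCD (Real.exp_pos _).le
  have hq := fun w => quadrants hdiff hexp hre him w
  have hz := zero_of_decay hdiff hD0 hη0 hq (-Complex.I * z)
  rw [hG₃] at hz
  have e3 : Complex.I * (-Complex.I * z) = z := by
    rw [← mul_assoc, mul_neg, Complex.I_mul_I, neg_neg, one_mul]
  rw [e3] at hz
  exact (mul_eq_zero.1 hz).resolve_right (Complex.exp_ne_zero _)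

end H12Z
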