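import Pool.Agent.Lib.H12L.X3

/-!
# H12Z: finite Gabor sums are determined by lattice samples among all of `L²` (MP_ec7a01_an)

Overview and complete proof: `PROOF.md`.
-/

namespace H12Z

open MeasureTheory ComplexConjugate H12S H12G H12L

/-- `exp (-π z ^ 2 / 2) * Psi f z` -/
noncomputable def FF (f : ℝ → ℂ) (z : ℂ) : ℂ := Complex.exp (-(Real.pi * z ^ 2 / 2)) * Psi f z

/-- `H 0 = 0` and `H` is Lipschitz with constant `τ` -/
def Lip (τ : ℝ) (H : ℂ → ℝ) : Prop := H 0 = 0 ∧ ∀ z w : ℂ, H z ≤ H w + τ * ‖z - w‖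

/-- the weight `inf_{‖w‖ ≤ R} (H w + 4 ‖z - w‖ ^ 2)` -/
noncomputable def wtH (H : ℂ → ℝ) (R : ℝ) (z : ℂ) : ℝ :=
  sInf ((fun w : ℂ => H w + 4 * ‖z - w‖ ^ 2) '' Metric.closedBall 0 R)

/-- the support function of the exponents -/
noncomputable def supp {n : ℕ} (ζ : Fin n → ℂ) (z : ℂ) : ℝ := ⨆ i, (ζ i * z).re

/-- the truncated cone `|Im s| < ε Re s`, `Re s > R` -/
def Co (ε R : ℝ) : Set ℂ := {s : ℂ | |s.im| < ε * s.re ∧ R < s.re}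

/-- `g = O (exp (-N ‖s‖))` on a truncated cone around the positive real axis -/
def Tiny (N : ℝ) (g : ℂ → ℂ) : Prop :=
  ∃ ε > 0, ∃ R C : ℝ, ∀ s ∈ Co ε R, ‖g s‖ ≤ C * Real.exp (-N * ‖s‖)

/-- `g (z + Q) - w * g z` -/
def sh (Q w : ℂ) (g : ℂ → ℂ) : ℂ → ℂ := fun z => g (z + Q) - w * g z

/-- the product of the operators `sh Q w`, `w ∈ ws` -/
def ops (Q : ℂ) (ws : List ℂ) (g : ℂ → ℂ) : ℂ → ℂ := ws.foldr (fun w g => sh Q w g) g

/-- `g` is, up to `O (exp (-N ‖s‖))`, a finite sum of bounded functions `G i` with `G i (s + Q) = w i * G i s` up to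
`O (exp (-N ‖s‖))` -/
def Dec (Q : ℂ) (N : ℝ) (g : ℂ → ℂ) : Prop :=
  ∃ (ι : Type) (_ : Fintype ι) (w : ι → ℂ) (G : ι → ℂ → ℂ), (∀ i, w i ≠ 0) ∧ (∀ i, Tiny 0 (G i)) ∧
    (∀ i, Tiny N (sh Q (w i) (G i))) ∧ Tiny N (fun s => g s - ∑ i, G i s)

/-- operators on families of functions -/
def dop (a c : ℂ) (g : ℕ → ℂ → ℂ) : ℕ → ℂ → ℂ := fun n s => g (n + 1) s - c * g n (s + a)

/-- products of the operators `dop` -/
def dops (L : List (ℂ × ℂ)) (g : ℕ → ℂ → ℂ) : ℕ → ℂ → ℂ :=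
  L.foldr (fun x g => dop x.1 x.2 g) g

/-- `conj (T (conj s))` -/
noncomputable def Ts (T : ℂ → ℂ) (s : ℂ) : ℂ := conj (T (conj s))

/-- `T (s + n η) + Ts T (s + n (conj η))`; at integers `s` this is `2 Re T (s + n η)` -/
noncomputable def EE (T : ℂ → ℂ) (η : ℂ) (n : ℕ) (s : ℂ) : ℂ :=
  T (s + n * η) + Ts T (s + n * conj η)

/-- `T` is analytic and bounded on `Co ε R` and imaginary at the points `j + k η` of `Co ε R` -/
def ImagOn (η : ℂ) (ε R : ℝ) (T : ℂ → ℂ) : Prop :=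
  DifferentiableOn ℂ T (Co ε R) ∧ (∃ B : ℝ, ∀ s ∈ Co ε R, ‖T s‖ ≤ B) ∧
    ∀ j k : ℤ, (j + k * η : ℂ) ∈ Co ε R → (T (j + k * η)).re = 0

/-- nodes `exp (-2 π i j a)` for `|j| ≤ K` -/
noncomputable def nodes (a : ℂ) (K : ℕ) : List ℂ :=
  (List.range (2 * K + 1)).map fun i =>
    Complex.exp (-2 * Real.pi * Complex.I * ((i : ℂ) - K) * a)

theorem mem_Co {ε R : ℝ} {s : ℂ} : s ∈ Co ε R ↔ |s.im| < ε * s.re ∧ R < s.re := Iff.rfl

end H12Z
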