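import Pool.Agent.Lib.H12Z.Defs

/-! # H12Z, chunk N1 (M): normal form of exponential sums -/

namespace H12Z

open H12G

/-- (N1, M) PROOF. `Finset.sum_fiberwise_of_maps_to` over `Finset.univ.image ζ`:
`ex c ζ z = ∑ x ∈ image, (∑ i with ζ i = x, c i) * exp (x * z)`; remove the `x` with zero coefficient
(`Finset.sum_filter_ne_zero` or `Finset.sum_subset`); `Finset.equivFin` and `Equiv.sum_comp`. (Or induction on `n`.) -/
theorem normal_form {n : ℕ} (c ζ : Fin n → ℂ) :
    ∃ (m : ℕ) (c' ζ' : Fin m → ℂ), Function.Injective ζ' ∧ (∀ i, c' i ≠ 0) ∧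
      ∀ z, ex c ζ z = ex c' ζ' z := by
  classical
  set S : Finset ℂ := (Finset.univ.image ζ).filter
    (fun x => (∑ i ∈ Finset.univ.filter (fun i => ζ i = x), c i) ≠ 0) with hS
  refine ⟨S.card, fun i => ∑ j ∈ Finset.univ.filter (fun j => ζ j = (S.equivFin.symm i : ℂ)), c j,
    fun i => (S.equivFin.symm i : ℂ), ?_, ?_, ?_⟩
  · intro i j h
    exact S.equivFin.symm.injective (Subtype.ext h)
  · intro i
    have hmem : ∀ x ∈ S, (∑ i ∈ Finset.univ.filter (fun i => ζ i = x), c i) ≠ 0 := by
      intro x hx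
      rw [hS] at hx
      exact (Finset.mem_filter.1 hx).2
    exact hmem _ (S.equivFin.symm i).2
  · intro z
    unfold ex
    have h1 : ∑ i, c i * Complex.exp (ζ i * z) =
        ∑ x ∈ Finset.univ.image ζ, ∑ i ∈ Finset.univ.filter (fun i => ζ i = x),
          c i * Complex.exp (ζ i * z) :=
      (Finset.sum_fiberwise_of_maps_to (fun i _ => Finset.mem_image_of_mem ζ (Finset.mem_univ i))
        _).symm
    have h2 : ∀ x : ℂ, ∑ i ∈ Finset.univ.filter (fun i => ζ i = x),
        c i * Complex.exp (ζ i * z) =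
        (∑ i ∈ Finset.univ.filter (fun i => ζ i = x), c i) * Complex.exp (x * z) := by
      intro x
      rw [Finset.sum_mul]
      refine Finset.sum_congr rfl fun i hi => ?_
      rw [(Finset.mem_filter.1 hi).2]
    rw [h1, Finset.sum_congr rfl fun x _ => h2 x]
    have h3 : ∑ x ∈ Finset.univ.image ζ,
        (∑ i ∈ Finset.univ.filter (fun i => ζ i = x), c i) * Complex.exp (x * z) =
        ∑ x ∈ S, (∑ i ∈ Finset.univ.filter (fun i => ζ i = x), c i) * Complex.exp (x * z) := by
      rw [hS]
      refine (Finset.sum_subset (Finset.filter_subset _ _) ?_).symm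
      intro x hx hx'
      have h4 : (∑ i ∈ Finset.univ.filter (fun i => ζ i = x), c i) = 0 := by
        by_contra h5
        exact hx' (Finset.mem_filter.2 ⟨hx, h5⟩)
      rw [h4, zero_mul]
    rw [h3, ← Finset.sum_coe_sort S]
    exact (Equiv.sum_comp S.equivFin.symm
      (fun x : S => (∑ i ∈ Finset.univ.filter (fun i => ζ i = (x : ℂ)), c i) *
        Complex.exp ((x : ℂ) * z))).symm

end H12Z
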