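import Pool.Agent.Lib.H12Z.Defs

/-! # H12Z, chunk N2 (S/M): an exposed exponent -/

namespace H12Z

/-- (N2, S/M) PROOF. Let `ζ v` have the largest norm (`Finite.exists_max`). If `ζ v = 0`, all `ζ i` are `0`, so there is
only the index `v` (injectivity) and `e = 1` works. Otherwise `e = conj (ζ v) / ‖ζ v‖`: `(ζ v * e).re = ‖ζ v‖` and for
`i ≠ v` `(ζ i * e).re ≤ ‖ζ i‖ ≤ ‖ζ v‖`; equality forces `ζ i * conj (ζ v) = ‖ζ v‖ ^ 2` (a complex number with
`re = norm` is real), so `ζ i = ζ v`, a contradiction. -/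
theorem exists_exposed {m : ℕ} (hm : 0 < m) {ζ : Fin m → ℂ} (hζ : Function.Injective ζ) :
    ∃ (v : Fin m) (e : ℂ), ‖e‖ = 1 ∧ ∀ i, i ≠ v → 0 < ((ζ v - ζ i) * e).re := by
  haveI : Nonempty (Fin m) := ⟨⟨0, hm⟩⟩
  obtain ⟨v, hv⟩ := Finite.exists_max (fun i => ‖ζ i‖)
  by_cases h0 : ζ v = 0
  · refine ⟨v, 1, by simp, fun i hi => ?_⟩
    exfalso
    have h1 : ‖ζ i‖ ≤ ‖ζ v‖ := hv i
    rw [h0, norm_zero] at h1
    have h2 : ζ i = 0 := norm_le_zero_iff.mp h1
    exact hi (hζ (h2.trans h0.symm))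
  · have hr : 0 < ‖ζ v‖ := norm_pos_iff.mpr h0
    refine ⟨v, (starRingEnd ℂ) (ζ v) / (‖ζ v‖ : ℂ), ?_, fun i hi => ?_⟩
    · rw [norm_div, RCLike.norm_conj, Complex.norm_real, norm_norm, div_self hr.ne']
    · have hne : ζ v - ζ i ≠ 0 := fun h => hi (hζ (sub_eq_zero.mp h)).symm
      have h1 : 0 < Complex.normSq (ζ v - ζ i) := Complex.normSq_pos.mpr hne
      have h2 : Complex.normSq (ζ i) ≤ Complex.normSq (ζ v) := by
        rw [Complex.normSq_eq_norm_sq, Complex.normSq_eq_norm_sq]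
        exact pow_le_pow_left₀ (norm_nonneg _) (hv i) 2
      have h3 : ((ζ v - ζ i) * ((starRingEnd ℂ) (ζ v) / (‖ζ v‖ : ℂ))).re
          = ((ζ v - ζ i) * (starRingEnd ℂ) (ζ v)).re / ‖ζ v‖ := by
        rw [← mul_div_assoc, Complex.div_ofReal_re]
      rw [h3]
      apply div_pos _ hr
      rw [Complex.normSq_apply] at h1 h2
      rw [Complex.normSq_apply] at h2
      simp only [Complex.mul_re, Complex.sub_re, Complex.sub_im, Complex.conj_re, Complex.conj_im] at *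
      nlinarith

end H12Z
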