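import Pool.Agent.Lib.H12Z.Defs

/-! # H12Z, chunk N3 (M): two lattice vectors in a cone -/

namespace H12Z

theorem n3_min (S : Finset ℂ) {e : ℂ} (he : ∀ ξ ∈ S, 0 < (ξ * e).re) :
    ∃ δ : ℝ, 0 < δ ∧ ∀ ξ ∈ S, δ ≤ (ξ * e).re := by
  rcases S.eq_empty_or_nonempty with h | h
  · exact ⟨1, one_pos, by simp [h]⟩
  · obtain ⟨x, hx, hmin⟩ := S.exists_min_image (fun ξ => (ξ * e).re) h
    exact ⟨(x * e).re, he x hx, fun ξ hξ => hmin ξ hξ⟩

theorem n3_max (S : Finset ℂ) : ∃ M : ℝ, 0 ≤ M ∧ ∀ ξ ∈ S, ‖ξ‖ ≤ M :=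
  ⟨∑ ξ ∈ S, ‖ξ‖, Finset.sum_nonneg fun _ _ => norm_nonneg _,
    fun ξ hξ => Finset.single_le_sum (f := fun ξ : ℂ => ‖ξ‖) (fun _ _ => norm_nonneg _) hξ⟩

theorem n3_key (r k : ℝ) (e x y : ℂ) (he : e.re * e.re + e.im * e.im = 1) :
    ((r : ℂ) * e + x).re * ((r : ℂ) * e + k * Complex.I * e + y).im -
      ((r : ℂ) * e + x).im * ((r : ℂ) * e + k * Complex.I * e + y).re =
      r * k + r * (starRingEnd ℂ e * y).im + r * (starRingEnd ℂ x * e).im +
        (starRingEnd ℂ x * (k * Complex.I * e + y)).im := by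
  simp only [Complex.add_re, Complex.add_im, Complex.mul_re, Complex.mul_im, Complex.ofReal_re,
    Complex.ofReal_im, Complex.I_re, Complex.I_im, Complex.conj_re, Complex.conj_im]
  linear_combination (r * k) * he

theorem n3_im (z w : ℂ) {A B : ℝ} (hz : ‖z‖ ≤ A) (hw : ‖w‖ ≤ B) :
    -(A * B) ≤ (starRingEnd ℂ z * w).im := by
  have h1 : ‖starRingEnd ℂ z * w‖ ≤ A * B := by
    rw [norm_mul, Complex.norm_conj]
    exact mul_le_mul hz hw (norm_nonneg _) ((norm_nonneg _).trans hz)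
  have h2 := Complex.abs_im_le_norm (starRingEnd ℂ z * w)
  have h3 := neg_abs_le (starRingEnd ℂ z * w).im
  linarith

theorem n3_re (z w : ℂ) {A B : ℝ} (hz : ‖z‖ ≤ A) (hw : ‖w‖ ≤ B) :
    -(A * B) ≤ (z * w).re := by
  have h1 : ‖z * w‖ ≤ A * B := by
    rw [norm_mul]
    exact mul_le_mul hz hw (norm_nonneg _) ((norm_nonneg _).trans hz)
  have h2 := Complex.abs_re_le_norm (z * w)
  have h3 := neg_abs_le (z * w).re
  linarith

/-- (N3, M) PROOF. There are `δ > 0` with `δ ≤ (ξ * e).re` and `M ≥ ‖ξ‖` for all `ξ ∈ S`. Let `p` be a lattice point with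
`‖p - r e‖ ≤ ρ` and `q` one with `‖q - (r e + k i e)‖ ≤ ρ`, `k = 2 ρ + 1`, `r` large. Then
`(ξ p).re ≥ r δ - M ρ > 0` and `(ξ q).re ≥ r δ - M (k + ρ) > 0`. With `p = r e + x`, `q = r e + k i e + y`,
`Im (conj p * q) = r k + r Im (conj e y) + r Im (conj x e) + Im (conj x (k i e + y)) ≥ r (k - 2 ρ) - ρ (k + ρ) > 0`
(`‖e‖ = 1`), and `Im (conj p * q) = p.re q.im - p.im q.re`. -/
theorem exists_pair {u v : ℂ} {ρ : ℝ} (hρ : 0 ≤ ρ)
    (hd : ∀ z : ℂ, ∃ m n : ℤ, ‖(m * u + n * v) - z‖ ≤ ρ) (S : Finset ℂ) {e : ℂ} (he1 : ‖e‖ = 1)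
    (he : ∀ ξ ∈ S, 0 < (ξ * e).re) :
    ∃ p q : ℂ, (∃ m n : ℤ, p = m * u + n * v) ∧ (∃ m n : ℤ, q = m * u + n * v) ∧
      (∀ ξ ∈ S, 0 < (ξ * p).re) ∧ (∀ ξ ∈ S, 0 < (ξ * q).re) ∧
      p.re * q.im - p.im * q.re ≠ 0 := by
  obtain ⟨δ, hδ, hδS⟩ := n3_min S he
  obtain ⟨M, hM, hMS⟩ := n3_max S
  set k : ℝ := 2 * ρ + 1 with hk
  have hk0 : 0 ≤ k := by rw [hk]; linarith
  have hkρ : 0 ≤ k + ρ := by linarith
  set r : ℝ := (M * (k + ρ) + 1) / δ + ρ * (k + ρ) + 1 with hr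
  have hA0 : 0 ≤ (M * (k + ρ) + 1) / δ := by positivity
  have hB0 : 0 ≤ ρ * (k + ρ) := by positivity
  have hr1 : ρ * (k + ρ) < r := by rw [hr]; linarith
  have hr0 : 0 ≤ r := by linarith
  have hrδ : M * (k + ρ) < r * δ := by
    have h1 : (M * (k + ρ) + 1) / δ * δ = M * (k + ρ) + 1 := by field_simp
    have h2 : r * δ = (M * (k + ρ) + 1) / δ * δ + (ρ * (k + ρ) + 1) * δ := by rw [hr]; ring
    have h3 : 0 ≤ (ρ * (k + ρ) + 1) * δ := by positivity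
    linarith
  obtain ⟨m, n, hp⟩ := hd ((r : ℂ) * e)
  obtain ⟨m', n', hq⟩ := hd ((r : ℂ) * e + k * Complex.I * e)
  set p : ℂ := m * u + n * v with hpdef
  set q : ℂ := m' * u + n' * v with hqdef
  set x : ℂ := p - (r : ℂ) * e with hx
  set y : ℂ := q - ((r : ℂ) * e + k * Complex.I * e) with hy
  have hpx : p = (r : ℂ) * e + x := by rw [hx]; ring
  have hqy : q = (r : ℂ) * e + k * Complex.I * e + y := by rw [hy]; ring
  have hkI : ‖(k : ℂ) * Complex.I * e‖ ≤ k := by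
    rw [norm_mul, norm_mul, Complex.norm_real, Complex.norm_I, he1, Real.norm_of_nonneg hk0]
    linarith
  have hky : ‖(k : ℂ) * Complex.I * e + y‖ ≤ k + ρ :=
    (norm_add_le _ _).trans (add_le_add hkI hq)
  have hee : e.re * e.re + e.im * e.im = 1 := by
    have h1 := Complex.normSq_eq_norm_sq e
    rw [he1, Complex.normSq_apply] at h1
    linarith
  refine ⟨p, q, ⟨m, n, rfl⟩, ⟨m', n', rfl⟩, ?_, ?_, ?_⟩
  · intro ξ hξ
    have h1 : (ξ * p).re = r * (ξ * e).re + (ξ * x).re := by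
      rw [hpx, mul_add, Complex.add_re, show ξ * ((r : ℂ) * e) = (r : ℂ) * (ξ * e) from by ring,
        Complex.re_ofReal_mul]
    have h2 := n3_re ξ x (hMS ξ hξ) hp
    have h3 : r * δ ≤ r * (ξ * e).re := mul_le_mul_of_nonneg_left (hδS ξ hξ) hr0
    have h4 : M * ρ ≤ M * (k + ρ) := mul_le_mul_of_nonneg_left (by linarith) hM
    rw [h1]
    linarith
  · intro ξ hξ
    have h1 : (ξ * q).re = r * (ξ * e).re + (ξ * (k * Complex.I * e + y)).re := by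
      rw [hqy, show ξ * ((r : ℂ) * e + k * Complex.I * e + y) =
        (r : ℂ) * (ξ * e) + ξ * (k * Complex.I * e + y) from by ring, Complex.add_re,
        Complex.re_ofReal_mul]
    have h2 := n3_re ξ _ (hMS ξ hξ) hky
    have h3 : r * δ ≤ r * (ξ * e).re := mul_le_mul_of_nonneg_left (hδS ξ hξ) hr0
    rw [h1]
    linarith
  · have h1 := n3_key r k e x y hee
    rw [← hpx, ← hqy] at h1
    have h2 := n3_im e y he1.le hq
    have h3 := n3_im x e hp he1.le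
    have h4 := n3_im x _ hp hky
    have h5 : r * (-(1 * ρ)) ≤ r * (starRingEnd ℂ e * y).im := mul_le_mul_of_nonneg_left h2 hr0
    have h6 : r * (-(ρ * 1)) ≤ r * (starRingEnd ℂ x * e).im := mul_le_mul_of_nonneg_left h3 hr0
    have h7 : r * k = 2 * (r * ρ) + r := by rw [hk]; ring
    have h8 : 0 < p.re * q.im - p.im * q.re := by
      rw [h1]
      linarith
    exact h8.ne'

end H12Z
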