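import Pool.Agent.Lib.H12Z.Defs

/-! # H12Z, chunk P1 (S/M): Rolle -/

namespace H12Z

/-- (P1a, S/M) PROOF. `ψ t = ‖M (a + t (b - a))‖ ^ 2` has the derivative `2 Re (conj (M s) * deriv M s * (b - a))` at `t`,
`s = a + t (b - a) ∈ U`; Rolle's theorem (`exists_hasDerivAt_eq_zero` or `exists_deriv_eq_zero`), divide by
`‖M s‖ ^ 2`: `deriv M s / M s = conj (M s) deriv M s / ‖M s‖ ^ 2`. -/
theorem rolle {U : Set ℂ} (hU : Convex ℝ U) (hUo : IsOpen U) {M : ℂ → ℂ}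
    (hM : DifferentiableOn ℂ M U) (h0 : ∀ s ∈ U, M s ≠ 0) {a b : ℂ} (ha : a ∈ U) (hb : b ∈ U)
    (hab : ‖M a‖ = ‖M b‖) :
    ∃ t ∈ Set.Icc (0 : ℝ) 1, ((b - a) * (deriv M (a + t * (b - a)) / M (a + t * (b - a)))).re = 0 := by
  have hin : ∀ t ∈ Set.Icc (0 : ℝ) 1, a + (t : ℂ) * (b - a) ∈ U := by
    intro t ht
    have := hU.add_smul_sub_mem ha hb ht
    simpa using this
  have hc : ∀ t : ℝ, HasDerivAt (fun t : ℝ => a + (t : ℂ) * (b - a)) (b - a) t := by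
    intro t
    have h1 : HasDerivAt (fun t : ℝ => (t : ℂ)) 1 t := Complex.ofRealCLM.hasDerivAt
    have h2 := (h1.mul_const (b - a)).const_add a
    simpa using h2
  have hd : ∀ t ∈ Set.Icc (0 : ℝ) 1, HasDerivAt (fun t : ℝ => M (a + (t : ℂ) * (b - a)))
      ((b - a) * deriv M (a + (t : ℂ) * (b - a))) t := by
    intro t ht
    have h1 : HasDerivAt M (deriv M (a + (t : ℂ) * (b - a))) (a + (t : ℂ) * (b - a)) :=
      ((hM _ (hin t ht)).differentiableAt (hUo.mem_nhds (hin t ht))).hasDerivAt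
    have h2 := HasDerivAt.scomp (h := fun t : ℝ => a + (t : ℂ) * (b - a)) t h1 (hc t)
    simpa [Function.comp_def, smul_eq_mul] using h2
  have hd2 : ∀ t ∈ Set.Icc (0 : ℝ) 1, HasDerivAt (fun t : ℝ => ‖M (a + (t : ℂ) * (b - a))‖ ^ 2)
      (2 * inner ℝ (M (a + (t : ℂ) * (b - a))) ((b - a) * deriv M (a + (t : ℂ) * (b - a)))) t :=
    fun t ht => (hd t ht).norm_sq
  obtain ⟨t, ht, h⟩ := exists_hasDerivAt_eq_zero (f := fun t : ℝ => ‖M (a + (t : ℂ) * (b - a))‖ ^ 2)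
    (f' := fun t : ℝ => 2 * inner ℝ (M (a + (t : ℂ) * (b - a)))
      ((b - a) * deriv M (a + (t : ℂ) * (b - a)))) (zero_lt_one' ℝ)
    (fun t ht => (hd2 t ht).continuousAt.continuousWithinAt)
    (by simp [hab]) (fun t ht => hd2 t ⟨ht.1.le, ht.2.le⟩)
  have ht' : t ∈ Set.Icc (0 : ℝ) 1 := ⟨ht.1.le, ht.2.le⟩
  refine ⟨t, ht', ?_⟩
  set s := a + (t : ℂ) * (b - a) with hs
  have hne : M s ≠ 0 := h0 s (hin t ht')
  have h1 : (starRingEnd ℂ (M s) * ((b - a) * deriv M s)).re = 0 := by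
    have h2 : (2 : ℝ) * inner ℝ (M s) ((b - a) * deriv M s) = 0 := h
    rw [Complex.inner, mul_comm ((b - a) * deriv M s)] at h2
    linarith
  have hn : (M s) * starRingEnd ℂ (M s) = ((Complex.normSq (M s) : ℝ) : ℂ) := Complex.mul_conj _
  have hn0 : Complex.normSq (M s) ≠ 0 := by
    rw [Ne, Complex.normSq_eq_zero]; exact hne
  have e : (b - a) * (deriv M s / M s) =
      (((Complex.normSq (M s))⁻¹ : ℝ) : ℂ) * (starRingEnd ℂ (M s) * ((b - a) * deriv M s)) := by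
    have hn0' : ((Complex.normSq (M s) : ℝ) : ℂ) ≠ 0 := by exact_mod_cast hn0
    rw [Complex.ofReal_inv]
    field_simp
    rw [← hn]
    ring
  rw [e, Complex.re_ofReal_mul, h1, mul_zero]

end H12Z
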