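import Pool.Agent.Lib.H12Z.Defs
import Pool.Agent.Lib.H12Z.P1

/-! # H12Z, chunk P1B (S/M): Rolle -/

namespace H12Z

/-- (P1b, S) PROOF. `|(η x).re| = |η.re x.re - η.im x.im|`, so `|x.im| ≤ (δ + |η.re| δ) / |η.im|`. -/
theorem re_bound {η : ℂ} (hη : η.im ≠ 0) : ∃ C : ℝ, 0 < C ∧ ∀ (x : ℂ) (δ : ℝ), |x.re| ≤ δ →
    |(η * x).re| ≤ δ → ‖x‖ ≤ C * δ := by
  have hi : 0 < |η.im| := abs_pos.2 hη
  refine ⟨1 + (1 + |η.re|) / |η.im|, by positivity, ?_⟩
  intro x δ h1 h2
  rw [Complex.mul_re] at h2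
  have h3 : |η.im| * |x.im| ≤ δ + |η.re| * δ := by
    rw [← abs_mul]
    have h4 : η.im * x.im = η.re * x.re - (η.re * x.re - η.im * x.im) := by ring
    rw [h4]
    refine (abs_sub _ _).trans ?_
    rw [abs_mul]
    have := mul_le_mul_of_nonneg_left h1 (abs_nonneg η.re)
    linarith
  have h5 : |x.im| ≤ (1 + |η.re|) / |η.im| * δ := by
    rw [div_mul_eq_mul_div, le_div_iff₀ hi]
    linarith
  have h6 := Complex.norm_le_abs_re_add_abs_im x
  linarith

/-- (P1c, S) PROOF. `k = round (s.im / η.im)`, `j = round (s - k η).re`. -/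
theorem near_lattice {η : ℂ} (hη : η.im ≠ 0) (s : ℂ) :
    ∃ j k : ℤ, ‖(j + k * η : ℂ) - s‖ ≤ 1 + ‖η‖ := by
  set k : ℤ := round (s.im / η.im) with hk
  set j : ℤ := round (s - k * η).re with hj
  refine ⟨j, k, ?_⟩
  have h1 : |(s - k * η).re - j| ≤ 1 / 2 := abs_sub_round _
  have h2 : |s.im / η.im - k| ≤ 1 / 2 := abs_sub_round _
  have h3 : |((j : ℂ) + k * η - s).re| ≤ 1 / 2 := by
    rw [← abs_neg]
    have e : -((j : ℂ) + k * η - s).re = (s - k * η).re - j := by
      simp only [Complex.add_re, Complex.sub_re, Complex.intCast_re]; ring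
    rw [e]; exact h1
  have h4 : |((j : ℂ) + k * η - s).im| ≤ ‖η‖ := by
    have e : ((j : ℂ) + k * η - s).im = -(s.im / η.im - k) * η.im := by
      have : ((j : ℂ) + k * η - s).im = k * η.im - s.im := by
        simp only [Complex.add_im, Complex.sub_im, Complex.intCast_im, Complex.mul_im, Complex.intCast_re]; ring
      rw [this]; field_simp; ring
    rw [e, abs_mul, abs_neg]
    have h5 := Complex.abs_im_le_norm η
    have h6 := abs_nonneg η.im
    nlinarith [abs_nonneg (s.im / η.im - k)]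
  have h6 := Complex.norm_le_abs_re_add_abs_im ((j : ℂ) + k * η - s)
  linarith

end H12Z
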