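import Pool.Agent.Lib.H12Z.Defs
import Pool.Agent.Lib.H12Z.P1B
import Pool.Agent.Lib.H12Z.T1

/-! # H12Z, chunk P2 (M): one step -/

namespace H12Z

/-- for every lattice point `l = j + k η`, the real part of `ℓ` has a zero on `[l, l + 1]` and the real part of `η * ℓ` a zero
on `[l, l + η]` -/
def Roll (η : ℂ) (ε R : ℝ) (ℓ : ℂ → ℂ) : Prop :=
  ∀ j k : ℤ, (j + k * η : ℂ) ∈ Co ε R → (j + k * η + 1 : ℂ) ∈ Co ε R → (j + k * η + η : ℂ) ∈ Co ε R →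
    (∃ t ∈ Set.Icc (0 : ℝ) 1, (ℓ (j + k * η + t)).re = 0) ∧
    ∃ t ∈ Set.Icc (0 : ℝ) 1, (η * ℓ (j + k * η + t * η)).re = 0

/-- Cauchy: `ℓ` is Lipschitz on the half ball -/
theorem p2_lip {ℓ : ℂ → ℂ} {ε R : ℝ} (hd : DifferentiableOn ℂ ℓ (Co ε R)) {s : ℂ} {ρ m : ℝ}
    (hρ : 0 < ρ) (hs : Metric.closedBall s ρ ⊆ Co ε R)
    (hm : ∀ z ∈ Metric.closedBall s ρ, ‖ℓ z‖ ≤ m) {x y : ℂ} (hx : x ∈ Metric.closedBall s (ρ / 2))
    (hy : y ∈ Metric.closedBall s (ρ / 2)) : ‖ℓ y - ℓ x‖ ≤ m / (ρ / 2) * ‖y - x‖ := by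
  have hsub : ∀ w ∈ Metric.closedBall s (ρ / 2), Metric.closedBall w (ρ / 2) ⊆ Metric.closedBall s ρ := by
    intro w hw
    refine Metric.closedBall_subset_closedBall' ?_
    have h1 : dist w s ≤ ρ / 2 := hw
    linarith
  have hdiff : ∀ w ∈ Metric.closedBall s (ρ / 2), DifferentiableAt ℂ ℓ w := by
    intro w hw
    have h1 : w ∈ Co ε R := hs (hsub w hw (Metric.mem_closedBall_self (by positivity)))
    exact (hd w h1).differentiableAt ((Co_isOpen ε R).mem_nhds h1)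
  refine Convex.norm_image_sub_le_of_norm_deriv_le hdiff ?_ (convex_closedBall s (ρ / 2)) hx hy
  intro w hw
  refine Complex.norm_deriv_le_of_forall_mem_sphere_norm_le (by positivity) ?_ ?_
  · refine DifferentiableOn.diffContOnCl ?_
    rw [closure_ball w (by positivity)]
    exact hd.mono ((hsub w hw).trans hs)
  · intro z hz
    exact hm z (hsub w hw (Metric.sphere_subset_closedBall hz))

/-- (P2, M) PROOF. `d = 1 + ‖η‖`, `ρ₀ = 4 d`. `l = j + k η` with `‖l - s‖ ≤ d` (`near_lattice`), so `l`, `l + 1`, `l + η` are in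
`closedBall s (ρ / 2)`. Cauchy's estimate: `‖deriv ℓ x‖ ≤ m / (ρ / 2)` for `x ∈ closedBall s (ρ / 2)` (its ball of radius
`ρ / 2` is in `closedBall s ρ`), so `‖ℓ x - ℓ y‖ ≤ (2 m / ρ) ‖x - y‖` (`Convex.norm_image_sub_le_of_norm_deriv_le`). With the
zeros from `Roll`: `|Re (ℓ s)| ≤ (2 m / ρ) 2 d`, `|Re (η ℓ s)| ≤ ‖η‖ (2 m / ρ) 2 d`; `re_bound`. -/
theorem one_step {η : ℂ} (hη : η.im ≠ 0) : ∃ ρ₀ C : ℝ, 0 < ρ₀ ∧ 0 < C ∧ ∀ (ℓ : ℂ → ℂ) (ε R : ℝ),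
    DifferentiableOn ℂ ℓ (Co ε R) → Roll η ε R ℓ → ∀ (s : ℂ) (ρ m : ℝ), ρ₀ ≤ ρ →
      Metric.closedBall s ρ ⊆ Co ε R → (∀ z ∈ Metric.closedBall s ρ, ‖ℓ z‖ ≤ m) →
        ‖ℓ s‖ ≤ C / ρ * m := by
  obtain ⟨C, hC, hre⟩ := re_bound hη
  have hn : 0 ≤ ‖η‖ := norm_nonneg η
  refine ⟨4 * (1 + ‖η‖), C * (4 * (1 + ‖η‖) * (1 + ‖η‖)), by positivity, by positivity, ?_⟩
  intro ℓ ε R hd hroll s ρ m hρ hs hm
  have hρ0 : 0 < ρ := lt_of_lt_of_le (by positivity) hρ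
  have hm0 : 0 ≤ m := (norm_nonneg _).trans (hm s (Metric.mem_closedBall_self hρ0.le))
  obtain ⟨j, k, hjk⟩ := near_lattice hη s
  set l : ℂ := (j + k * η : ℂ) with hl
  have hball : ∀ w : ℂ, ‖w‖ ≤ 1 + ‖η‖ → l + w ∈ Metric.closedBall s (ρ / 2) := by
    intro w hw
    rw [Metric.mem_closedBall, dist_eq_norm]
    have h1 : l + w - s = (l - s) + w := by ring
    rw [h1]
    calc ‖(l - s) + w‖ ≤ ‖l - s‖ + ‖w‖ := norm_add_le _ _
      _ ≤ (1 + ‖η‖) + (1 + ‖η‖) := add_le_add hjk hw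
      _ ≤ ρ / 2 := by linarith
  have hhalf : Metric.closedBall s (ρ / 2) ⊆ Co ε R :=
    (Metric.closedBall_subset_closedBall (by linarith)).trans hs
  have hl0 : l ∈ Co ε R := by
    have := hhalf (hball 0 (by rw [norm_zero]; positivity))
    rwa [add_zero] at this
  have hl1 : l + 1 ∈ Co ε R := hhalf (hball 1 (by rw [norm_one]; linarith))
  have hl2 : l + η ∈ Co ε R := hhalf (hball η (by linarith))
  obtain ⟨⟨t, ht, ht0⟩, ⟨u, hu, hu0⟩⟩ := hroll j k hl0 hl1 hl2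
  rw [← hl] at ht0 hu0
  have hsb : s ∈ Metric.closedBall s (ρ / 2) := Metric.mem_closedBall_self (by positivity)
  have htn : ‖(t : ℂ)‖ ≤ 1 + ‖η‖ := by
    rw [Complex.norm_real, Real.norm_eq_abs, abs_of_nonneg ht.1]
    linarith [ht.2]
  have hun : ‖(u : ℂ) * η‖ ≤ 1 + ‖η‖ := by
    rw [norm_mul, Complex.norm_real, Real.norm_eq_abs, abs_of_nonneg hu.1]
    nlinarith [hu.2, hu.1]
  have hdist : ∀ w : ℂ, ‖w‖ ≤ 1 + ‖η‖ → ‖ℓ s - ℓ (l + w)‖ ≤ m / (ρ / 2) * (2 * (1 + ‖η‖)) := by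
    intro w hw
    refine (p2_lip hd hρ0 hs hm (hball w hw) hsb).trans ?_
    refine mul_le_mul_of_nonneg_left ?_ (by positivity)
    have h1 : s - (l + w) = -((l - s) + w) := by ring
    rw [h1, norm_neg]
    calc ‖(l - s) + w‖ ≤ ‖l - s‖ + ‖w‖ := norm_add_le _ _
      _ ≤ (1 + ‖η‖) + (1 + ‖η‖) := add_le_add hjk hw
      _ = 2 * (1 + ‖η‖) := by ring
  set D : ℝ := m / (ρ / 2) * (2 * (1 + ‖η‖)) with hD
  have hD0 : 0 ≤ D := by positivity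
  have h1 : |(ℓ s).re| ≤ (1 + ‖η‖) * D := by
    have h2 : (ℓ s).re = (ℓ s - ℓ (l + t)).re := by
      rw [Complex.sub_re, ht0, sub_zero]
    rw [h2]
    refine (Complex.abs_re_le_norm _).trans ((hdist t htn).trans ?_)
    nlinarith
  have h3 : |(η * ℓ s).re| ≤ (1 + ‖η‖) * D := by
    have h2 : (η * ℓ s).re = (η * (ℓ s - ℓ (l + u * η))).re := by
      rw [mul_sub, Complex.sub_re, hu0, sub_zero]
    rw [h2]
    refine (Complex.abs_re_le_norm _).trans ?_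
    rw [norm_mul]
    refine (mul_le_mul_of_nonneg_left (hdist _ hun) hn).trans ?_
    nlinarith
  refine (hre (ℓ s) _ h1 h3).trans (le_of_eq ?_)
  rw [hD]
  field_simp
  ring

end H12Z
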