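import Pool.Agent.Lib.H12Z.Defs
import Pool.Agent.Lib.H12Z.T1B
import Pool.Agent.Lib.H12Z.P2

/-! # H12Z, chunk P3 (S/M): iteration -/

namespace H12Z

/-- (P3a, S/M) PROOF. `ρ = max ρ₀ (2 C)` from `one_step`. Induction on `k`: for `z ∈ closedBall s ρ`,
`closedBall z (k ρ) ⊆ closedBall s ((k + 1) ρ)`, so `‖ℓ z‖ ≤ B / 2 ^ k`, and `one_step` gives
`‖ℓ s‖ ≤ C / ρ * B / 2 ^ k ≤ B / 2 ^ (k + 1)`. -/
theorem iterate {η : ℂ} (hη : η.im ≠ 0) : ∃ ρ : ℝ, 0 < ρ ∧ ∀ (ℓ : ℂ → ℂ) (ε R B : ℝ), 0 ≤ B →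
    DifferentiableOn ℂ ℓ (Co ε R) → Roll η ε R ℓ → (∀ z ∈ Co ε R, ‖ℓ z‖ ≤ B) →
      ∀ (k : ℕ) (s : ℂ), Metric.closedBall s (k * ρ) ⊆ Co ε R → ‖ℓ s‖ ≤ B / 2 ^ k := by
  obtain ⟨ρ₀, C, hρ₀, hC, h⟩ := one_step hη
  have hρ : 0 < max ρ₀ (2 * C) := lt_of_lt_of_le hρ₀ (le_max_left _ _)
  refine ⟨max ρ₀ (2 * C), hρ, ?_⟩
  intro ℓ ε R B hB hd hR hb k
  have h2C : 2 * C ≤ max ρ₀ (2 * C) := le_max_right _ _
  have h0 : ρ₀ ≤ max ρ₀ (2 * C) := le_max_left _ _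
  generalize max ρ₀ (2 * C) = ρ at hρ h2C h0 ⊢
  induction k with
  | zero =>
    intro s hs
    have h1 : s ∈ Co ε R := hs (Metric.mem_closedBall_self (by simp))
    simpa using hb s h1
  | succ k ih =>
    intro s hs
    have hk : (0 : ℝ) ≤ k := Nat.cast_nonneg k
    have h1 : ∀ z ∈ Metric.closedBall s ρ, ‖ℓ z‖ ≤ B / 2 ^ k := by
      intro z hz
      refine ih z (Set.Subset.trans ?_ hs)
      apply Metric.closedBall_subset_closedBall'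
      rw [Metric.mem_closedBall] at hz
      push_cast
      nlinarith
    have h3 : Metric.closedBall s ρ ⊆ Co ε R := by
      refine Set.Subset.trans (Metric.closedBall_subset_closedBall ?_) hs
      push_cast
      nlinarith
    have h4 := h ℓ ε R hd hR s ρ (B / 2 ^ k) h0 h3 h1
    have h5 : C / ρ ≤ 1 / 2 := by
      rw [div_le_div_iff₀ hρ (by norm_num)]
      linarith
    have h6 : 0 ≤ B / 2 ^ k := by positivity
    calc ‖ℓ s‖ ≤ C / ρ * (B / 2 ^ k) := h4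
      _ ≤ 1 / 2 * (B / 2 ^ k) := by gcongr
      _ = B / 2 ^ (k + 1) := by rw [pow_succ]; field_simp

end H12Z
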