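import Pool.Agent.Lib.H12Z.Defs
import Pool.Agent.Lib.H12Z.P3

/-! # H12Z, chunk P3B (S/M): iteration -/

namespace H12Z

/-- (P3b, S/M) PROOF. `κ₁ = min (1 / 16) (ε / 16)`; for `s ∈ Co (min 1 (ε / 2)) R'` the ball of radius `κ₁ ‖s‖` is in `Co ε R`
(`Co_ball` with `A = 0`). `k = ⌊κ₁ ‖s‖ / ρ⌋₊`: `B / 2 ^ k ≤ 2 B exp (-(log 2) κ₁ ‖s‖ / ρ)`. -/
theorem tiny_of_roll {η : ℂ} (hη : η.im ≠ 0) {ε R B : ℝ} (hε : 0 < ε) {ℓ : ℂ → ℂ}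
    (h1 : DifferentiableOn ℂ ℓ (Co ε R)) (h2 : Roll η ε R ℓ) (h3 : ∀ z ∈ Co ε R, ‖ℓ z‖ ≤ B) :
    ∃ κ > 0, Tiny κ ℓ := by
  obtain ⟨ρ, hρ, hit⟩ := iterate hη
  obtain ⟨R', hR'⟩ := Co_ball hε R 0
  have hk1 : 0 < min (1 / 16 : ℝ) (ε / 16) := lt_min (by norm_num) (by positivity)
  obtain ⟨κ₁, hκ₁⟩ : ∃ κ₁ : ℝ, κ₁ = min (1 / 16 : ℝ) (ε / 16) := ⟨_, rfl⟩
  rw [← hκ₁] at hk1 hR'
  have hlog : 0 < Real.log 2 := Real.log_pos (by norm_num)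
  refine ⟨Real.log 2 * κ₁ / ρ, by positivity, min 1 (ε / 2), lt_min one_pos (by positivity), R',
    2 * max B 0, fun s hs => ?_⟩
  obtain ⟨k, hk⟩ : ∃ k : ℕ, k = ⌊κ₁ * ‖s‖ / ρ⌋₊ := ⟨_, rfl⟩
  have hnn : 0 ≤ κ₁ * ‖s‖ / ρ := by positivity
  have hk2 : (k : ℝ) ≤ κ₁ * ‖s‖ / ρ := by
    rw [hk]
    exact Nat.floor_le hnn
  have hk3 : κ₁ * ‖s‖ / ρ < (k : ℝ) + 1 := by
    rw [hk]
    exact Nat.lt_floor_add_one _
  have hball : Metric.closedBall s (k * ρ) ⊆ Co ε R := by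
    intro z hz
    rw [Metric.mem_closedBall, dist_eq_norm] at hz
    have h1 : (k : ℝ) * ρ ≤ κ₁ * ‖s‖ := by
      rw [le_div_iff₀ hρ] at hk2
      exact hk2
    have h2 := hR' s hs (z - s) (by linarith)
    rwa [add_sub_cancel] at h2
  have hmain := hit ℓ ε R (max B 0) (le_max_right _ _) h1 h2
    (fun z hz => (h3 z hz).trans (le_max_left _ _)) k s hball
  refine hmain.trans ?_
  have hB : 0 ≤ max B 0 := le_max_right _ _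
  have h4 : (2 : ℝ) ^ (k + 1) = Real.exp (((k + 1 : ℕ) : ℝ) * Real.log 2) := by
    rw [Real.exp_nat_mul, Real.exp_log (by norm_num)]
  have h5 : Real.log 2 * κ₁ / ρ * ‖s‖ ≤ ((k + 1 : ℕ) : ℝ) * Real.log 2 := by
    have h6 : Real.log 2 * κ₁ / ρ * ‖s‖ = (κ₁ * ‖s‖ / ρ) * Real.log 2 := by ring
    rw [h6]
    push_cast
    exact mul_le_mul_of_nonneg_right hk3.le hlog.le
  have h7 : 1 ≤ 2 ^ (k + 1) * Real.exp (-(Real.log 2 * κ₁ / ρ) * ‖s‖) := by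
    rw [h4, ← Real.exp_add]
    apply Real.one_le_exp
    linarith
  have h8 : (0 : ℝ) < 2 ^ k := by positivity
  rw [div_le_iff₀ h8]
  have h9 : 2 * max B 0 * Real.exp (-(Real.log 2 * κ₁ / ρ) * ‖s‖) * 2 ^ k
      = max B 0 * (2 ^ (k + 1) * Real.exp (-(Real.log 2 * κ₁ / ρ) * ‖s‖)) := by
    rw [pow_succ]
    ring
  rw [h9]
  exact le_mul_of_one_le_right hB h7

end H12Z
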