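import Pool.Agent.Lib.H12Z.Defs
import Pool.Agent.Lib.H12Z.T1B
import Pool.Agent.Lib.H12Z.P1B

/-! # H12Z, chunk P4 (M): bounds on the cone -/

namespace H12Z

/-- (P4a, S/M) PROOF. Cauchy's estimate (`Complex.norm_deriv_le_of_forall_mem_sphere_norm_le`) with the radius
`min (1 / 16) (ε / 16) ‖s‖` (`Co_ball`, `A = 0`). -/
theorem deriv_small {G : ℂ → ℂ} (hG : Differentiable ℂ G) {ε R C : ℝ} (hε : 0 < ε)
    (hb : ∀ s ∈ Co ε R, ‖G s‖ ≤ C) :
    ∃ R' C' : ℝ, 0 < R' ∧ 0 ≤ C' ∧ ∀ s ∈ Co (min 1 (ε / 2)) R', ‖deriv G s‖ ≤ C' / ‖s‖ := by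
  obtain ⟨R0, hR0⟩ := Co_ball hε R 0
  have hκ : 0 < min (1 / 16 : ℝ) (ε / 16) := lt_min (by norm_num) (by positivity)
  refine ⟨max R0 1, |C| / min (1 / 16 : ℝ) (ε / 16), lt_of_lt_of_le one_pos (le_max_right _ _),
    by positivity, fun s hs => ?_⟩
  have hs0 : s ∈ Co (min 1 (ε / 2)) R0 := ⟨hs.1, lt_of_le_of_lt (le_max_left _ _) hs.2⟩
  have hre : 0 < s.re := lt_trans one_pos (lt_of_le_of_lt (le_max_right R0 1) hs.2)
  have hns : 0 < ‖s‖ := norm_pos_iff.mpr (by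
    rintro rfl
    simp at hre)
  have hr : 0 < min (1 / 16 : ℝ) (ε / 16) * ‖s‖ := mul_pos hκ hns
  have h := Complex.norm_deriv_le_of_forall_mem_sphere_norm_le (f := G) (c := s) (C := |C|) hr
    hG.diffContOnCl (fun z hz => by
      have hz' : ‖z - s‖ = min (1 / 16 : ℝ) (ε / 16) * ‖s‖ := by
        rw [mem_sphere_iff_norm] at hz
        exact hz
      have h1 := hR0 s hs0 (z - s) (by rw [hz']; linarith)
      rw [add_sub_cancel] at h1
      exact (hb z h1).trans (le_abs_self C))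
  rw [div_div]
  exact h

end H12Z
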