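import Pool.Agent.Lib.H12Z.Defs
import Pool.Agent.Lib.H12Z.P4

/-! # H12Z, chunk P4B (M): bounds on the cone -/

namespace H12Z

/-- (P4b, S/M) PROOF. For `s ∈ Co ε 0` with `ε ≤ 1` and `ε |(ξ i).im| ≤ (ξ i).re / 2`:
`(ξ i s).re ≥ (ξ i).re s.re / 2 ≥ (ξ i).re ‖s‖ / 4`. Minimum over the finite set of `i` (for `m = 0` the sum is zero). -/
theorem expsum_tiny {m : ℕ} (c ξ : Fin m → ℂ) (hξ : ∀ i, 0 < (ξ i).re) :
    ∃ δ > 0, Tiny δ (fun s => ∑ i, c i * Complex.exp (-ξ i * s)) := by
  classical
  have key : ∀ t : Finset (Fin m), ∃ δ > 0,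
      Tiny δ (fun s => ∑ i ∈ t, c i * Complex.exp (-ξ i * s)) := by
    intro t
    induction t using Finset.induction_on with
    | empty => exact ⟨1, one_pos, 1, one_pos, 0, 0, fun s _ => by simp⟩
    | insert a t ha ih =>
      obtain ⟨δ, hδ, ε, hε, R, C, h⟩ := ih
      have hx0 : 0 < (ξ a).re := hξ a
      generalize hx : (ξ a).re = x at hx0
      have hy0 : 0 ≤ |(ξ a).im| := abs_nonneg _
      generalize hy : |(ξ a).im| = y at hy0
      have hq : 0 < x / (2 * (y + 1)) := by positivity
      refine ⟨min δ (x / 4), lt_min hδ (by positivity), min (min ε 1) (x / (2 * (y + 1))),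
        lt_min (lt_min hε one_pos) hq, max R 0, max C 0 + ‖c a‖, ?_⟩
      rintro s ⟨h1, h2⟩
      have hR : R < s.re := lt_of_le_of_lt (le_max_left _ _) h2
      have h0 : 0 < s.re := lt_of_le_of_lt (le_max_right _ _) h2
      have hs1 : |s.im| < ε * s.re := h1.trans_le
        (mul_le_mul_of_nonneg_right ((min_le_left _ _).trans (min_le_left _ _)) h0.le)
      have hs2 : |s.im| < 1 * s.re := h1.trans_le
        (mul_le_mul_of_nonneg_right ((min_le_left _ _).trans (min_le_right _ _)) h0.le)
      have hs3 : |s.im| < x / (2 * (y + 1)) * s.re := h1.trans_le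
        (mul_le_mul_of_nonneg_right (min_le_right _ _) h0.le)
      have hnorm : ‖s‖ ≤ 2 * s.re := by
        have h3 := Complex.norm_le_abs_re_add_abs_im s
        rw [abs_of_pos h0] at h3
        linarith
      have hn0 : 0 ≤ ‖s‖ := norm_nonneg s
      have e1 : ‖c a * Complex.exp (-ξ a * s)‖ ≤
          ‖c a‖ * Real.exp (-(min δ (x / 4)) * ‖s‖) := by
        rw [norm_mul, Complex.norm_exp]
        refine mul_le_mul_of_nonneg_left (Real.exp_le_exp.2 ?_) (norm_nonneg _)
        have h3 : (-ξ a * s).re = -(x * s.re) + (ξ a).im * s.im := by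
          rw [← hx]
          simp [Complex.mul_re]
          ring
        have h4 : (ξ a).im * s.im ≤ y * |s.im| := by
          rw [← hy, ← abs_mul]
          exact le_abs_self _
        have h5 : y * |s.im| ≤ x / 2 * s.re := by
          have h6 : y * |s.im| ≤ y * (x / (2 * (y + 1)) * s.re) :=
            mul_le_mul_of_nonneg_left hs3.le hy0
          have h7 : y * (x / (2 * (y + 1)) * s.re) = (x / 2 * s.re) * (y / (y + 1)) := by
            field_simp
          have h8 : y / (y + 1) ≤ 1 := by
            rw [div_le_one (by linarith)]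
            linarith
          have h9 : (x / 2 * s.re) * (y / (y + 1)) ≤ (x / 2 * s.re) * 1 :=
            mul_le_mul_of_nonneg_left h8 (by positivity)
          linarith
        have h6 : min δ (x / 4) * ‖s‖ ≤ x / 4 * (2 * s.re) :=
          mul_le_mul (min_le_right _ _) hnorm hn0 (by positivity)
        rw [h3]
        linarith
      have e2 : ‖∑ i ∈ t, c i * Complex.exp (-ξ i * s)‖ ≤
          max C 0 * Real.exp (-(min δ (x / 4)) * ‖s‖) := by
        refine (h s ⟨hs1, hR⟩).trans ?_
        refine mul_le_mul (le_max_left _ _) (Real.exp_le_exp.2 ?_) (Real.exp_pos _).le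
          (le_max_right _ _)
        have h6 : min δ (x / 4) * ‖s‖ ≤ δ * ‖s‖ :=
          mul_le_mul_of_nonneg_right (min_le_left _ _) hn0
        linarith
      simp only [Finset.sum_insert ha]
      calc ‖c a * Complex.exp (-ξ a * s) + ∑ i ∈ t, c i * Complex.exp (-ξ i * s)‖
          ≤ ‖c a * Complex.exp (-ξ a * s)‖ + ‖∑ i ∈ t, c i * Complex.exp (-ξ i * s)‖ :=
            norm_add_le _ _
        _ ≤ _ := add_le_add e1 e2
        _ = (max C 0 + ‖c a‖) * Real.exp (-(min δ (x / 4)) * ‖s‖) := by ring
  exact key Finset.univ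

end H12Z
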