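import Pool.Agent.Lib.H12Z.Defs
import Pool.Agent.Lib.H12Z.P4B

/-! # H12Z, chunk P4C (M): bounds on the cone -/

namespace H12Z

/-- (P4c, M) PROOF. `G₀ → c₀` in the cone, so `‖G₀‖ ≥ 3/4 ‖c₀‖` far out. For `s` in a smaller cone far out let `l = j + k η`
with `‖l - s‖ ≤ 1 + ‖η‖` (`near_lattice`), `‖G s‖ ≥ ‖G l‖ - (1 + ‖η‖) sup ‖deriv G‖` on the segment (`deriv_small`,
`Co_ball`, `Convex.norm_image_sub_le_of_norm_deriv_le`), `‖G l‖ = ‖G₀ l‖ ≥ 3/4 ‖c₀‖`. -/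
theorem lower_bound {η : ℂ} (hη : η.im ≠ 0) {c₀ : ℂ} (hc₀ : c₀ ≠ 0) {G G₀ : ℂ → ℂ}
    (hG : Differentiable ℂ G) {ε R C : ℝ} (hε : 0 < ε) (hb : ∀ s ∈ Co ε R, ‖G s‖ ≤ C) {δ : ℝ}
    (hδ : 0 < δ) (h0 : Tiny δ (fun s => G₀ s - c₀))
    (hs : ∀ j k : ℤ, (j + k * η : ℂ) ∈ Co ε R → ‖G (j + k * η)‖ = ‖G₀ (j + k * η)‖) :
    ∃ ε' > 0, ∃ R' : ℝ, ∀ s ∈ Co ε' R', ‖c₀‖ / 2 ≤ ‖G s‖ ∧ ‖c₀‖ / 2 ≤ ‖G₀ s‖ := by
  obtain ⟨ε₁, hε₁, R₁, C₁, h1⟩ := h0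
  obtain ⟨Rd, Cd, hRd, hCd, hd⟩ := deriv_small hG hε hb
  have hc : 0 < ‖c₀‖ := norm_pos_iff.2 hc₀
  have hdp : 0 < 1 + ‖η‖ := by positivity
  -- a radius from which the exponential is small
  obtain ⟨R₂, hR₂, hR₂'⟩ : ∃ R₂ : ℝ, 0 < R₂ ∧ |C₁| * Real.exp (-δ * R₂) ≤ ‖c₀‖ / 4 := by
    have hl : Filter.Tendsto (fun x : ℝ => |C₁| * Real.exp (-δ * x)) Filter.atTop (nhds (|C₁| * 0)) := by
      refine Filter.Tendsto.const_mul _ ?_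
      have h2 : Filter.Tendsto (fun x : ℝ => -δ * x) Filter.atTop Filter.atBot :=
        Filter.tendsto_id.const_mul_atTop_of_neg (by linarith)
      exact Real.tendsto_exp_atBot.comp h2
    rw [mul_zero] at hl
    have h3 := (hl.eventually (ge_mem_nhds (show (0 : ℝ) < ‖c₀‖ / 4 by positivity))).and
      (Filter.eventually_gt_atTop 0)
    obtain ⟨x, hx1, hx2⟩ := h3.exists
    exact ⟨x, hx2, hx1⟩
  obtain ⟨ε₃, he3⟩ : ∃ e : ℝ, e = min (min ε ε₁) (min 1 (ε / 2)) := ⟨_, rfl⟩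
  have hε₃ : 0 < ε₃ := by rw [he3]; exact lt_min (lt_min hε hε₁) (lt_min one_pos (by positivity))
  obtain ⟨R₃, hR3⟩ : ∃ r : ℝ, r = max (max (max R R₁) R₂) (max Rd (4 * Cd * (1 + ‖η‖) / ‖c₀‖)) :=
    ⟨_, rfl⟩
  have hsub : Co ε₃ R₃ ⊆ Co ε R := Co_mono hε₃
    (by rw [he3]; exact (min_le_left _ _).trans (min_le_left _ _))
    (by rw [hR3]; exact (le_max_left _ _).trans ((le_max_left _ _).trans (le_max_left _ _)))
  have hsub1 : Co ε₃ R₃ ⊆ Co ε₁ R₁ := Co_mono hε₃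
    (by rw [he3]; exact (min_le_left _ _).trans (min_le_right _ _))
    (by rw [hR3]; exact (le_max_right _ _).trans ((le_max_left _ _).trans (le_max_left _ _)))
  have hsubd : Co ε₃ R₃ ⊆ Co (min 1 (ε / 2)) Rd := Co_mono hε₃
    (by rw [he3]; exact min_le_right _ _)
    (by rw [hR3]; exact (le_max_left _ _).trans (le_max_right _ _))
  have hG0 : ∀ s ∈ Co ε₃ R₃, 3 / 4 * ‖c₀‖ ≤ ‖G₀ s‖ := by
    intro s h
    have h2 := h1 s (hsub1 h)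
    have h3 : R₂ ≤ ‖s‖ := by
      have h4 : R₂ ≤ R₃ := by rw [hR3]; exact (le_max_right _ _).trans (le_max_left _ _)
      have h5 := (mem_Co.1 h).2
      have h6 := Complex.re_le_norm s
      linarith
    have h4 : C₁ * Real.exp (-δ * ‖s‖) ≤ |C₁| * Real.exp (-δ * R₂) := by
      refine mul_le_mul (le_abs_self _) (Real.exp_le_exp.2 ?_) (Real.exp_pos _).le (abs_nonneg _)
      have := mul_le_mul_of_nonneg_left h3 hδ.le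
      linarith
    have h5 : ‖c₀‖ ≤ ‖G₀ s‖ + ‖G₀ s - c₀‖ := by
      have h6 : c₀ = G₀ s - (G₀ s - c₀) := by ring
      calc ‖c₀‖ = ‖G₀ s - (G₀ s - c₀)‖ := by rw [← h6]
        _ ≤ _ := norm_sub_le _ _
    linarith
  have hder : ∀ s ∈ Co ε₃ R₃, ‖deriv G s‖ ≤ ‖c₀‖ / (4 * (1 + ‖η‖)) := by
    intro s h
    have h2 := hd s (hsubd h)
    have h3 : Rd ≤ R₃ ∧ 4 * Cd * (1 + ‖η‖) / ‖c₀‖ ≤ R₃ := by
      rw [hR3]
      exact ⟨(le_max_left _ _).trans (le_max_right _ _), (le_max_right _ _).trans (le_max_right _ _)⟩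
    have h5 := (mem_Co.1 h).2
    have h6 := Complex.re_le_norm s
    have hn : 0 < ‖s‖ := by linarith [h3.1]
    have h7 : 4 * Cd * (1 + ‖η‖) / ‖c₀‖ ≤ ‖s‖ := by linarith [h3.2]
    rw [div_le_iff₀ hc] at h7
    refine h2.trans ?_
    rw [div_le_div_iff₀ hn (by positivity)]
    linarith
  obtain ⟨R', hR'⟩ := Co_ball hε₃ R₃ (1 + ‖η‖)
  refine ⟨min 1 (ε₃ / 2), lt_min one_pos (by positivity), R', fun s h => ?_⟩
  have hκ : 0 ≤ min (1 / 16 : ℝ) (ε₃ / 16) * ‖s‖ :=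
    mul_nonneg (le_min (by norm_num) (by positivity)) (norm_nonneg _)
  have hs0 : s ∈ Co ε₃ R₃ := by
    have := hR' s h 0 (by rw [norm_zero]; linarith)
    rwa [add_zero] at this
  obtain ⟨j, k, hjk⟩ := near_lattice hη s
  have hl : (j + k * η : ℂ) ∈ Co ε₃ R₃ := by
    have := hR' s h ((j + k * η : ℂ) - s) (by linarith)
    rwa [add_sub_cancel] at this
  have e1 := hs j k (hsub hl)
  have e2 := hG0 _ hl
  have e3 : ‖G (j + k * η) - G s‖ ≤ ‖c₀‖ / (4 * (1 + ‖η‖)) * ‖(j + k * η : ℂ) - s‖ :=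
    (Co_convex ε₃ R₃).norm_image_sub_le_of_norm_deriv_le (fun x _ => hG x) hder hs0 hl
  have e4 : ‖c₀‖ / (4 * (1 + ‖η‖)) * ‖(j + k * η : ℂ) - s‖ ≤ ‖c₀‖ / 4 := by
    calc ‖c₀‖ / (4 * (1 + ‖η‖)) * ‖(j + k * η : ℂ) - s‖
        ≤ ‖c₀‖ / (4 * (1 + ‖η‖)) * (1 + ‖η‖) := mul_le_mul_of_nonneg_left hjk (by positivity)
      _ = ‖c₀‖ / 4 := by field_simp
  have e5 : ‖G (j + k * η)‖ ≤ ‖G (j + k * η) - G s‖ + ‖G s‖ := by
    have h6 : G (j + k * η) = (G (j + k * η) - G s) + G s := by ring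
    calc ‖G (j + k * η)‖ = ‖(G (j + k * η) - G s) + G s‖ := by rw [← h6]
      _ ≤ _ := norm_add_le _ _
  have e6 := hG0 s hs0
  exact ⟨by linarith, by linarith⟩

end H12Z
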