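import Pool.Agent.Lib.H12Z.Defs
import Pool.Agent.Lib.H12Z.T2B

/-! # H12Z, chunk P5 (M): limits and logarithms -/

namespace H12Z

/-- Lipschitz bound on a cut cone. -/
theorem p5_lip {M : ℂ → ℂ} {ε R κ C : ℝ} (hC : 0 ≤ C) (hκ : 0 < κ)
    (hM : DifferentiableOn ℂ M (Co ε R)) (hd : ∀ s ∈ Co ε R, ‖deriv M s‖ ≤ C * Real.exp (-κ * ‖s‖)) (x : ℝ) {s w : ℂ}
    (hs : s ∈ Co ε R) (hw : w ∈ Co ε R) (hsx : x ≤ s.re) (hwx : x ≤ w.re) :
    ‖M w - M s‖ ≤ C * Real.exp (-κ * x) * ‖w - s‖ := by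
  have hconv : Convex ℝ (Co ε R ∩ {z : ℂ | x ≤ z.re}) := (Co_convex ε R).inter (convex_halfSpace_re_ge x)
  refine hconv.norm_image_sub_le_of_norm_deriv_le (fun z hz => ?_) (fun z hz => ?_) ⟨hs, hsx⟩ ⟨hw, hwx⟩
  · exact (hM z hz.1).differentiableAt ((Co_isOpen ε R).mem_nhds hz.1)
  · refine (hd z hz.1).trans ?_
    have h1 : x ≤ ‖z‖ := le_trans hz.2 (Complex.re_le_norm z)
    refine mul_le_mul_of_nonneg_left (Real.exp_le_exp.2 ?_) hC
    nlinarith

theorem p5_add {ε R : ℝ} (hε : 0 < ε) {s : ℂ} (hs : s ∈ Co ε R) (k : ℕ) : s + k ∈ Co ε R := by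
  rw [mem_Co] at *
  have hk : (0 : ℝ) ≤ k := Nat.cast_nonneg k
  rw [Complex.add_im, Complex.add_re, Complex.natCast_im, Complex.natCast_re, add_zero]
  constructor
  · nlinarith [hs.1]
  · linarith [hs.2]

theorem p5_lim {M : ℂ → ℂ} {ε R κ C : ℝ} (hε : 0 < ε) (hC : 0 ≤ C) (hκ : 0 < κ)
    (hM : DifferentiableOn ℂ M (Co ε R)) (hd : ∀ s ∈ Co ε R, ‖deriv M s‖ ≤ C * Real.exp (-κ * ‖s‖)) {s : ℂ}
    (hs : s ∈ Co ε R) : ∃ u : ℂ, Filter.Tendsto (fun k : ℕ => M (s + k)) Filter.atTop (nhds u) ∧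
      ‖M s - u‖ ≤ C / (1 - Real.exp (-κ)) * Real.exp (-κ * s.re) := by
  have hr : Real.exp (-κ) < 1 := by
    rw [Real.exp_lt_one_iff]
    linarith
  have hstep : ∀ k : ℕ, dist (M (s + k)) (M (s + (k + 1 : ℕ))) ≤ C * Real.exp (-κ * s.re) * Real.exp (-κ) ^ k := by
    intro k
    have h1 := p5_lip hC hκ hM hd (s.re + k) (p5_add hε hs k) (p5_add hε hs (k + 1)) (by simp) (by
      rw [Complex.add_re, Complex.natCast_re]
      push_cast
      linarith)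
    rw [dist_comm, dist_eq_norm]
    refine h1.trans (le_of_eq ?_)
    have h2 : s + ((k + 1 : ℕ) : ℂ) - (s + (k : ℂ)) = 1 := by
      push_cast
      ring
    rw [h2, norm_one, mul_one, mul_assoc, ← Real.exp_nat_mul, ← Real.exp_add]
    congr 2
    ring
  have hcau := cauchySeq_of_le_geometric (Real.exp (-κ)) (C * Real.exp (-κ * s.re)) hr hstep
  obtain ⟨u, hu⟩ := cauchySeq_tendsto_of_complete hcau
  refine ⟨u, hu, ?_⟩
  have h3 := dist_le_of_le_geometric_of_tendsto₀ (Real.exp (-κ)) (C * Real.exp (-κ * s.re)) hr hstep hu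
  rw [Nat.cast_zero, add_zero, dist_eq_norm] at h3
  refine h3.trans (le_of_eq ?_)
  ring

/-- (P5a, M) PROOF. In a cone `Co ε' R'` (`ε' ≤ 1`, `R' ≥ 0`) with `‖deriv M s‖ ≤ C exp (-κ ‖s‖)`: for `k : ℕ`
`‖M (s + k + 1) - M (s + k)‖ ≤ C exp (-κ (s.re + k))` (`‖z‖ ≥ z.re`; `Convex.norm_image_sub_le_of_norm_deriv_le` on the cone
cut at `re ≥ s.re + k`), a summable geometric series (`cauchySeq_of_le_geometric`), limit `u s`, and
`‖M s - u s‖ ≤ C' exp (-κ s.re) ≤ C' exp (-(κ / 2) ‖s‖)`. The limit does not depend on `s`: `‖M (s + k) - M (s' + k)‖ → 0`. -/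
theorem exists_limit {M : ℂ → ℂ} {ε R κ : ℝ} (hε : 0 < ε) (hκ : 0 < κ)
    (hM : DifferentiableOn ℂ M (Co ε R)) (h : Tiny κ (deriv M)) :
    ∃ u : ℂ, Tiny (κ / 2) (fun s => M s - u) := by
  obtain ⟨ε1, hε1, R1, C1, h1⟩ := h
  set ε' : ℝ := min (min ε ε1) 1 with hε'
  have hε'0 : 0 < ε' := lt_min (lt_min hε hε1) one_pos
  have hε'1 : ε' ≤ 1 := min_le_right _ _
  set R' : ℝ := max (max R R1) 0 with hR'
  have hsub : Co ε' R' ⊆ Co ε R := Co_mono hε'0 ((min_le_left _ _).trans (min_le_left _ _))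
    ((le_max_left _ _).trans (le_max_left _ _))
  have hsub1 : Co ε' R' ⊆ Co ε1 R1 := Co_mono hε'0 ((min_le_left _ _).trans (min_le_right _ _))
    ((le_max_right _ _).trans (le_max_left _ _))
  have hM' : DifferentiableOn ℂ M (Co ε' R') := hM.mono hsub
  have hd : ∀ s ∈ Co ε' R', ‖deriv M s‖ ≤ |C1| * Real.exp (-κ * ‖s‖) := fun s hs =>
    (h1 s (hsub1 hs)).trans (mul_le_mul_of_nonneg_right (le_abs_self C1) (Real.exp_nonneg _))
  have hR'0 : 0 ≤ R' := le_max_right _ _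
  have hs0 : ((R' + 1 : ℝ) : ℂ) ∈ Co ε' R' := by
    rw [mem_Co, Complex.ofReal_im, Complex.ofReal_re, abs_zero]
    constructor
    · positivity
    · linarith
  obtain ⟨u, hu, -⟩ := p5_lim hε'0 (abs_nonneg C1) hκ hM' hd hs0
  refine ⟨u, ε', hε'0, R', |C1| / (1 - Real.exp (-κ)), fun s hs => ?_⟩
  obtain ⟨u', hu', hb⟩ := p5_lim hε'0 (abs_nonneg C1) hκ hM' hd hs
  have hr : Real.exp (-κ) < 1 := by
    rw [Real.exp_lt_one_iff]
    linarith
  have huu : u' = u := by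
    set m : ℝ := min s.re (R' + 1) with hm
    have hdiff : Filter.Tendsto (fun k : ℕ => M (s + k) - M (((R' + 1 : ℝ) : ℂ) + k)) Filter.atTop (nhds 0) := by
      have hb1 : ∀ k : ℕ, ‖M (s + k) - M (((R' + 1 : ℝ) : ℂ) + k)‖ ≤
          (|C1| * Real.exp (-κ * m) * ‖s - ((R' + 1 : ℝ) : ℂ)‖) * Real.exp (-κ) ^ k := by
        intro k
        have h2 := p5_lip (abs_nonneg C1) hκ hM' hd (m + k) (p5_add hε'0 hs0 k) (p5_add hε'0 hs k) (by
          rw [Complex.add_re, Complex.natCast_re, Complex.ofReal_re]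
          linarith [min_le_right s.re (R' + 1)]) (by
          rw [Complex.add_re, Complex.natCast_re]
          linarith [min_le_left s.re (R' + 1)])
        refine h2.trans (le_of_eq ?_)
        have h3 : s + (k : ℂ) - (((R' + 1 : ℝ) : ℂ) + k) = s - ((R' + 1 : ℝ) : ℂ) := by ring
        have h4 : Real.exp (-κ * (m + k)) = Real.exp (-κ * m) * Real.exp (-κ) ^ k := by
          rw [← Real.exp_nat_mul, ← Real.exp_add]
          congr 1
          ring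
        rw [h3, h4]
        ring
      refine squeeze_zero_norm hb1 ?_
      have h5 := (tendsto_pow_atTop_nhds_zero_of_lt_one (Real.exp_nonneg (-κ)) hr).const_mul
        (|C1| * Real.exp (-κ * m) * ‖s - ((R' + 1 : ℝ) : ℂ)‖)
      rwa [mul_zero] at h5
    have h6 := tendsto_nhds_unique hdiff (hu'.sub hu)
    exact (sub_eq_zero.1 h6.symm)
  rw [huu] at hb
  refine hb.trans (mul_le_mul_of_nonneg_left (Real.exp_le_exp.2 ?_) (div_nonneg (abs_nonneg _) (by linarith)))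
  have h7 : ‖s‖ ≤ (1 + ε') * s.re := Co_norm_le hε'0 hs
  have h8 : 0 < s.re := Co_re_pos hε'0 hs
  have h9 : ‖s‖ ≤ 2 * s.re := by nlinarith
  have h10 : κ / 2 * ‖s‖ ≤ κ / 2 * (2 * s.re) := mul_le_mul_of_nonneg_left h9 (by linarith)
  linarith

end H12Z
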