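import Pool.Agent.Lib.H12Z.Defs
import Pool.Agent.Lib.H12Z.P5

/-! # H12Z, chunk P5B (M): limits and logarithms -/

namespace H12Z

/-- (P5b, S) PROOF. `‖M j - u‖ → 0` along the large integers `j`. -/
theorem limit_norm {M : ℂ → ℂ} {u : ℂ} {ε R κ : ℝ} (hε : 0 < ε) (hκ : 0 < κ)
    (h : Tiny κ (fun s => M s - u)) (h1 : ∀ j : ℤ, (j : ℂ) ∈ Co ε R → ‖M j‖ = 1) : ‖u‖ = 1 := by
  obtain ⟨ε', hε', R', C, hb⟩ := h
  have hlim : Filter.Tendsto (fun n : ℕ => C * Real.exp (-κ * (n : ℝ))) Filter.atTop (nhds (C * 0)) := by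
    refine Filter.Tendsto.const_mul C ?_
    refine Real.tendsto_exp_atBot.comp ?_
    exact (tendsto_natCast_atTop_atTop (R := ℝ)).const_mul_atTop_of_neg (neg_lt_zero.mpr hκ)
  rw [mul_zero] at hlim
  have hle : |1 - ‖u‖| ≤ 0 := by
    refine ge_of_tendsto hlim ?_
    filter_upwards [Filter.eventually_gt_atTop 0, (tendsto_natCast_atTop_atTop (R := ℝ)).eventually_gt_atTop R,
      (tendsto_natCast_atTop_atTop (R := ℝ)).eventually_gt_atTop R'] with n h0 hR hR'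
    have hn0 : (0 : ℝ) < n := by exact_mod_cast h0
    have m1 : (((n : ℤ) : ℂ)) ∈ Co ε R := by
      rw [mem_Co]
      constructor
      · simpa using mul_pos hε hn0
      · simpa using hR
    have m2 : (((n : ℤ) : ℂ)) ∈ Co ε' R' := by
      rw [mem_Co]
      constructor
      · simpa using mul_pos hε' hn0
      · simpa using hR'
    have e1 := h1 n m1
    have e2 := hb _ m2
    have e3 : ‖(((n : ℤ) : ℂ))‖ = (n : ℝ) := by simp
    rw [e3] at e2
    calc |1 - ‖u‖| = |‖M (((n : ℤ) : ℂ))‖ - ‖u‖| := by rw [e1]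
      _ ≤ ‖M (((n : ℤ) : ℂ)) - u‖ := abs_norm_sub_norm_le _ _
      _ ≤ C * Real.exp (-κ * (n : ℝ)) := e2
  have h2 : 1 - ‖u‖ = 0 := abs_eq_zero.mp (le_antisymm hle (abs_nonneg _))
  linarith

end H12Z
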