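import Pool.Agent.Lib.H12Z.Defs
import Pool.Agent.Lib.H12Z.P5B

/-! # H12Z, chunk P5C (M): limits and logarithms -/

namespace H12Z

/-- decay below `1 / 2` far out -/
theorem p5c_small {C κ x : ℝ} (hκ : 0 < κ) (hx : Real.log (2 * max C 1) / κ < x) :
    C * Real.exp (-κ * x) ≤ 1 / 2 := by
  have hC1 : (0 : ℝ) < 2 * max C 1 := by
    have := le_max_right C 1
    linarith
  have h1 : Real.log (2 * max C 1) < κ * x := by
    have := (div_lt_iff₀ hκ).1 hx
    linarith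
  have h2 : 2 * max C 1 < Real.exp (κ * x) := (Real.log_lt_iff_lt_exp hC1).1 h1
  have h3 : C * Real.exp (-κ * x) ≤ max C 1 * Real.exp (-κ * x) :=
    mul_le_mul_of_nonneg_right (le_max_left _ _) (Real.exp_pos _).le
  have h4 : Real.exp (κ * x) * Real.exp (-κ * x) = 1 := by
    rw [← Real.exp_add]
    have : κ * x + -κ * x = 0 := by ring
    rw [this, Real.exp_zero]
  have h5 : 2 * max C 1 * Real.exp (-κ * x) ≤ 1 :=
    (mul_le_mul_of_nonneg_right h2.le (Real.exp_pos _).le).trans h4.le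
  linarith

/-- the logarithm of a quotient close to `1` -/
theorem p5c_log {m u : ℂ} (hu : ‖u‖ = 1) (h : ‖m - u‖ ≤ 1 / 2) :
    m / u ∈ Complex.slitPlane ∧ ‖Complex.log (m / u)‖ ≤ 3 / 2 * ‖m - u‖ ∧
      m = u * Complex.exp (Complex.log (m / u)) := by
  have hu0 : u ≠ 0 := by
    intro h0
    rw [h0, norm_zero] at hu
    exact zero_ne_one hu
  have e1 : m / u = 1 + (m - u) / u := by
    rw [sub_div, div_self hu0]
    ring
  have e2 : ‖(m - u) / u‖ = ‖m - u‖ := by rw [norm_div, hu, div_one]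
  have h1 : m / u ∈ Complex.slitPlane := by
    rw [e1]
    refine Complex.mem_slitPlane_of_norm_lt_one ?_
    rw [e2]
    linarith
  refine ⟨h1, ?_, ?_⟩
  · have h2 := Complex.norm_log_one_add_half_le_self (z := (m - u) / u) (by rw [e2]; exact h)
    rw [e2, ← e1] at h2
    exact h2
  · rw [Complex.exp_log (Complex.slitPlane_ne_zero h1), mul_div_cancel₀ _ hu0]

/-- (P5c, M) PROOF. On a cone far out `‖M s / u - 1‖ ≤ 1/2` (and small); `T s = Complex.log (M s / u)` is analytic there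
(`Complex.slitPlane`), `‖T‖ ≤ 2 ‖M / u - 1‖` (`Complex.norm_log_one_add_le` or similar), `Re T = log ‖M‖ = 0` at the lattice
points, `exp T = M / u`. -/
theorem exists_log {η : ℂ} {M : ℂ → ℂ} {u : ℂ} {ε R κ : ℝ} (hε : 0 < ε) (hκ : 0 < κ) (hu : ‖u‖ = 1)
    (hM : DifferentiableOn ℂ M (Co ε R)) (h : Tiny κ (fun s => M s - u))
    (h1 : ∀ j k : ℤ, (j + k * η : ℂ) ∈ Co ε R → ‖M (j + k * η)‖ = 1) :
    ∃ (T : ℂ → ℂ) (ε' R' : ℝ), 0 < ε' ∧ ImagOn η ε' R' T ∧ Tiny κ T ∧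
      ∀ s ∈ Co ε' R', M s = u * Complex.exp (T s) := by
  obtain ⟨ε₁, hε₁, R₁, C₁, hC⟩ := h
  set R₂ := Real.log (2 * max C₁ 1) / κ with hR₂
  have hε' : 0 < min ε ε₁ := lt_min hε hε₁
  have hre : ∀ s ∈ Co (min ε ε₁) (max (max R R₁) R₂), 0 < s.re := fun s hs => by
    by_contra hneg
    have h2 : min ε ε₁ * s.re ≤ 0 := mul_nonpos_of_nonneg_of_nonpos hε'.le (not_lt.1 hneg)
    have h3 := abs_nonneg s.im
    have h4 := hs.1
    linarith
  have hsub : Co (min ε ε₁) (max (max R R₁) R₂) ⊆ Co ε R := fun s hs => by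
    refine ⟨hs.1.trans_le (mul_le_mul_of_nonneg_right (min_le_left _ _) (hre s hs).le), ?_⟩
    exact lt_of_le_of_lt ((le_max_left R R₁).trans (le_max_left _ _)) hs.2
  have hsub₁ : Co (min ε ε₁) (max (max R R₁) R₂) ⊆ Co ε₁ R₁ := fun s hs => by
    refine ⟨hs.1.trans_le (mul_le_mul_of_nonneg_right (min_le_right _ _) (hre s hs).le), ?_⟩
    exact lt_of_le_of_lt ((le_max_right R R₁).trans (le_max_left _ _)) hs.2
  have hsm : ∀ s ∈ Co (min ε ε₁) (max (max R R₁) R₂), ‖M s - u‖ ≤ 1 / 2 := fun s hs => by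
    refine (hC s (hsub₁ hs)).trans (p5c_small hκ ?_)
    exact lt_of_le_of_lt (le_max_right _ _) (hs.2.trans_le (Complex.re_le_norm s))
  refine ⟨fun s => Complex.log (M s / u), min ε ε₁, max (max R R₁) R₂, hε', ⟨?_, ⟨3 / 4, ?_⟩, ?_⟩,
    ⟨min ε ε₁, hε', max (max R R₁) R₂, 3 / 2 * C₁, ?_⟩, ?_⟩
  · exact ((hM.mono hsub).div_const u).clog fun s hs => (p5c_log hu (hsm s hs)).1
  · intro s hs
    have h2 := (p5c_log hu (hsm s hs)).2.1
    have h3 := hsm s hs
    linarith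
  · intro j k hs
    have h2 := h1 j k (hsub hs)
    rw [Complex.log_re, norm_div, h2, hu, div_one, Real.log_one]
  · intro s hs
    have h2 := (p5c_log hu (hsm s hs)).2.1
    have h3 := hC s (hsub₁ hs)
    have h4 : 3 / 2 * ‖M s - u‖ ≤ 3 / 2 * (C₁ * Real.exp (-κ * ‖s‖)) :=
      mul_le_mul_of_nonneg_left h3 (by norm_num)
    rw [mul_assoc]
    exact h2.trans h4
  · intro s hs
    exact (p5c_log hu (hsm s hs)).2.2

end H12Z
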