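import Pool.Agent.Lib.H12Z.Defs
import Pool.Agent.Lib.H12Z.P3B
import Pool.Agent.Lib.H12Z.P4C
import Pool.Agent.Lib.H12Z.P5C

/-! # H12Z, chunk P6 (M): the logarithm of the quotient -/

namespace H12Z

/-- smaller cones -/
theorem p6_imag_mono {η : ℂ} {ε ε' R R' : ℝ} (hε : 0 < ε) (h : ε ≤ ε') (hR : R' ≤ R) {T : ℂ → ℂ}
    (hT : ImagOn η ε' R' T) : ImagOn η ε R T := by
  have hsub := Co_mono hε h hR
  obtain ⟨h1, ⟨B, h2⟩, h3⟩ := hT
  exact ⟨h1.mono hsub, ⟨B, fun s hs => h2 s (hsub hs)⟩, fun j k hjk => h3 j k (hsub hjk)⟩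

/-- the logarithmic derivative of a quotient -/
theorem p6_logderiv {G G₀ : ℂ → ℂ} (hG : Differentiable ℂ G) (hG₀ : Differentiable ℂ G₀) {s : ℂ}
    (h1 : G s ≠ 0) (h2 : G₀ s ≠ 0) :
    deriv (fun z => G z / G₀ z) s / (G s / G₀ s) = deriv G s / G s - deriv G₀ s / G₀ s := by
  have h3 : deriv (fun z => G z / G₀ z) s = (deriv G s * G₀ s - G s * deriv G₀ s) / G₀ s ^ 2 :=
    deriv_fun_div (hG s) (hG₀ s) h2
  rw [h3]
  field_simp

/-- (P6, M) PROOF. `lower_bound`: both functions are `≥ ‖c₀‖ / 2` on a cone `Co ε₁ R₁`; `G₀` is bounded on a cone (`h0`).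
`M = G / G₀`, `ℓ = deriv M / M = deriv G / G - deriv G₀ / G₀` is differentiable and bounded on a smaller cone far out
(`deriv_small` for both), `Roll` there by `rolle` (`‖M‖ = 1` at the lattice points). `tiny_of_roll`: `Tiny κ ℓ`, and
`deriv M = ℓ M` with `M` bounded: `Tiny κ (deriv M)` (`Tiny.mul_bdd`, `Tiny.congr`). `exists_limit`, `limit_norm`,
`exists_log`. -/
theorem exists_T {η : ℂ} (hη : η.im ≠ 0) {c₀ : ℂ} (hc₀ : c₀ ≠ 0) {G G₀ : ℂ → ℂ}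
    (hG : Differentiable ℂ G) (hG₀ : Differentiable ℂ G₀) {ε R C : ℝ} (hε : 0 < ε)
    (hb : ∀ s ∈ Co ε R, ‖G s‖ ≤ C) {δ : ℝ} (hδ : 0 < δ) (h0 : Tiny δ (fun s => G₀ s - c₀))
    (hs : ∀ j k : ℤ, (j + k * η : ℂ) ∈ Co ε R → ‖G (j + k * η)‖ = ‖G₀ (j + k * η)‖) :
    ∃ (u : ℂ) (T : ℂ → ℂ) (ε' R' κ : ℝ), 0 < ε' ∧ 0 < κ ∧ ImagOn η ε' R' T ∧ Tiny κ T ∧
      ∀ s ∈ Co ε' R', G s = G₀ s * (u * Complex.exp (T s)) := by
  have hc : 0 < ‖c₀‖ := norm_pos_iff.2 hc₀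
  obtain ⟨ε₁, hε₁, R₁, hlow⟩ := lower_bound hη hc₀ hG hε hb hδ h0 hs
  obtain ⟨ε₂, hε₂, R₂, C₂, h2⟩ := h0
  -- a bound for `G₀`
  have hb0 : ∀ s ∈ Co ε₂ R₂, ‖G₀ s‖ ≤ |C₂| + ‖c₀‖ := by
    intro s h
    have e1 := h2 s h
    have e2 : C₂ * Real.exp (-δ * ‖s‖) ≤ |C₂| := by
      calc C₂ * Real.exp (-δ * ‖s‖) ≤ |C₂| * Real.exp (-δ * ‖s‖) :=
            mul_le_mul_of_nonneg_right (le_abs_self _) (Real.exp_pos _).le
        _ ≤ |C₂| * 1 := by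
            refine mul_le_mul_of_nonneg_left (Real.exp_le_one_iff.2 ?_) (abs_nonneg _)
            have := mul_nonneg hδ.le (norm_nonneg s)
            linarith
        _ = |C₂| := mul_one _
    have e3 : ‖G₀ s‖ ≤ ‖G₀ s - c₀‖ + ‖c₀‖ := by
      calc ‖G₀ s‖ = ‖(G₀ s - c₀) + c₀‖ := by rw [sub_add_cancel]
        _ ≤ _ := norm_add_le _ _
    linarith
  obtain ⟨Rd, Cd, hRd, hCd, hd⟩ := deriv_small hG hε hb
  obtain ⟨Re, Ce, hRe, hCe, he⟩ := deriv_small hG₀ hε₂ hb0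
  obtain ⟨ε₃, he3⟩ : ∃ e : ℝ, e = min (min ε ε₁) (min (min 1 (ε / 2)) (min 1 (ε₂ / 2))) := ⟨_, rfl⟩
  have hε₃ : 0 < ε₃ := by
    rw [he3]
    exact lt_min (lt_min hε hε₁) (lt_min (lt_min one_pos (by positivity)) (lt_min one_pos (by positivity)))
  obtain ⟨R₃, hR3⟩ : ∃ r : ℝ, r = max (max R R₁) (max (max Rd Re) 1) := ⟨_, rfl⟩
  have hsub : Co ε₃ R₃ ⊆ Co ε R := Co_mono hε₃
    (by rw [he3]; exact (min_le_left _ _).trans (min_le_left _ _))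
    (by rw [hR3]; exact (le_max_left _ _).trans (le_max_left _ _))
  have hsub1 : Co ε₃ R₃ ⊆ Co ε₁ R₁ := Co_mono hε₃
    (by rw [he3]; exact (min_le_left _ _).trans (min_le_right _ _))
    (by rw [hR3]; exact (le_max_right _ _).trans (le_max_left _ _))
  have hsubd : Co ε₃ R₃ ⊆ Co (min 1 (ε / 2)) Rd := Co_mono hε₃
    (by rw [he3]; exact (min_le_right _ _).trans (min_le_left _ _))
    (by rw [hR3]; exact (le_max_left _ _).trans ((le_max_left _ _).trans (le_max_right _ _)))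
  have hsube : Co ε₃ R₃ ⊆ Co (min 1 (ε₂ / 2)) Re := Co_mono hε₃
    (by rw [he3]; exact (min_le_right _ _).trans (min_le_right _ _))
    (by rw [hR3]; exact (le_max_right _ _).trans ((le_max_left _ _).trans (le_max_right _ _)))
  have hR1 : (1 : ℝ) ≤ R₃ := by
    rw [hR3]; exact (le_max_right _ _).trans (le_max_right _ _)
  have hnorm : ∀ s ∈ Co ε₃ R₃, 1 ≤ ‖s‖ := fun s h =>
    (hR1.trans h.2.le).trans (Complex.re_le_norm s)
  have hGne : ∀ s ∈ Co ε₃ R₃, G s ≠ 0 := by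
    intro s h h3
    have h4 := (hlow s (hsub1 h)).1
    rw [h3, norm_zero] at h4
    linarith
  have hG0ne : ∀ s ∈ Co ε₃ R₃, G₀ s ≠ 0 := by
    intro s h h3
    have h4 := (hlow s (hsub1 h)).2
    rw [h3, norm_zero] at h4
    linarith
  obtain ⟨M, hMdef⟩ : ∃ M : ℂ → ℂ, M = fun s => G s / G₀ s := ⟨_, rfl⟩
  have hMv : ∀ s, M s = G s / G₀ s := fun s => by rw [hMdef]
  have hMd : DifferentiableOn ℂ M (Co ε₃ R₃) := by
    rw [hMdef]
    exact hG.differentiableOn.fun_div hG₀.differentiableOn hG0ne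
  have hMne : ∀ s ∈ Co ε₃ R₃, M s ≠ 0 := by
    intro s h
    rw [hMv]
    exact div_ne_zero (hGne s h) (hG0ne s h)
  have hM1 : ∀ j k : ℤ, (j + k * η : ℂ) ∈ Co ε₃ R₃ → ‖M (j + k * η)‖ = 1 := by
    intro j k h
    rw [hMv, norm_div, hs j k (hsub h)]
    exact div_self (norm_ne_zero_iff.2 (hG0ne _ h))
  obtain ⟨ℓ, hℓ⟩ : ∃ ℓ : ℂ → ℂ, ℓ = fun s => deriv M s / M s := ⟨_, rfl⟩
  have hℓv : ∀ s, ℓ s = deriv M s / M s := fun s => by rw [hℓ]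
  have hℓd : DifferentiableOn ℂ ℓ (Co ε₃ R₃) := by
    rw [hℓ]
    exact (hMd.deriv (Co_isOpen ε₃ R₃)).fun_div hMd hMne
  have hroll : Roll η ε₃ R₃ ℓ := by
    intro j k hl hl1 hl2
    constructor
    · have hn1 : ‖M (j + k * η : ℂ)‖ = ‖M (j + k * η + 1 : ℂ)‖ := by
        have e1 : (j + k * η + 1 : ℂ) = ((j + 1 : ℤ) : ℂ) + k * η := by push_cast; ring
        rw [hM1 j k hl, e1, hM1 (j + 1) k (by rw [← e1]; exact hl1)]
      obtain ⟨t, ht, h3⟩ := rolle (Co_convex ε₃ R₃) (Co_isOpen ε₃ R₃) hMd hMne hl hl1 hn1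
      refine ⟨t, ht, ?_⟩
      have e2 : ((j + k * η + 1 : ℂ) - (j + k * η : ℂ)) = 1 := by ring
      rw [e2, mul_one, one_mul] at h3
      rw [hℓv]
      exact h3
    · have hn1 : ‖M (j + k * η : ℂ)‖ = ‖M (j + k * η + η : ℂ)‖ := by
        have e1 : (j + k * η + η : ℂ) = (j : ℂ) + ((k + 1 : ℤ) : ℂ) * η := by push_cast; ring
        rw [hM1 j k hl, e1, hM1 j (k + 1) (by rw [← e1]; exact hl2)]
      obtain ⟨t, ht, h3⟩ := rolle (Co_convex ε₃ R₃) (Co_isOpen ε₃ R₃) hMd hMne hl hl2 hn1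
      refine ⟨t, ht, ?_⟩
      have e2 : ((j + k * η + η : ℂ) - (j + k * η : ℂ)) = η := by ring
      rw [e2] at h3
      rw [hℓv]
      exact h3
  have hdiv : ∀ {x y Cx : ℝ}, 0 ≤ Cx → 1 ≤ y → x ≤ Cx / y → x ≤ Cx := fun h1 h2 h3 =>
    h3.trans (div_le_self h1 h2)
  have hℓb : ∀ z ∈ Co ε₃ R₃, ‖ℓ z‖ ≤ Cd / (‖c₀‖ / 2) + Ce / (‖c₀‖ / 2) := by
    intro z h
    have e1 : ℓ z = deriv G z / G z - deriv G₀ z / G₀ z := by
      rw [hℓv, hMv, hMdef]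
      exact p6_logderiv hG hG₀ (hGne z h) (hG0ne z h)
    rw [e1]
    refine (norm_sub_le _ _).trans ?_
    rw [norm_div, norm_div]
    have h4 := hdiv hCd (hnorm z h) (hd z (hsubd h))
    have h5 := hdiv hCe (hnorm z h) (he z (hsube h))
    have h6 := hlow z (hsub1 h)
    exact add_le_add (div_le_div₀ hCd h4 (by positivity) h6.1) (div_le_div₀ hCe h5 (by positivity) h6.2)
  obtain ⟨κ, hκ, hℓt⟩ := tiny_of_roll hη hε₃ hℓd hroll hℓb
  have hMb : Tiny 0 M := by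
    refine ⟨ε₃, hε₃, R₃, |C| / (‖c₀‖ / 2), fun s h => ?_⟩
    rw [neg_zero, zero_mul, Real.exp_zero, mul_one, hMv, norm_div]
    exact div_le_div₀ (abs_nonneg _) ((hb s (hsub h)).trans (le_abs_self _)) (by positivity)
      (hlow s (hsub1 h)).2
  have hdM : Tiny κ (deriv M) := by
    refine Tiny.congr (Tiny.mul_bdd hℓt hMb) hε₃ (R := R₃) fun s h => ?_
    rw [hℓv, div_mul_cancel₀ _ (hMne s h)]
  obtain ⟨u, hu⟩ := exists_limit hε₃ hκ hMd hdM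
  have hκ2 : 0 < κ / 2 := by positivity
  have hu1 : ‖u‖ = 1 := by
    refine limit_norm (R := R₃) hε₃ hκ2 hu fun j h => ?_
    have e1 : (j : ℂ) = (j : ℂ) + ((0 : ℤ) : ℂ) * η := by push_cast; ring
    rw [e1]
    exact hM1 j 0 (by rw [← e1]; exact h)
  obtain ⟨T, ε', R', hε', hT1, hT2, hT3⟩ := exists_log hε₃ hκ2 hu1 hMd hu hM1
  have hm : 0 < min ε' ε₃ := lt_min hε' hε₃
  refine ⟨u, T, min ε' ε₃, max R' R₃, κ / 2, hm, hκ2,
    p6_imag_mono hm (min_le_left _ _) (le_max_left _ _) hT1, hT2, fun s h => ?_⟩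
  have h3 := hT3 s (Co_mono hm (min_le_left _ _) (le_max_left _ _) h)
  have h4 := hG0ne s (Co_mono hm (min_le_right _ _) (le_max_right _ _) h)
  rw [← h3, hMv, mul_div_cancel₀ _ h4]

end H12Z
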