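import Pool.Agent.Lib.H12Z.Defs
import Pool.Agent.Lib.H12Z.D3
import Pool.Agent.Lib.H12Z.D4B
import Pool.Agent.Lib.H12Z.D6
import Pool.Agent.Lib.H12Z.A12B
import Pool.Agent.Lib.H12Z.P6

/-! # H12Z, chunk P7 (M): exact annihilation -/

namespace H12Z

/-- (P7a, S) PROOF. Induction on `ws`. -/
theorem ops_differentiable (Q : ℂ) (ws : List ℂ) {G : ℂ → ℂ} (hG : Differentiable ℂ G) :
    Differentiable ℂ (ops Q ws G) := by
  induction ws with
  | nil => exact hG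
  | cons w ws ih =>
    change Differentiable ℂ (fun z => ops Q ws G (z + Q) - w * ops Q ws G z)
    have h1 : Differentiable ℂ (fun z : ℂ => ops Q ws G (z + Q)) :=
      ih.comp (differentiable_id.add_const Q)
    exact h1.sub (ih.const_mul w)

/-- (P7b, S) PROOF. Induction on `ws`: `‖z + Q‖ ≤ ‖z‖ + ‖Q‖`. -/
theorem ops_growth (Q : ℂ) (ws : List ℂ) {G : ℂ → ℂ} {C τ : ℝ} (hτ : 0 ≤ τ)
    (h : ∀ z, ‖G z‖ ≤ C * Real.exp (τ * ‖z‖)) :
    ∃ C' : ℝ, ∀ z, ‖ops Q ws G z‖ ≤ C' * Real.exp (τ * ‖z‖) := by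
  induction ws with
  | nil => exact ⟨C, h⟩
  | cons w ws ih =>
    obtain ⟨C', hC'⟩ := ih
    have hC0 : 0 ≤ C' := by
      have h0 := hC' 0
      rw [norm_zero, mul_zero, Real.exp_zero, mul_one] at h0
      exact le_trans (norm_nonneg _) h0
    refine ⟨C' * Real.exp (τ * ‖Q‖) + ‖w‖ * C', fun z => ?_⟩
    change ‖ops Q ws G (z + Q) - w * ops Q ws G z‖ ≤ _
    have h1 : ‖ops Q ws G (z + Q)‖ ≤ C' * Real.exp (τ * ‖Q‖) * Real.exp (τ * ‖z‖) := by
      refine (hC' (z + Q)).trans ?_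
      rw [mul_assoc, ← Real.exp_add]
      refine mul_le_mul_of_nonneg_left (Real.exp_le_exp.mpr ?_) hC0
      have h2 : ‖z + Q‖ ≤ ‖z‖ + ‖Q‖ := norm_add_le z Q
      have h3 := mul_le_mul_of_nonneg_left h2 hτ
      linarith
    have h4 : ‖w * ops Q ws G z‖ ≤ ‖w‖ * C' * Real.exp (τ * ‖z‖) := by
      rw [norm_mul, mul_assoc]
      exact mul_le_mul_of_nonneg_left (hC' z) (norm_nonneg w)
    refine (norm_sub_le _ _).trans ?_
    rw [add_mul]
    exact add_le_add h1 h4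

end H12Z
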