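import Pool.Agent.Lib.H12Z.Defs
import Pool.Agent.Lib.H12Z.P7

/-! # H12Z, chunk P7B (M): exact annihilation -/

namespace H12Z

/-- (P7c, M) PROOF. `N = τ + 1`, `G₀ s = c₀ + ∑ c i exp (-ξ i s)` (`expsum_tiny`), `exists_T`. `dec_T`, `Dec.exp_comp`: `exp T` is
in `Dec Q N`; `G₀` is in `Dec Q N` (`Dec.exp` for every term, `Dec.sum`, `Dec.add`), the constant `u` too; `Dec.mul`,
`Dec.congr` (the difference is zero on a cone: `Tiny.congr (Tiny.zero N)`). `Dec.exists_ops`: `Tiny N (ops Q ws G)`.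
`ops_growth`, `ops_differentiable`, `zero_of_tiny`. -/
theorem annihilate {η : ℂ} (hη : η.im ≠ 0) {m : ℕ} {c₀ : ℂ} (hc₀ : c₀ ≠ 0) (c ξ : Fin m → ℂ)
    (hξ : ∀ i, 0 < (ξ i).re) {G : ℂ → ℂ} (hG : Differentiable ℂ G) {τ C₁ : ℝ} (hτ : 0 ≤ τ)
    (hgr : ∀ z, ‖G z‖ ≤ C₁ * Real.exp (τ * ‖z‖)) {ε R C : ℝ} (hε : 0 < ε)
    (hb : ∀ s ∈ Co ε R, ‖G s‖ ≤ C)
    (hs : ∀ j k : ℤ, (j + k * η : ℂ) ∈ Co ε R →
      ‖G (j + k * η)‖ = ‖c₀ + ∑ i, c i * Complex.exp (-ξ i * (j + k * η))‖) :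
    ∃ ws : List ℂ, ws.Nodup ∧ (∀ w ∈ ws, w ≠ 0) ∧ ∀ s, ops (η - (starRingEnd ℂ) η) ws G s = 0 := by
  set G₀ : ℂ → ℂ := fun s => c₀ + ∑ i, c i * Complex.exp (-ξ i * s) with hG₀
  have hG₀d : Differentiable ℂ G₀ := by
    rw [hG₀]
    fun_prop
  obtain ⟨δ, hδ, hδ1⟩ := expsum_tiny c ξ hξ
  have h0 : Tiny δ (fun s => G₀ s - c₀) := by
    refine Tiny.congr hδ1 (ε := 1) (R := 0) one_pos ?_
    intro s _
    simp only [hG₀]
    ring
  obtain ⟨u, T, ε', R', κ, hε', hκ, hT, hTκ, hGT⟩ := exists_T hη hc₀ hG hG₀d hε hb hδ h0 hs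
  have hN : (0 : ℝ) ≤ τ + 1 := by linarith
  set Q : ℂ := η - (starRingEnd ℂ) η with hQ
  have hdT : Dec Q (τ + 1) (fun s => Complex.exp (T s)) :=
    Dec.exp_comp hN hκ (dec_T hη hε' hT hN) hTκ
  have hconst : ∀ a : ℂ, Dec Q (τ + 1) (fun _ => a) := by
    intro a
    have h1 := Dec.exp (Q := Q) (N := τ + 1) (ξ := 0) (Or.inr rfl) a
    have h2 : (fun s : ℂ => a * Complex.exp (0 * s)) = fun _ => a := by
      funext s
      simp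
    rw [h2] at h1
    exact h1
  have hdG₀ : Dec Q (τ + 1) G₀ := by
    refine Dec.add (hconst c₀) ?_
    refine Dec.sum Finset.univ (fun i _ => ?_)
    refine Dec.exp (Or.inl ?_) (c i)
    rw [Complex.neg_re]
    linarith [hξ i]
  have hd : Dec Q (τ + 1) G := by
    refine Dec.congr (Dec.mul hN hdG₀ (Dec.mul hN (hconst u) hdT)) ?_
    refine Tiny.congr (Tiny.zero (τ + 1)) hε' (R := R') ?_
    intro s hs'
    rw [hGT s hs']
    ring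
  obtain ⟨ws, hws, hw0, hwt⟩ := Dec.exists_ops hN hd
  refine ⟨ws, hws, hw0, ?_⟩
  obtain ⟨C', hC'⟩ := ops_growth Q ws hτ hgr
  exact fun s => zero_of_tiny (ops_differentiable Q ws hG) hτ (by linarith : τ < τ + 1) hC' hwt s

end H12Z
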