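import Pool.Agent.Lib.H12Z.Defs

/-! # H12Z, chunk W1 (S): the weights -/

namespace H12Z

open Metric

/-- (W1a, S) PROOF. As `H12L.wt_attained` (file `H12L/T1.lean`). -/
theorem wtH_attained {H : ℂ → ℝ} (hH : Continuous H) {R : ℝ} (hR : 0 ≤ R) (z : ℂ) :
    ∃ w : ℂ, ‖w‖ ≤ R ∧ wtH H R z = H w + 4 * ‖z - w‖ ^ 2 := by
  have hc : Continuous fun w : ℂ => H w + 4 * ‖z - w‖ ^ 2 := by fun_prop
  have hK : IsCompact ((fun w : ℂ => H w + 4 * ‖z - w‖ ^ 2) '' closedBall 0 R) :=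
    (isCompact_closedBall 0 R).image hc
  have hne : ((fun w : ℂ => H w + 4 * ‖z - w‖ ^ 2) '' closedBall 0 R).Nonempty :=
    (nonempty_closedBall.2 hR).image _
  obtain ⟨w, hw, h⟩ := hK.sInf_mem hne
  exact ⟨w, by simpa using hw, h.symm⟩

/-- (W1b, S) PROOF. As `H12L.wt_le` (bounded below: compact). -/
theorem wtH_le {H : ℂ → ℝ} (hH : Continuous H) {R : ℝ} {w : ℂ} (hw : ‖w‖ ≤ R) (z : ℂ) :
    wtH H R z ≤ H w + 4 * ‖z - w‖ ^ 2 := by
  have hc : Continuous fun w : ℂ => H w + 4 * ‖z - w‖ ^ 2 := by fun_prop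
  have hK : IsCompact ((fun w : ℂ => H w + 4 * ‖z - w‖ ^ 2) '' closedBall 0 R) :=
    (isCompact_closedBall 0 R).image hc
  exact csInf_le hK.bddBelow ⟨w, by simpa using hw, rfl⟩

/-- (W1c, S) PROOF. `abs_le` and `Lip` in both directions: `LipschitzWith` or `Metric.continuous_iff`. -/
theorem Lip.continuous {τ : ℝ} {H : ℂ → ℝ} (hH : Lip τ H) : Continuous H := by
  have h1 : LipschitzWith (Real.toNNReal |τ|) H := by
    apply LipschitzWith.of_dist_le_mul
    intro z w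
    rw [Real.dist_eq, dist_eq_norm, Real.coe_toNNReal _ (abs_nonneg τ)]
    have h2 := hH.2 z w
    have h3 := hH.2 w z
    rw [norm_sub_rev w z] at h3
    have h4 : τ * ‖z - w‖ ≤ |τ| * ‖z - w‖ := mul_le_mul_of_nonneg_right (le_abs_self τ) (norm_nonneg _)
    rw [abs_le]
    constructor <;> linarith
  exact h1.continuous

end H12Z
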