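import Pool.Agent.Lib.H12Z.Defs
import Pool.Agent.Lib.H12Z.W1

/-! # H12Z, chunk W2 (S/M): properties of the weights -/

namespace H12Z

open H12L

/-- (W2a, S) PROOF. As `H12L.wt_semi` (file `H12L/T1B.lean`), with `Lip.continuous`. -/
theorem wtH_semi {τ R : ℝ} (hR : 0 ≤ R) {H : ℂ → ℝ} (hH : Lip τ H) : Semi (wtH H R) := by
  intro z₀
  obtain ⟨w₀, hw, h0⟩ := wtH_attained hH.continuous hR z₀
  refine ⟨8 * (starRingEnd ℂ) (z₀ - w₀), fun z => ?_⟩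
  have h1 := wtH_le hH.continuous hw z
  have h2 : ‖z - w₀‖ ^ 2 = ‖z₀ - w₀‖ ^ 2 + 2 * ((starRingEnd ℂ) (z₀ - w₀) * (z - z₀)).re + ‖z - z₀‖ ^ 2 := by
    rw [Complex.sq_norm, Complex.sq_norm, Complex.sq_norm, Complex.normSq_apply, Complex.normSq_apply,
      Complex.normSq_apply, Complex.mul_re, Complex.conj_re, Complex.conj_im]
    simp only [Complex.sub_re, Complex.sub_im]
    ring
  have h3 : (8 * (starRingEnd ℂ) (z₀ - w₀) * (z - z₀)).re = 8 * ((starRingEnd ℂ) (z₀ - w₀) * (z - z₀)).re := by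
    rw [mul_assoc, show (8 : ℂ) = ((8 : ℝ) : ℂ) by norm_num, Complex.re_ofReal_mul]
  rw [h3, h0]
  rw [h2] at h1
  linarith

/-- (W2b, S) PROOF. As `H12L.wt_ge`: `H w + 4 r ^ 2 ≥ H z - τ r + 4 r ^ 2 ≥ H z - τ ^ 2 / 16`. -/
theorem wtH_ge {τ R : ℝ} (hR : 0 ≤ R) {H : ℂ → ℝ} (hH : Lip τ H) (z : ℂ) :
    H z - τ ^ 2 / 16 ≤ wtH H R z := by
  obtain ⟨w, hw, h0⟩ := wtH_attained hH.continuous hR z
  rw [h0]
  have h1 := hH.2 z w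
  nlinarith [sq_nonneg (2 * ‖z - w‖ - τ / 4)]

/-- (W2c, S) PROOF. As `H12L.wt_growth`; `H w ≥ -τ ‖w‖ ≥ -τ R` (`hH` with `z = 0`). -/
theorem wtH_growth {τ R : ℝ} (hτ : 0 ≤ τ) (hR : 0 ≤ R) {H : ℂ → ℝ} (hH : Lip τ H) (z : ℂ) :
    7 / 2 * ‖z‖ ^ 2 - (28 * R ^ 2 + τ * R) ≤ wtH H R z := by
  obtain ⟨w, hw, h0⟩ := wtH_attained hH.continuous hR z
  rw [h0]
  have h1 : ‖z‖ ≤ ‖z - w‖ + ‖w‖ := by
    have := norm_add_le (z - w) w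
    rwa [sub_add_cancel] at this
  have h2 : -(τ * R) ≤ H w := by
    have h5 := hH.2 0 w
    rw [hH.1, zero_sub, norm_neg] at h5
    have h6 := mul_le_mul_of_nonneg_left hw hτ
    linarith
  have h3 : 0 ≤ ‖z‖ := norm_nonneg z
  rcases le_total R ‖z‖ with h | h
  · have h4 : ‖z‖ - R ≤ ‖z - w‖ := by linarith
    have h5 : (‖z‖ - R) ^ 2 ≤ ‖z - w‖ ^ 2 := pow_le_pow_left₀ (by linarith) h4 2
    nlinarith [sq_nonneg (‖z‖ - 8 * R)]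
  · have h4 : ‖z‖ ^ 2 ≤ R ^ 2 := pow_le_pow_left₀ h3 h 2
    nlinarith [sq_nonneg ‖z - w‖, sq_nonneg R]

end H12Z
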