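import Pool.Agent.Lib.H12Z.Defs
import Pool.Agent.Lib.H12Z.W1
import Pool.Agent.Lib.H12Z.W2
import Pool.Agent.Lib.H12L.T2B

/-! # H12Z, chunk W3 (S/M): spreading of a Lipschitz weight -/

namespace H12Z

open H12L

/-- (W3, S/M) PROOF. As `H12L.spread_exp` (file `H12L/T3.lean`): `R = ‖z‖`, `φ = wtH H R`, `H12L.spread` with the
constant `A * exp (τ ^ 2 / 16)` (`wtH_ge`), `wtH_semi`, `wtH_growth`; `wtH H R z ≤ H z` (`wtH_le` with `w = z`). -/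
theorem spreadH {K : ℂ → ℂ} (hK : Differentiable ℂ K) {Λ : Set ℂ}
    (hd : ∀ z : ℂ, ∃ l ∈ Λ, ‖l - z‖ ≤ 1 / 8) {A B τ : ℝ} (hA0 : 0 ≤ A) (hτ : 0 ≤ τ)
    (hB0 : 0 ≤ B) (hB : ∀ z : ℂ, ‖K z‖ ≤ B * Real.exp (7 / 2 * ‖z‖ ^ 2)) {H : ℂ → ℝ} (hH : Lip τ H)
    (hA : ∀ l ∈ Λ, ‖K l‖ ≤ A * Real.exp (H l)) (z : ℂ) :
    ‖K z‖ ≤ 12 * (A * Real.exp (τ ^ 2 / 16)) * Real.exp (H z) := by
  have hR : 0 ≤ ‖z‖ := norm_nonneg z
  have hA' : 0 ≤ A * Real.exp (τ ^ 2 / 16) := mul_nonneg hA0 (Real.exp_pos _).le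
  have h1 := spread hK (wtH_semi hR hH) (c₀ := 28 * ‖z‖ ^ 2 + τ * ‖z‖) (wtH_growth hτ hR hH) hd hA' hB0 hB
    (fun l hl => by
      refine (hA l hl).trans ?_
      rw [mul_assoc, ← Real.exp_add]
      apply mul_le_mul_of_nonneg_left _ hA0
      apply Real.exp_le_exp.2
      have := wtH_ge hR hH l
      linarith) z
  refine h1.trans ?_
  apply mul_le_mul_of_nonneg_left _ (by positivity)
  apply Real.exp_le_exp.2
  have h2 := wtH_le hH.continuous (le_refl ‖z‖) z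
  simpa using h2

end H12Z
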