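import Pool.Agent.Lib.H12Z.Defs

/-! # H12Z, chunk W4 (S/M): the support function -/

namespace H12Z

open H12G

/-- (W4a, S) PROOF. `le_ciSup` (`Set.finite_range _ |>.bddAbove`). -/
theorem le_supp {n : ℕ} (ζ : Fin n → ℂ) (z : ℂ) (i : Fin n) : (ζ i * z).re ≤ supp ζ z :=
  le_ciSup (f := fun i => (ζ i * z).re) (Set.finite_range _).bddAbove i

/-- (W4b, S/M) PROOF. For `n = 0` the supremum of the empty family is `0`. For `n > 0`: `ciSup_le`, `le_supp`,
`(ζ i * z).re ≤ (ζ i * w).re + ‖ζ i‖ ‖z - w‖` (`Complex.re_le_norm`), `‖ζ i‖ ≤ ∑`. -/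
theorem supp_lip {n : ℕ} (ζ : Fin n → ℂ) : Lip (∑ i, ‖ζ i‖) (supp ζ) := by
  constructor
  · rcases n with _ | n
    · simp [supp]
    · simp [supp]
  · intro z w
    rcases n with _ | n
    · simp [supp]
    · unfold supp
      refine ciSup_le fun i => ?_
      have h1 := le_supp ζ w i
      unfold supp at h1
      have h2 : (ζ i * z).re = (ζ i * w).re + (ζ i * (z - w)).re := by
        rw [← Complex.add_re]
        congr 1
        ring
      have h3 : (ζ i * (z - w)).re ≤ ‖ζ i‖ * ‖z - w‖ := by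
        rw [← norm_mul]
        exact Complex.re_le_norm _
      have h4 : ‖ζ i‖ ≤ ∑ i, ‖ζ i‖ :=
        Finset.single_le_sum (f := fun i => ‖ζ i‖) (fun j _ => norm_nonneg (ζ j)) (Finset.mem_univ i)
      have h5 := mul_le_mul_of_nonneg_right h4 (norm_nonneg (z - w))
      linarith

/-- (W4c, S) PROOF. `norm_sum_le`, `Complex.norm_exp`, `le_supp`. -/
theorem ex_le {n : ℕ} (c ζ : Fin n → ℂ) (z : ℂ) :
    ‖ex c ζ z‖ ≤ (∑ i, ‖c i‖) * Real.exp (supp ζ z) := by
  unfold ex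
  refine (norm_sum_le _ _).trans ?_
  rw [Finset.sum_mul]
  refine Finset.sum_le_sum fun i _ => ?_
  rw [norm_mul, Complex.norm_exp]
  exact mul_le_mul_of_nonneg_left (Real.exp_le_exp.2 (le_supp ζ z i)) (norm_nonneg _)

/-- (W4d, S) PROOF. `supp_lip` with `w = 0`. -/
theorem supp_le {n : ℕ} (ζ : Fin n → ℂ) (z : ℂ) : supp ζ z ≤ (∑ i, ‖ζ i‖) * ‖z‖ := by
  have h := (supp_lip ζ).2 z 0
  rw [(supp_lip ζ).1, sub_zero, zero_add] at h
  exact h

end H12Z
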