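import Pool.Agent.Lib.H12Z.Defs
import Pool.Agent.Lib.H12Z.W3
import Pool.Agent.Lib.H12Z.W4

/-! # H12Z, chunk W5 (S/M): the transform of `h` -/

namespace H12Z

open MeasureTheory ComplexConjugate H12S H12G H12L

theorem w5_KF (f : ℝ → ℂ) : KF 0 f = FF f := by
  funext z
  unfold KF FF
  congr 2
  rw [map_zero]
  ring

/-- (W5a, S) PROOF. `KF_differentiable` (`H12L/L3.lean`) with `p = 0`. -/
theorem FF_differentiable {f : ℝ → ℂ} (hf : MemLp f 2 volume) : Differentiable ℂ (FF f) := by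
  rw [← w5_KF]
  exact KF_differentiable hf 0

/-- (W5b, S) PROOF. `KF_growth` with `p = 0`. -/
theorem FF_growth {h : ℝ → ℂ} (hh : MemLp h 2 volume) :
    ∃ B : ℝ, 0 ≤ B ∧ ∀ z, ‖FF h z‖ ≤ B * Real.exp (7 / 2 * ‖z‖ ^ 2) := by
  rw [← w5_KF]
  exact KF_growth hh 0

/-- (W5c, S) PROOF. `samples_Psi`. -/
theorem FF_samples {a b c d : ℝ} {f h : ℝ → ℂ} (H : SameSamples a b c d f h) (m n : ℤ) :
    ‖FF f (m * (⟨a, -c⟩ : ℂ) + n * (⟨b, -d⟩ : ℂ))‖ =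
      ‖FF h (m * (⟨a, -c⟩ : ℂ) + n * (⟨b, -d⟩ : ℂ))‖ := by
  unfold FF
  rw [norm_mul, norm_mul, samples_Psi H]

/-- (W5d, S/M) PROOF. `spreadH` with `H = supp ζ`, `dense_lat` (`H12S/R1.lean`), `FF_samples`, `ex_le`. -/
theorem FF_bound {a b c d : ℝ} (hD : Dense8 a b c d) {f h : ℝ → ℂ} (hh : MemLp h 2 volume)
    (H : SameSamples a b c d f h) {n : ℕ} {e ζ : Fin n → ℂ} (hf : ∀ z, FF f z = ex e ζ z) :
    ∃ A : ℝ, 0 ≤ A ∧ A ≤ 12 * ((∑ i, ‖e i‖) * Real.exp ((∑ i, ‖ζ i‖) ^ 2 / 16)) ∧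
      ∀ z, ‖FF h z‖ ≤ A * Real.exp (supp ζ z) := by
  obtain ⟨B, hB0, hB⟩ := FF_growth hh
  have hs : 0 ≤ ∑ i, ‖e i‖ := Finset.sum_nonneg fun i _ => norm_nonneg _
  have ht : 0 ≤ ∑ i, ‖ζ i‖ := Finset.sum_nonneg fun i _ => norm_nonneg _
  refine ⟨12 * ((∑ i, ‖e i‖) * Real.exp ((∑ i, ‖ζ i‖) ^ 2 / 16)), by positivity, le_rfl, fun z => ?_⟩
  refine spreadH (FF_differentiable hh)
    (Λ := {l : ℂ | ∃ m n : ℤ, l = m * (⟨a, -c⟩ : ℂ) + n * (⟨b, -d⟩ : ℂ)}) ?_ hs ht hB0 hB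
    (supp_lip ζ) ?_ z
  · intro z
    obtain ⟨m, n, h1⟩ := dense_lat hD z
    exact ⟨_, ⟨m, n, rfl⟩, h1⟩
  · rintro l ⟨m, n, rfl⟩
    rw [← FF_samples H, hf]
    exact ex_le e ζ _

/-- (W5e, S) PROOF. `Psi_gaborSum` (`H12G/G11.lean`). -/
theorem FF_gabor {f : ℝ → ℂ} (hf : GaborSum f) :
    ∃ (n : ℕ) (e ζ : Fin n → ℂ), ∀ z, FF f z = ex e ζ z := by
  obtain ⟨n, e, ζ, h1⟩ := Psi_gaborSum hf
  refine ⟨n, e, ζ, fun z => ?_⟩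
  unfold FF
  rw [h1, ← mul_assoc, ← Complex.exp_add, neg_add_cancel, Complex.exp_zero, one_mul]

end H12Z
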