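import Pool.Agent.Lib.H12Z.Defs
import Pool.Agent.Lib.H12Z.T1B
import Pool.Agent.Lib.H12Z.W4
import Pool.Agent.Lib.H12Z.P7B
import Pool.Agent.Lib.H12Z.C4B

/-! # H12Z, chunk Z1 (M): annihilation in the direction of a lattice vector -/

namespace H12Z

open H12G

/-- (Z1a, S/M) PROOF. `supp ζ (p s) ≤ (ζ v * (p s)).re`: for every `i`, with `x = (ζ v - ζ i) p`, `x.re > 0` (`i ≠ v`):
`(x s).re = x.re s.re - x.im s.im ≥ s.re (x.re - ε |x.im|) ≥ 0` for small `ε` (minimum over finitely many `i`). -/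
theorem supp_cone {m : ℕ} (ζ : Fin (m + 1) → ℂ) {v : Fin (m + 1)} {p : ℂ}
    (hp : ∀ i, i ≠ v → 0 < ((ζ v - ζ i) * p).re) :
    ∃ ε > 0, ∀ s ∈ Co ε 0, supp ζ (p * s) ≤ (ζ v * (p * s)).re := by
  have h1 : ∀ᶠ ε : ℝ in nhdsWithin 0 (Set.Ioi 0),
      ∀ i, i ≠ v → ε * |((ζ v - ζ i) * p).im| ≤ ((ζ v - ζ i) * p).re := by
    rw [Filter.eventually_all]
    intro i
    by_cases hi : i = v
    · exact Filter.Eventually.of_forall fun ε h => absurd hi h
    · have h2 := hp i hi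
      have h4 : Continuous (fun ε : ℝ => ε * |((ζ v - ζ i) * p).im|) := by fun_prop
      have h5 := h4.tendsto 0
      simp only [zero_mul] at h5
      have h3 := h5.mono_left (nhdsWithin_le_nhds (s := Set.Ioi 0))
      filter_upwards [h3.eventually (gt_mem_nhds h2)] with ε hε _
      exact hε.le
  obtain ⟨ε, h6, h7⟩ := (h1.and self_mem_nhdsWithin).exists
  refine ⟨ε, h7, fun s hs => ?_⟩
  obtain ⟨hs1, hs2⟩ := hs
  unfold supp
  refine ciSup_le fun i => ?_
  by_cases hi : i = v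
  · rw [hi]
  · have h8 := h6 i hi
    have h9 : (ζ v * (p * s)).re - (ζ i * (p * s)).re = ((ζ v - ζ i) * p * s).re := by
      rw [← Complex.sub_re]
      congr 1
      ring
    rw [Complex.mul_re ((ζ v - ζ i) * p) s] at h9
    have h10 : ((ζ v - ζ i) * p).im * s.im ≤ |((ζ v - ζ i) * p).im| * (ε * s.re) := by
      refine le_trans (le_abs_self _) ?_
      rw [abs_mul]
      exact mul_le_mul_of_nonneg_left hs1.le (abs_nonneg _)
    have h11 := mul_le_mul_of_nonneg_right h8 hs2.le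
    nlinarith

end H12Z
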