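import Pool.Agent.Lib.H12Z.Defs
import Pool.Agent.Lib.H12Z.Z1

/-! # H12Z, chunk Z1B (M): annihilation in the direction of a lattice vector -/

namespace H12Z

open H12G

/-- (Z1b, M) PROOF. `η = q / p`, `η.im ≠ 0`. `G s = F₂ (p s) exp (-ζ v p s)`, and
`F₁ (p s) exp (-ζ v p s) = e v + ∑ i : Fin m, e (v.succAbove i) exp (-(ζ v - ζ (v.succAbove i)) p s)`
(`Fin.sum_univ_succAbove`). `G` is bounded by `A` on `Co ε 0` (`supp_cone`) and by `A exp (τ ‖s‖)` everywhere
(`supp_le`). Samples: `p (j + k η) = j p + k q`. `annihilate`, then `ops_scale` with `b = ζ v`. -/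
theorem ann_direction {m : ℕ} {e ζ : Fin (m + 1) → ℂ} {v : Fin (m + 1)} (hev : e v ≠ 0) {p q : ℂ}
    (hpq : p.re * q.im - p.im * q.re ≠ 0) (hp : ∀ i, i ≠ v → 0 < ((ζ v - ζ i) * p).re)
    {F₂ : ℂ → ℂ} (hF : Differentiable ℂ F₂) {A : ℝ} (hA : ∀ z, ‖F₂ z‖ ≤ A * Real.exp (supp ζ z))
    (hs : ∀ j k : ℤ, ‖F₂ (j * p + k * q)‖ = ‖ex e ζ (j * p + k * q)‖) :
    ∃ ws : List ℂ, ws.Nodup ∧ (∀ w ∈ ws, w ≠ 0) ∧
      ∀ z, ops (p * (q / p - (starRingEnd ℂ) (q / p))) ws F₂ z = 0 := by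
  have hp0 : p ≠ 0 := by
    rintro rfl
    simp at hpq
  set η : ℂ := q / p with hη
  have hηi : η.im ≠ 0 := by
    have h1 : η.im = (p.re * q.im - p.im * q.re) / Complex.normSq p := by
      rw [hη, Complex.div_im]
      ring
    rw [h1]
    exact div_ne_zero hpq (by rwa [Ne, Complex.normSq_eq_zero])
  have hA0 : 0 ≤ A := by
    have h1 := (norm_nonneg _).trans (hA 0)
    exact nonneg_of_mul_nonneg_left h1 (Real.exp_pos _)
  obtain ⟨ε, hε, hcone⟩ := supp_cone ζ hp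
  set G : ℂ → ℂ := fun s => F₂ (p * s) * Complex.exp (-ζ v * p * s) with hG
  have hGd : Differentiable ℂ G := by
    rw [hG]
    fun_prop
  have hτ : 0 ≤ (∑ i, ‖ζ i‖) * ‖p‖ + ‖ζ v * p‖ := by positivity
  have hgr : ∀ s, ‖G s‖ ≤ A * Real.exp (((∑ i, ‖ζ i‖) * ‖p‖ + ‖ζ v * p‖) * ‖s‖) := by
    intro s
    simp only [hG]
    rw [norm_mul, Complex.norm_exp]
    have h1 : (-ζ v * p * s).re ≤ ‖ζ v * p‖ * ‖s‖ := by
      refine (Complex.re_le_norm _).trans ?_
      rw [norm_mul, neg_mul, norm_neg]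
    have h2 : supp ζ (p * s) ≤ (∑ i, ‖ζ i‖) * (‖p‖ * ‖s‖) := by
      rw [← norm_mul]
      exact supp_le ζ (p * s)
    calc ‖F₂ (p * s)‖ * Real.exp (-ζ v * p * s).re
        ≤ (A * Real.exp (supp ζ (p * s))) * Real.exp (-ζ v * p * s).re :=
          mul_le_mul_of_nonneg_right (hA _) (Real.exp_pos _).le
      _ = A * Real.exp (supp ζ (p * s) + (-ζ v * p * s).re) := by
          rw [Real.exp_add]; ring
      _ ≤ _ := by
          refine mul_le_mul_of_nonneg_left (Real.exp_le_exp.2 ?_) hA0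
          linarith
  have hb : ∀ s ∈ Co ε 0, ‖G s‖ ≤ A := by
    intro s hs'
    simp only [hG]
    rw [norm_mul, Complex.norm_exp]
    have h1 : (-ζ v * p * s).re = -(ζ v * (p * s)).re := by
      rw [← Complex.neg_re]
      congr 1
      ring
    calc ‖F₂ (p * s)‖ * Real.exp (-ζ v * p * s).re
        ≤ (A * Real.exp (supp ζ (p * s))) * Real.exp (-ζ v * p * s).re :=
          mul_le_mul_of_nonneg_right (hA _) (Real.exp_pos _).le
      _ = A * Real.exp (supp ζ (p * s) + (-ζ v * p * s).re) := by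
          rw [Real.exp_add]; ring
      _ ≤ A * 1 := by
          refine mul_le_mul_of_nonneg_left ?_ hA0
          rw [Real.exp_le_one_iff, h1]
          linarith [hcone s hs']
      _ = A := mul_one A
  have hξ : ∀ i : Fin m, 0 < ((ζ v - ζ (v.succAbove i)) * p).re :=
    fun i => hp _ (Fin.succAbove_ne v i)
  have hsum : ∀ s : ℂ, ex e ζ (p * s) * Complex.exp (-ζ v * p * s) =
      e v + ∑ i : Fin m, e (v.succAbove i) *
        Complex.exp (-((ζ v - ζ (v.succAbove i)) * p) * s) := by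
    intro s
    unfold ex
    rw [Fin.sum_univ_succAbove _ v, add_mul, Finset.sum_mul]
    congr 1
    · rw [mul_assoc, ← Complex.exp_add]
      have h1 : ζ v * (p * s) + -ζ v * p * s = 0 := by ring
      rw [h1, Complex.exp_zero, mul_one]
    · refine Finset.sum_congr rfl fun i _ => ?_
      rw [mul_assoc, ← Complex.exp_add]
      congr 2
      ring
  have hs' : ∀ j k : ℤ, (j + k * η : ℂ) ∈ Co ε 0 →
      ‖G (j + k * η)‖ = ‖e v + ∑ i : Fin m, e (v.succAbove i) *
        Complex.exp (-((ζ v - ζ (v.succAbove i)) * p) * (j + k * η))‖ := by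
    intro j k _
    rw [← hsum]
    simp only [hG]
    rw [norm_mul, norm_mul]
    have h1 : p * (j + k * η) = j * p + k * q := by
      rw [hη]
      field_simp
    rw [h1, hs j k]
  obtain ⟨ws, hws, hw0, hwz⟩ := annihilate hηi hev (fun i => e (v.succAbove i))
    (fun i => (ζ v - ζ (v.succAbove i)) * p) hξ hGd hτ hgr hε hb hs'
  exact ops_scale hp0 hws hw0 hwz

end H12Z
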