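import Pool.Agent.Lib.H12Z.Defs
import Pool.Agent.Lib.H12Z.W5
import Pool.Agent.Lib.H12Z.N1
import Pool.Agent.Lib.H12Z.N2
import Pool.Agent.Lib.H12Z.N3
import Pool.Agent.Lib.H12Z.C3B
import Pool.Agent.Lib.H12Z.Z1B

/-! # H12Z, chunk Z2 (M): the transform of `h` is an exponential sum -/

namespace H12Z

open MeasureTheory ComplexConjugate H12S H12G H12L

/-- (Z2a, S) PROOF. `q / p - conj (q / p) = 2 i im (q / p)`, `Q = 2 i im (q / p) p`, `P = 2 i im (p / q) q`;
`im (q / p) = D / ‖p‖ ^ 2`, `im (p / q) = -D / ‖q‖ ^ 2`, `D = p.re q.im - p.im q.re`, and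
`Q.re P.im - Q.im P.re = -4 D ^ 2 / (‖p‖ ^ 2 ‖q‖ ^ 2) * D`. -/
theorem directions_indep {p q : ℂ} (hpq : p.re * q.im - p.im * q.re ≠ 0) :
    (p * (q / p - conj (q / p))).re * (q * (p / q - conj (p / q))).im -
      (p * (q / p - conj (q / p))).im * (q * (p / q - conj (p / q))).re ≠ 0 := by
  have hp : Complex.normSq p ≠ 0 := by
    rw [Ne, Complex.normSq_eq_zero]
    rintro rfl
    simp at hpq
  have hq : Complex.normSq q ≠ 0 := by
    rw [Ne, Complex.normSq_eq_zero]
    rintro rfl
    simp at hpq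
  have h1 : ∀ z w : ℂ, (z * (w - conj w)).re = -2 * w.im * z.im := by
    intro z w
    simp [Complex.mul_re]
    ring
  have h2 : ∀ z w : ℂ, (z * (w - conj w)).im = 2 * w.im * z.re := by
    intro z w
    simp [Complex.mul_im]
    ring
  have h3 : (q / p).im = (p.re * q.im - p.im * q.re) / Complex.normSq p := by
    rw [Complex.div_im]
    ring
  have h4 : (p / q).im = -(p.re * q.im - p.im * q.re) / Complex.normSq q := by
    rw [Complex.div_im]
    ring
  rw [h1, h1, h2, h2, h3, h4]
  have h5 : -2 * ((p.re * q.im - p.im * q.re) / Complex.normSq p) * p.im *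
        (2 * (-(p.re * q.im - p.im * q.re) / Complex.normSq q) * q.re) -
      2 * ((p.re * q.im - p.im * q.re) / Complex.normSq p) * p.re *
        (-2 * (-(p.re * q.im - p.im * q.re) / Complex.normSq q) * q.im) =
      -4 * (p.re * q.im - p.im * q.re) ^ 3 / (Complex.normSq p * Complex.normSq q) := by
    field_simp
    ring
  rw [h5]
  exact div_ne_zero (mul_ne_zero (by norm_num) (pow_ne_zero 3 hpq)) (mul_ne_zero hp hq)

end H12Z
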