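import Pool.Agent.Lib.H12Z.Defs
import Pool.Agent.Lib.H12Z.Z2

/-! # H12Z, chunk Z2B (M): the transform of `h` is an exponential sum -/

namespace H12Z

open MeasureTheory ComplexConjugate H12S H12G H12L

/-- (Z2b, M) PROOF. `FF_gabor`, `normal_form`: `FF f = ex e ζ`, `ζ` injective, `e i ≠ 0`, `Fin m`. If `m = 0`:
`FF_bound` gives `FF h = 0` (the constant is `0`). Otherwise `FF_bound`, `exists_exposed`, `exists_pair` (`dense_lat` in
`H12S/R1.lean`, `ρ = 1 / 8`, `S` the image of the `ζ v - ζ i`, `i ≠ v`): `p`, `q`. `ann_direction` for `(p, q)` and for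
`(q, p)` (integer combinations of `p`, `q` are lattice points: `FF_samples`), `directions_indep`, `exp_of_ops`. -/
theorem FF_exp {a b c d : ℝ} (hD : Dense8 a b c d) {f h : ℝ → ℂ} (hf : GaborSum f)
    (hh : MemLp h 2 volume) (H : SameSamples a b c d f h) :
    ∃ (n : ℕ) (e ζ : Fin n → ℂ), ∀ z, FF h z = ex e ζ z := by
  obtain ⟨n0, c0, ζ0, h0⟩ := FF_gabor hf
  obtain ⟨m, e, ζ, hinj, hne, h1⟩ := normal_form c0 ζ0
  have hfe : ∀ z, FF f z = ex e ζ z := fun z => (h0 z).trans (h1 z)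
  obtain ⟨A, hA0, hA1, hA⟩ := FF_bound hD hh H hfe
  rcases m with _ | m
  · refine ⟨0, Fin.elim0, Fin.elim0, fun z => ?_⟩
    have hA' : A = 0 := by
      refine le_antisymm ?_ hA0
      simpa using hA1
    have h2 := hA z
    rw [hA', zero_mul] at h2
    have h3 := norm_le_zero_iff.1 h2
    rw [h3]
    simp [ex]
  · obtain ⟨v, e1, he1, hexp⟩ := exists_exposed (Nat.succ_pos m) hinj
    have hmem : ∀ i, i ≠ v → ζ v - ζ i ∈ (Finset.univ.erase v).image (fun i => ζ v - ζ i) := by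
      intro i hi
      exact Finset.mem_image_of_mem _ (Finset.mem_erase.2 ⟨hi, Finset.mem_univ _⟩)
    obtain ⟨p, q, ⟨mp, np, hp⟩, ⟨mq, nq, hq⟩, hpS, hqS, hdet⟩ :=
      exists_pair (u := (⟨a, -c⟩ : ℂ)) (v := (⟨b, -d⟩ : ℂ)) (ρ := 1 / 8) (by norm_num)
        (dense_lat hD) ((Finset.univ.erase v).image (fun i => ζ v - ζ i)) he1 (by
          intro ξ hξ
          obtain ⟨i, hi, rfl⟩ := Finset.mem_image.1 hξ
          exact hexp i (Finset.mem_erase.1 hi).1)
    have hs : ∀ j k : ℤ, ‖FF h (j * p + k * q)‖ = ‖ex e ζ (j * p + k * q)‖ := by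
      intro j k
      have h2 := FF_samples H (j * mp + k * mq) (j * np + k * nq)
      have e2 : (j : ℂ) * p + k * q = ((j * mp + k * mq : ℤ) : ℂ) * (⟨a, -c⟩ : ℂ) +
          ((j * np + k * nq : ℤ) : ℂ) * (⟨b, -d⟩ : ℂ) := by
        rw [hp, hq]
        push_cast
        ring
      rw [e2, ← hfe, h2]
    have hdiff := FF_differentiable hh
    obtain ⟨ws, hws, hw0, hops⟩ := ann_direction (hne v) hdet (fun i hi => hpS _ (hmem i hi))
      hdiff hA hs
    have hdet' : q.re * p.im - q.im * p.re ≠ 0 := by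
      intro h2
      apply hdet
      linarith
    obtain ⟨ws', hws', hw0', hops'⟩ := ann_direction (hne v) hdet' (fun i hi => hqS _ (hmem i hi))
      hdiff hA (fun j k => by
        rw [add_comm]
        exact hs k j)
    exact exp_of_ops (directions_indep hdet) hws hws' hw0 hw0' hdiff hops hops'

end H12Z
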