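import Pool.Agent.Lib.H12Z.Defs
import Pool.Agent.Lib.H12Z.Z2B

/-! # H12Z, chunk Z3 (S/M): the theorems -/

namespace H12Z

open MeasureTheory ComplexConjugate H12S H12G H12L

/-- (Z3a, S/M) PROOF. `exists_gab` (`H12L/X1.lean`) with `s i = (ζ i).re / π`, `w i = (ζ i).im / π`, so
`π (s i + i w i) = ζ i`: `h' = gab ..` has `Psi h' = Psi h`; `gaborSum_memLp`, `eq_of_Psi` with `u = 1`. -/
theorem gabor_of_FF {h : ℝ → ℂ} (hh : MemLp h 2 volume) {n : ℕ} {e ζ : Fin n → ℂ}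
    (H : ∀ z, FF h z = ex e ζ z) : ∃ h' : ℝ → ℂ, GaborSum h' ∧ ∀ᵐ t : ℝ, h t = h' t := by
  obtain ⟨e', he'⟩ := exists_gab e (fun i => (ζ i).re / Real.pi) (fun i => (ζ i).im / Real.pi)
  have hpi : (Real.pi : ℂ) ≠ 0 := Complex.ofReal_ne_zero.mpr Real.pi_ne_zero
  have hg : GaborSum (gab e' (fun i => (ζ i).re / Real.pi) (fun i => (ζ i).im / Real.pi)) :=
    ⟨n, e', _, _, fun t => rfl⟩
  refine ⟨gab e' (fun i => (ζ i).re / Real.pi) (fun i => (ζ i).im / Real.pi), hg, ?_⟩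
  have h1 := eq_of_Psi (gaborSum_memLp hg).2 hh (u := 1) fun z => by
    have h2 := H z
    unfold FF ex at h2
    rw [he' z, one_mul]
    have h3 : Complex.exp (Real.pi * z ^ 2 / 2) * Complex.exp (-(Real.pi * z ^ 2 / 2)) = 1 := by
      rw [← Complex.exp_add, add_neg_cancel, Complex.exp_zero]
    have h4 : Psi h z = Complex.exp (Real.pi * z ^ 2 / 2) *
        (Complex.exp (-(Real.pi * z ^ 2 / 2)) * Psi h z) := by
      rw [← mul_assoc, h3, one_mul]
    rw [h4, h2]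
    congr 1
    refine Finset.sum_congr rfl fun i _ => ?_
    congr 2
    have h5 : (Real.pi : ℂ) * (((ζ i).re / Real.pi : ℝ) + Complex.I * ((ζ i).im / Real.pi : ℝ)) = ζ i := by
      push_cast
      conv_rhs => rw [← Complex.re_add_im (ζ i)]
      field_simp
    rw [h5]
  filter_upwards [h1] with t ht
  rw [ht, one_mul]

end H12Z
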