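import Pool.Agent.Lib.H12Z.Defs
import Pool.Agent.Lib.H12Z.Z3

/-! # H12Z, chunk Z3B (S/M): the theorems -/

namespace H12Z

open MeasureTheory ComplexConjugate H12S H12G H12L

/-- (Z3b, S) PROOF. `FF_exp`, `gabor_of_FF`. -/
theorem gabor_of_samples {a b c d : ℝ} (hD : Dense8 a b c d) {f h : ℝ → ℂ} (hf : GaborSum f)
    (hh : MemLp h 2 volume) (H : SameSamples a b c d f h) :
    ∃ h' : ℝ → ℂ, GaborSum h' ∧ ∀ᵐ t : ℝ, h t = h' t := by
  obtain ⟨n, e, ζ, h1⟩ := FF_exp hD hf hh H
  exact gabor_of_FF hh h1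

/-- (Z3c, S) PROOF. The integrands agree almost everywhere (`integral_congr_ae`). -/
theorem samples_congr {a b c d : ℝ} {f h h' : ℝ → ℂ} (hh : ∀ᵐ t : ℝ, h t = h' t)
    (H : SameSamples a b c d f h) : SameSamples a b c d f h' := by
  have e1 : ∀ x w : ℝ, stft h x w = stft h' x w := by
    intro x w
    unfold stft
    refine integral_congr_ae ?_
    filter_upwards [hh] with t ht
    rw [ht]
  intro m n
  rw [← e1]
  exact H m n

end H12Z
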