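import Pool.Agent.Lib.H12Z.Defs
import Pool.Agent.Lib.H12Z.Z3B

/-! # H12Z, chunk Z3C (S/M): the theorems -/

namespace H12Z

open MeasureTheory ComplexConjugate H12S H12G H12L

/-- (Z3d, S/M) PROOF. `→`: for real `f`, `h`: `gabor_of_samples` for `toC f`, `toC h`: `toC h = h'` a.e., `h'` a Gabor sum, so
continuous (`gaborSum_memLp`), `h'` is real a.e., so everywhere (`Continuous.ae_eq_iff_eq` for `h'` and `conj h'`), so
`h' = toC h₁`, `h₁ t = (h' t).re`. `samples_congr` and `gabor_real` (`H12G/G12.lean`): `h₁ = ± f`. `←`: `gabor_real`: for
Gabor sums `f`, `h` (in `L²`: `gaborSum_memLp`; `toC`), `SignEq` of continuous functions gives equality everywhere. -/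
theorem real_iff {a b c d : ℝ} (hdet : a * d - b * c ≠ 0) (hD : Dense8 a b c d) :
    IndepQ a b ↔ ∀ f h : ℝ → ℝ, GaborSum (toC f) → MemLp h 2 volume →
      SameSamples a b c d (toC f) (toC h) → SignEq f h := by
  constructor
  · intro hind f h hf hh H
    obtain ⟨h', hg, hae⟩ := gabor_of_samples hD hf (memLp_toC hh) H
    have hcont : Continuous h' := (gaborSum_memLp hg).1
    have hreal : h' = fun t => conj (h' t) := by
      refine (Continuous.ae_eq_iff_eq volume hcont (Complex.continuous_conj.comp hcont)).1 ?_
      filter_upwards [hae] with t ht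
      change h' t = conj (h' t)
      rw [← ht]
      exact (Complex.conj_ofReal _).symm
    have hh1 : (toC fun t => (h' t).re) = h' := by
      funext t
      exact Complex.conj_eq_iff_re.1 (congrFun hreal t).symm
    have hg1 : GaborSum (toC fun t => (h' t).re) := by
      rw [hh1]
      exact hg
    have H1 : SameSamples a b c d (toC f) (toC fun t => (h' t).re) := by
      rw [hh1]
      exact samples_congr hae H
    have hae' : ∀ᵐ t : ℝ, h t = (h' t).re := by
      filter_upwards [hae] with t ht
      rw [← ht]
      rfl
    rcases (gabor_real hdet).1 hind f _ hf hg1 H1 with h2 | h2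
    · left
      filter_upwards [hae'] with t ht
      rw [ht]
      exact h2 t
    · right
      filter_upwards [hae'] with t ht
      rw [ht]
      exact h2 t
  · intro hall
    refine (gabor_real hdet).2 fun f h hf hh H => ?_
    have hfc : Continuous f := Complex.continuous_re.comp (gaborSum_memLp hf).1
    have hhc : Continuous h := Complex.continuous_re.comp (gaborSum_memLp hh).1
    have hhm : MemLp h 2 volume := (gaborSum_memLp hh).2.re
    rcases hall f h hf hhm H with h1 | h1
    · left
      intro t
      have h2 : h = f := (Continuous.ae_eq_iff_eq volume hhc hfc).1 h1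
      exact congrFun h2 t
    · right
      intro t
      have h2 : h = fun t => -f t := (Continuous.ae_eq_iff_eq volume hhc hfc.neg).1 h1
      exact congrFun h2 t

end H12Z
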